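import Pool.Agent.Lib.MP_72e2e6_nt.WP.Fd.Spec

/-!
# MP_72e2e6_nt, T3p, Fd/Ccm: symmetric cocycles
-/

set_option autoImplicit false

namespace Pool.Agent.MP72V

open scoped Classical

theorem tCcm : S_Ccm := by
  intro G _ L _ f _ hs h0 hc
  have h4 : ∀ A B A' B' : G, f A B * f A' B' * f (A + B) (A' + B') =
      f A A' * f B B' * f (A + A') (B + B') := by
    intro A B A' B'
    have e1 := hc A B (A' + B')
    have e2 : f A' B' * f B (A' + B') = f B B' * f A' (B + B') := by
      have e := hc A' B' B
      rw [hs (A' + B') B, hs B' B, add_comm B' B] at e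
      exact e
    have e3 := hc A A' (B + B')
    have e4 : B + (A' + B') = A' + (B + B') := by abel
    rw [e4] at e1
    calc f A B * f A' B' * f (A + B) (A' + B')
        = f A' B' * (f A B * f (A + B) (A' + B')) := by ring
      _ = (f A' B' * f B (A' + B')) * f A (A' + (B + B')) := by rw [e1]; ring
      _ = f B B' * (f A' (B + B') * f A (A' + (B + B'))) := by rw [e2]; ring
      _ = f B B' * (f A A' * f (A + A') (B + B')) := by rw [← e3]
      _ = f A A' * f B B' * f (A + A') (B + B') := by ring
  have hb : ∀ (m n : ℕ) (R : G), ∏ i ∈ Finset.range (m + n), f R (i • R) =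
      (∏ i ∈ Finset.range m, f R (i • R)) * (∏ i ∈ Finset.range n, f R (i • R)) *
        f (m • R) (n • R) := by
    intro m n R
    induction n with
    | zero => rw [Finset.prod_range_zero, zero_nsmul, h0, add_zero, mul_one, mul_one]
    | succ n ih =>
      rw [← add_assoc, Finset.prod_range_succ, ih, Finset.prod_range_succ]
      have e := hc (m • R) (n • R) R
      rw [← add_nsmul, ← succ_nsmul, hs ((m + n) • R) R, hs (n • R) R] at e
      calc (∏ i ∈ Finset.range m, f R (i • R)) * (∏ i ∈ Finset.range n, f R (i • R)) *
            f (m • R) (n • R) * f R ((m + n) • R)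
          = (∏ i ∈ Finset.range m, f R (i • R)) * (∏ i ∈ Finset.range n, f R (i • R)) *
            (f (m • R) (n • R) * f R ((m + n) • R)) := by ring
        _ = (∏ i ∈ Finset.range m, f R (i • R)) *
            ((∏ i ∈ Finset.range n, f R (i • R)) * f R (n • R)) * f (m • R) ((n + 1) • R) := by
          rw [e]; ring
  refine ⟨?_, ?_⟩
  · intro n R R'
    induction n with
    | zero =>
      rw [Finset.prod_range_zero, Finset.prod_range_zero, Finset.prod_range_zero, zero_nsmul,
        zero_nsmul, h0, pow_zero, mul_one, mul_one]
    | succ n ih =>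
      rw [Finset.prod_range_succ, Finset.prod_range_succ, Finset.prod_range_succ]
      have e := h4 R (n • R) R' (n • R')
      rw [← succ_nsmul', ← succ_nsmul', ← nsmul_add] at e
      calc (∏ i ∈ Finset.range n, f R (i • R)) * f R (n • R) *
            ((∏ i ∈ Finset.range n, f R' (i • R')) * f R' (n • R')) *
            f ((n + 1) • R) ((n + 1) • R')
          = (∏ i ∈ Finset.range n, f R (i • R)) * (∏ i ∈ Finset.range n, f R' (i • R')) *
            (f R (n • R) * f R' (n • R') * f ((n + 1) • R) ((n + 1) • R')) := by ring
        _ = ((∏ i ∈ Finset.range n, f R (i • R)) * (∏ i ∈ Finset.range n, f R' (i • R')) *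
            f (n • R) (n • R')) * (f R R' * f (R + R') (n • (R + R'))) := by rw [e]; ring
        _ = (∏ i ∈ Finset.range n, f (R + R') (i • (R + R'))) * f (R + R') (n • (R + R')) *
            f R R' ^ (n + 1) := by rw [ih]; ring
  · intro m n R
    induction n with
    | zero => rw [mul_zero, Finset.prod_range_zero, pow_zero, Finset.prod_range_zero, mul_one]
    | succ n ih =>
      rw [Nat.mul_succ, hb, ih, Finset.prod_range_succ, mul_nsmul, hs (n • m • R) (m • R)]
      ring

end Pool.Agent.MP72V
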