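import Pool.Agent.Lib.MP_72e2e6_nt.WP.Fd.Spec

/-!
# MP_72e2e6_nt, `WP/Fd`, module `Cnz`: `c(R) ≠ 0`
-/

namespace Pool.Agent.MP72V

open Polynomial WeierstrassCurve
open Pool.Agent.MP72W (pmap)

open scoped Classical

/-! ### 1. Polynomials -/

private theorem cnz_cub {L : Type} [Field L] (W : WeierstrassCurve L) :
    (cub W).natDegree = 3 ∧ (cub W).Monic ∧
      ∀ (M : Type) [Field M] [Algebra L M] (x : M), aeval x (cub W) =
        x ^ 3 + algebraMap L M W.a₂ * x ^ 2 + algebraMap L M W.a₄ * x + algebraMap L M W.a₆ := by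
  have h1 : (cub W).natDegree = 3 := by
    rw [cub]
    compute_degree!
  refine ⟨h1, ?_, fun M _ _ x => ?_⟩
  · rw [Monic, leadingCoeff, h1, cub]
    simp
  · rw [cub]
    simp

private theorem cnz_dcub {L : Type} [Field L] (W : WeierstrassCurve L) (M : Type) [Field M]
    [Algebra L M] (x : M) : aeval x (derivative (cub W)) =
      3 * x ^ 2 + 2 * algebraMap L M W.a₂ * x + algebraMap L M W.a₄ := by
  have h2 : algebraMap L M 2 = 2 := map_ofNat _ 2
  have h3 : algebraMap L M 3 = 3 := map_ofNat _ 3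
  rw [cub]
  simp only [derivative_add, derivative_mul, derivative_X_pow, derivative_C, derivative_X, map_add,
    map_mul, aeval_C, aeval_X, map_pow, map_zero, map_one, Nat.cast_ofNat]
  norm_num [h2, h3]
  ring

private theorem cnz_da {L : Type} [Field L] (h20 : (2 : L) ≠ 0) (f a g : L[X])
    (hf : f.natDegree = 3) (h : (C 2 * derivative a) ^ 2 * f = g ^ 2) : derivative a = 0 := by
  by_contra hne
  have hf0 : f ≠ 0 := by
    rintro rfl
    rw [natDegree_zero] at hf
    omega
  have h1 : C 2 * derivative a ≠ 0 := mul_ne_zero (C_ne_zero.2 h20) hne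
  have h2 := congrArg natDegree h
  rw [natDegree_mul (pow_ne_zero _ h1) hf0, natDegree_pow, natDegree_pow, hf] at h2
  omega

private theorem cnz_const (p : ℕ) [Fact p.Prime] (hp2 : Odd p) {L : Type} [Field L]
    [CharP L p] (f a b : L[X]) (r : L) (hf : f.natDegree = 3) (hda : derivative a = 0)
    (h : a ^ 2 - b ^ 2 * f = -(X - C r) ^ p) : ∃ α, a = C α := by
  have hf0 : f ≠ 0 := by
    rintro rfl
    rw [natDegree_zero] at hf
    omega
  have hX : ((X - C r : L[X]) ^ p).natDegree = p := by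
    rw [natDegree_pow, natDegree_X_sub_C, mul_one]
  have hb : b ≠ 0 := by
    rintro rfl
    have h1 : a ^ 2 = -(X - C r) ^ p := by rw [← h]; ring
    have h2 := congrArg natDegree h1
    rw [natDegree_pow, natDegree_neg, hX] at h2
    rw [← h2] at hp2
    exact (Nat.not_odd_iff_even.2 (even_two_mul _)) hp2
  have hbf : (b ^ 2 * f).natDegree = 2 * b.natDegree + 3 := by
    rw [natDegree_mul (pow_ne_zero _ hb) hf0, natDegree_pow, hf]
  have h1 : b ^ 2 * f = a ^ 2 + (X - C r) ^ p := by linear_combination -h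
  have hlt : 2 * a.natDegree < p := by
    by_contra hc
    have hne : p ≠ 2 * a.natDegree := by
      intro h2
      rw [h2] at hp2
      exact (Nat.not_odd_iff_even.2 (even_two_mul _)) hp2
    have h2 : (a ^ 2 + (X - C r) ^ p).natDegree = 2 * a.natDegree := by
      rw [natDegree_add_eq_left_of_natDegree_lt, natDegree_pow]
      rw [hX, natDegree_pow]
      omega
    rw [← h1, hbf] at h2
    omega
  refine ⟨a.coeff 0, eq_C_of_natDegree_eq_zero ?_⟩
  by_contra hn
  obtain ⟨m, hm⟩ := Nat.exists_eq_succ_of_ne_zero hn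
  have h2 := congrArg (fun q => coeff q m) hda
  simp only [coeff_derivative, coeff_zero] at h2
  have ha0 : a ≠ 0 := by
    rintro rfl
    exact hn natDegree_zero
  have h3 : a.coeff (m + 1) ≠ 0 := by
    rw [← Nat.succ_eq_add_one, ← hm]
    exact leadingCoeff_ne_zero.2 ha0
  have h4 : ((m + 1 : ℕ) : L) = 0 := by
    push_cast
    exact (mul_eq_zero.1 h2).resolve_left h3
  rw [CharP.cast_eq_zero_iff L p] at h4
  have := Nat.le_of_dvd (Nat.succ_pos _) h4
  omega

private theorem cnz_root (p : ℕ) [hp : Fact p.Prime] {E : Type} [Field E] [IsAlgClosed E]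
    [CharP E p] (f b : E[X]) (r α : E) (hf : f.natDegree = 3)
    (h : b ^ 2 * f = (X - C r) ^ p + C (α ^ 2)) : ∃ z, f.eval z = 0 ∧ (derivative f).eval z = 0 := by
  have hf0 : f ≠ 0 := by
    rintro rfl
    rw [natDegree_zero] at hf
    omega
  obtain ⟨β, hβ⟩ := IsAlgClosed.exists_pow_nat_eq (α ^ 2) hp.out.pos
  have h1 : b ^ 2 * f = (X - C (r - β)) ^ p := by
    rw [h, ← hβ, C_pow, ← add_pow_char, C_sub]
    congr 1
    ring
  have huniq : ∀ z, f.eval z = 0 → z = r - β := by
    intro z hz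
    have h2 := congrArg (eval z) h1
    rw [eval_mul, hz, mul_zero, eval_pow, eval_sub, eval_X, eval_C] at h2
    exact sub_eq_zero.1 (pow_eq_zero_iff hp.out.ne_zero |>.1 h2.symm)
  obtain ⟨z, hz⟩ := IsAlgClosed.exists_root f (by
    rw [degree_eq_natDegree hf0, hf]
    exact_mod_cast (by norm_num : (3 : ℕ) ≠ 0))
  obtain ⟨g, hg⟩ := dvd_iff_isRoot.2 hz
  have hg0 : g ≠ 0 := by
    rintro rfl
    rw [mul_zero] at hg
    exact hf0 hg
  have hgd : g.natDegree = 2 := by
    have h2 := congrArg natDegree hg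
    rw [natDegree_mul (X_sub_C_ne_zero z) hg0, natDegree_X_sub_C, hf] at h2
    omega
  obtain ⟨z', hz'⟩ := IsAlgClosed.exists_root g (by
    rw [degree_eq_natDegree hg0, hgd]
    exact_mod_cast (by norm_num : (2 : ℕ) ≠ 0))
  have h3 : f.eval z' = 0 := by
    rw [hg, eval_mul, hz'.eq_zero, mul_zero]
  have h4 : z' = z := (huniq z' h3).trans (huniq z hz.eq_zero).symm
  refine ⟨z, hz.eq_zero, ?_⟩
  rw [hg, derivative_mul, eval_add, eval_mul, eval_mul, eval_sub, eval_X, eval_C, sub_self, zero_mul,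
    add_zero, ← h4, hz'.eq_zero, mul_zero]

private theorem cnz_der {L M : Type} [Field L] [Field M] [Algebra L M] (D : Derivation L M M)
    (x y : M) (hx : ∀ h : L[X], aeval x h = 0 → h = 0) (hDx : D x = 1) (f a b : L[X])
    (hy : y ^ 2 = aeval x f) (h : D (aeval x a + aeval x b * y) = 0) :
    (C 2 * derivative a) ^ 2 * f = (C 2 * derivative b * f + b * derivative f) ^ 2 := by
  have hD : ∀ q : L[X], D (aeval x q) = aeval x (derivative q) := by
    intro q
    rw [Derivation.map_aeval, hDx, smul_eq_mul, mul_one]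
  have h1 : 2 * y * D y = aeval x (derivative f) := by
    rw [← hD, ← hy, pow_two, D.leibniz, smul_eq_mul]
    ring
  rw [map_add, D.leibniz, hD, hD, smul_eq_mul, smul_eq_mul] at h
  have h2 : 2 * aeval x (derivative a) * y = -(2 * aeval x (derivative b) * aeval x f +
      aeval x b * aeval x (derivative f)) := by
    rw [← h1, ← hy]
    linear_combination 2 * y * h
  have h3 : (2 * aeval x (derivative a)) ^ 2 * aeval x f = (2 * aeval x (derivative b) * aeval x f +
      aeval x b * aeval x (derivative f)) ^ 2 := by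
    rw [← hy, ← neg_sq (2 * aeval x (derivative b) * y ^ 2 + aeval x b * aeval x (derivative f)), hy,
      ← h2, ← hy]
    ring
  rw [← sub_eq_zero]
  apply hx
  rw [map_sub, map_mul, map_pow, map_mul, map_pow, map_add, map_mul, map_mul, map_mul, aeval_C,
    map_ofNat, h3, sub_self]

theorem tCnz (h1 : S_Pts) (h2 : S_Bas) (h3 : S_Om) (h4 : S_Dv) (_h5 : S_Mon) (h6 : S_Dvs)
    (h7 : S_Ev) (h8 : S_Nz) (h9 : S_Wmp) (h10 : S_Key) : S_Cnz := by
  intro p hp hp2 K _ _ W hW L _ _ R hR hpR hc
  have hodd : Odd p := hp.out.odd_of_ne_two hp2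
  have hp3 : 3 ≤ p := by
    have := hp.out.two_le
    omega
  have h20 : (2 : K) ≠ 0 := by
    intro h
    have h' : ((2 : ℕ) : K) = 0 := by exact_mod_cast h
    rw [CharP.cast_eq_zero_iff K p] at h'
    rcases (Nat.dvd_prime Nat.prime_two).1 h' with h'' | h''
    · exact hp.out.one_lt.ne' h''
    · exact hp2 h''
  have hcL : CharP L p := charP_of_injective_algebraMap (algebraMap K L).injective p
  obtain ⟨b20, bnf, ba2, ba4, ba6, bmap⟩ := h2.1 K h20 W hW L
  have hord : addOrderOf R = p := addOrderOf_eq_prime hpR hR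
  have hiR : ∀ i, 0 < i → i < p → i • R ≠ 0 := by
    intro i hi hip h
    have := addOrderOf_dvd_of_nsmul_eq_zero h
    rw [hord] at this
    have := Nat.le_of_dvd hi this
    omega
  -- the function
  obtain ⟨a, b, hab, hnorm⟩ := h6 L b20 (W⁄L).toAffine bnf p R hodd hp3 hpR hiR
  obtain ⟨cd, cm, ce⟩ := cnz_cub (W⁄L)
  -- the field `M`
  obtain ⟨M, fM, aM, D, x, y, hx, hDx, hy⟩ := h4 L b20 (cub (W⁄L)) cm.ne_zero
  let aKM : Algebra K M := ((algebraMap L M).comp (algebraMap K L)).toAlgebra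
  have tKLM : IsScalarTower K L M := IsScalarTower.of_algebraMap_eq fun _ => rfl
  have hcM : CharP M p := charP_of_injective_algebraMap (algebraMap K M).injective p
  obtain ⟨m20, mnf, ma2, ma4, ma6, -⟩ := h2.1 K h20 W hW M
  have hKLM : ∀ c : K, algebraMap K M c = algebraMap L M (algebraMap K L c) := fun _ => rfl
  obtain ⟨p1, p2, p3, -⟩ := h1 M m20 (W⁄M).toAffine mnf
  obtain ⟨T, hT⟩ := p3 x y (by
    rw [hy, ce M x, ma2, ma4, ma6, hKLM, hKLM, hKLM, ← ba2, ← ba4, ← ba6])
  obtain ⟨hT0, hTx, hTy, -⟩ := p2 T x y hT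
  -- the points
  obtain ⟨-, binj, bco, -⟩ := bmap L M (Algebra.ofId L M)
  have hTR : T ∉ AddSubgroup.zmultiples (pmap W (Algebra.ofId L M) R) := by
    rintro ⟨n, hn⟩
    have e1 : pmap W (Algebra.ofId L M) (n • R) = T := by
      rw [map_zsmul]
      exact hn
    have e2 := (bco (n • R)).1
    rw [e1, hTx] at e2
    have e3 := hx (X - C (px (n • R))) (by
      rw [map_sub, aeval_X, aeval_C, e2]
      exact sub_self _)
    exact X_sub_C_ne_zero _ e3
  have hiR' : ∀ i, 0 < i → i < p → i • pmap W (Algebra.ofId L M) R ≠ 0 := by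
    intro i hi hip h
    apply hiR i hi hip
    apply binj
    rw [map_nsmul, h, map_zero]
  have hpR' : p • pmap W (Algebra.ofId L M) R = 0 := by
    rw [← map_nsmul, hpR, map_zero]
  -- the derivative
  obtain ⟨key1, key2⟩ := h10 p hp2 M (W⁄M).toAffine mnf (pmap W (Algebra.ofId L M) R) T hiR' hTR
  have hD2 : (D.restrictScalars ℤ) (W⁄M).toAffine.a₂ = 0 := by
    rw [ma2, hKLM]
    exact D.map_algebraMap _
  have hD4 : (D.restrictScalars ℤ) (W⁄M).toAffine.a₄ = 0 := by
    rw [ma4, hKLM]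
    exact D.map_algebraMap _
  have hD6 : (D.restrictScalars ℤ) (W⁄M).toAffine.a₆ = 0 := by
    rw [ma6, hKLM]
    exact D.map_algebraMap _
  obtain ⟨w, hw⟩ := (h3 M m20 (W⁄M).toAffine mnf (D.restrictScalars ℤ) hD2 hD4 hD6).1 T
  have hcR : cR p (pmap W (Algebra.ofId L M) R) = 0 := by
    have e1 : cR p (pmap W (Algebra.ofId L M) R) = (Algebra.ofId L M) (cR p R) := by
      rw [cR, cR, map_sum]
      refine Finset.sum_congr rfl fun j _ => ?_
      rw [← map_nsmul]
      exact (h9.1 K h20 W hW L L M (Algebra.ofId L M)).1 (j • R) R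
    rw [e1, hc, map_zero]
  have hDw : D (wn p (pmap W (Algebra.ofId L M) R) T) = 0 := by
    have e1 := key1 (D.restrictScalars ℤ) hD2 hD4 hD6 w hw
    rw [key2 hpR', hcR, neg_zero, zero_mul, zero_mul, neg_zero] at e1
    exact e1
  -- the value
  obtain ⟨ev, ev1, ev2⟩ := h7 K h20 W hW L M T hT0
  have hval : wn p (pmap W (Algebra.ofId L M) R) T = aeval x a + aeval x b * y := by
    have e1 := congrArg ev hab
    rw [map_prod, map_mul, map_prod, ev1, hTx, hTy] at e1
    have e2 : ∀ i : ℕ, ev (nR R (i • R)) = nv (pmap W (Algebra.ofId L M) R)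
        (i • pmap W (Algebra.ofId L M) R) T := by
      intro i
      rw [(ev2 R (i • R)).1, map_nsmul]
    have e3 : ∀ i : ℕ, ev (dR R (i • R)) = dv (pmap W (Algebra.ofId L M) R)
        (i • pmap W (Algebra.ofId L M) R) T := by
      intro i
      rw [(ev2 R (i • R)).2, map_nsmul]
    rw [Finset.prod_congr rfl fun i _ => e2 i, Finset.prod_congr rfl fun i _ => e3 i] at e1
    have e4 : ∏ i ∈ Finset.range p, dv (pmap W (Algebra.ofId L M) R)
        (i • pmap W (Algebra.ofId L M) R) T ≠ 0 := by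
      rw [Finset.prod_ne_zero_iff]
      intro i _
      exact ((h8 M m20 (W⁄M).toAffine mnf).2.1 _ _ _ T (AddSubgroup.mem_zmultiples _)
        (nsmul_mem (AddSubgroup.mem_zmultiples _) i) hTR).2.1
    rw [wn]
    have e5 : ∀ i : ℕ, fv (pmap W (Algebra.ofId L M) R) (i • pmap W (Algebra.ofId L M) R) T =
        nv (pmap W (Algebra.ofId L M) R) (i • pmap W (Algebra.ofId L M) R) T /
          dv (pmap W (Algebra.ofId L M) R) (i • pmap W (Algebra.ofId L M) R) T := fun _ => rfl
    rw [Finset.prod_congr rfl fun i _ => e5 i, Finset.prod_div_distrib, e1,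
      mul_div_cancel_left₀ _ e4]
  rw [hval] at hDw
  -- the polynomials
  have hda := cnz_da b20 (cub (W⁄L)) a _ cd
    (cnz_der D x y hx hDx (cub (W⁄L)) a b hy hDw)
  obtain ⟨α, rfl⟩ := cnz_const p hodd (cub (W⁄L)) a b (px R) cd hda hnorm
  have hcΩ : CharP (AlgebraicClosure L) p :=
    charP_of_injective_algebraMap (algebraMap L (AlgebraicClosure L)).injective p
  obtain ⟨z, hz1, hz2⟩ := cnz_root p ((cub (W⁄L)).map (algebraMap L (AlgebraicClosure L)))
    (b.map (algebraMap L (AlgebraicClosure L))) (algebraMap L (AlgebraicClosure L) (px R))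
    (algebraMap L (AlgebraicClosure L) α) (by rw [natDegree_map, cd]) (by
      have e1 : b ^ 2 * cub (W⁄L) = (X - C (px R)) ^ p + C (α ^ 2) := by
        rw [C_pow]
        linear_combination -hnorm
      have e2 := congrArg (Polynomial.map (algebraMap L (AlgebraicClosure L))) e1
      rw [Polynomial.map_mul, Polynomial.map_pow, Polynomial.map_add, Polynomial.map_pow,
        Polynomial.map_sub, map_X, map_C, map_C, map_pow] at e2
      exact e2)
  obtain ⟨o20, onf, oa2, oa4, oa6, -⟩ := h2.1 L b20 (W⁄L) bnf (AlgebraicClosure L)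
  have hlast := (h1 (AlgebraicClosure L) o20 _ onf).2.2.2.2.2.2.2.2.2 z
  rw [oa2, oa4, oa6] at hlast
  rw [eval_map_algebraMap, ce] at hz1
  apply hlast hz1
  rw [derivative_map, eval_map_algebraMap, cnz_dcub] at hz2
  exact hz2

end Pool.Agent.MP72V
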