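import Pool.Agent.Lib.MP_72e2e6_nt.WP.Fd.Spec

/-!
# MP_72e2e6_nt, T3p, Fd/Der: elements killed by all derivations are `p`-th powers
-/

set_option autoImplicit false

namespace Pool.Agent.MP72V

open Polynomial

open scoped Classical

section

variable {p : ℕ} [Fact p.Prime] {L : Type} [Field L] [CharP L p]

/-- A maximal subfield which does not contain `u`. -/
private theorem der_max (u : L) (hu : ∀ v : L, v ^ p ≠ u) :
    ∃ M : Subfield L, (∀ x : L, x ^ p ∈ M) ∧ u ∉ M ∧
      ∀ N : Subfield L, M ≤ N → u ∉ N → N ≤ M := by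
  have hp : p.Prime := Fact.out
  let S : Set (Subfield L) := {M | (∀ x : L, x ^ p ∈ M) ∧ u ∉ M}
  have h0 : (frobenius L p).fieldRange ∈ S := by
    refine ⟨fun x => ?_, fun h => ?_⟩
    · rw [RingHom.mem_fieldRange]
      exact ⟨x, by rw [frobenius_def]⟩
    · rw [RingHom.mem_fieldRange] at h
      obtain ⟨x, hx⟩ := h
      rw [frobenius_def] at hx
      exact hu x hx
  obtain ⟨M, -, hM⟩ := zorn_le_nonempty₀ S (by
    intro c hc hchain y hy
    refine ⟨sSup c, ⟨fun x => ?_, fun h => ?_⟩, fun z hz => le_sSup hz⟩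
    · exact (le_sSup hy) ((hc hy).1 x)
    · rw [Subfield.mem_sSup_of_directedOn ⟨y, hy⟩ hchain.directedOn] at h
      obtain ⟨s, hs, hus⟩ := h
      exact (hc hs).2 hus) _ h0
  refine ⟨M, hM.prop.1, hM.prop.2, fun N hMN hN => ?_⟩
  exact hM.le_of_ge ⟨fun x => hMN (hM.prop.1 x), hN⟩ hMN

private theorem der_pow_inj {x y : L} (h : x ^ p = y ^ p) : x = y :=
  frobenius_inj L p (by rw [frobenius_def, frobenius_def]; exact h)

/-- The minimal polynomial of an element outside of `M`. -/
private theorem der_min (M : Subfield L) (hM : ∀ x : L, x ^ p ∈ M) (z : L) (hz : z ∉ M) :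
    X ^ p - C (⟨z ^ p, hM z⟩ : M) = minpoly M z ∧ IsIntegral M z ∧
      Module.finrank M (IntermediateField.adjoin M {z}) = p := by
  have hp : p.Prime := Fact.out
  have hmon : (X ^ p - C (⟨z ^ p, hM z⟩ : M)).Monic := monic_X_pow_sub_C _ hp.ne_zero
  have hroot : aeval z (X ^ p - C (⟨z ^ p, hM z⟩ : M)) = 0 := by
    rw [map_sub, map_pow, aeval_X, aeval_C]
    exact sub_self _
  have hirr : Irreducible (X ^ p - C (⟨z ^ p, hM z⟩ : M)) := by
    refine X_pow_sub_C_irreducible_of_prime hp fun b hb => hz ?_
    have h1 : (b : L) ^ p = z ^ p := congrArg Subtype.val hb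
    rw [← der_pow_inj h1]
    exact b.2
  have hint : IsIntegral M z := ⟨_, hmon, hroot⟩
  have hmin := minpoly.eq_of_irreducible_of_monic hirr hroot hmon
  refine ⟨hmin, hint, ?_⟩
  rw [IntermediateField.adjoin.finrank hint, ← hmin, natDegree_X_pow_sub_C]

end

theorem tDer : S_Der := by
  intro p _ L _ _ u hD
  by_contra hcon
  push Not at hcon
  have hp : p.Prime := Fact.out
  obtain ⟨M, hM, huM, hmax⟩ := der_max (p := p) u hcon
  obtain ⟨hminu, hintu, hfu⟩ := der_min M hM u huM
  have hall : ∀ z : L, z ∈ IntermediateField.adjoin M {u} := by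
    intro z
    by_cases hz : z ∈ M
    · exact (IntermediateField.adjoin M {u}).algebraMap_mem ⟨z, hz⟩
    · obtain ⟨-, hintz, hfz⟩ := der_min M hM z hz
      have hle : M ≤ (IntermediateField.adjoin M {z}).toSubfield := fun x hx =>
        (IntermediateField.adjoin M {z}).algebraMap_mem ⟨x, hx⟩
      have hzm : z ∈ IntermediateField.adjoin M {z} := IntermediateField.mem_adjoin_simple_self M z
      have hu : u ∈ IntermediateField.adjoin M {z} := by
        by_contra h
        exact hz (hmax _ hle h hzm)
      have hle2 : IntermediateField.adjoin M {u} ≤ IntermediateField.adjoin M {z} :=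
        IntermediateField.adjoin_simple_le_iff.2 hu
      have hfd : FiniteDimensional M (IntermediateField.adjoin M {z}) :=
        IntermediateField.adjoin.finiteDimensional hintz
      have heq : IntermediateField.adjoin M {u} = IntermediateField.adjoin M {z} :=
        IntermediateField.eq_of_le_of_finrank_eq hle2 (by rw [hfu, hfz])
      rw [heq]
      exact hzm
  have hsur : Function.Surjective ((aeval u : M[X] →ₐ[M] L).restrictScalars ℤ) := by
    intro z
    have h1 := hall z
    rw [← IntermediateField.mem_toSubalgebra,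
      IntermediateField.adjoin_simple_toSubalgebra_of_isAlgebraic hintu.isAlgebraic,
      Algebra.adjoin_singleton_eq_range_aeval] at h1
    obtain ⟨q, hq⟩ := h1
    exact ⟨q, hq⟩
  have hker : ∀ q : M[X], (aeval u : M[X] →ₐ[M] L).restrictScalars ℤ q = 0 →
      (aeval u : M[X] →ₐ[M] L).restrictScalars ℤ
        ((derivative' : Derivation M M[X] M[X]).restrictScalars ℤ q) = 0 := by
    intro q hq
    have h1 : aeval u q = 0 := hq
    obtain ⟨r, hr⟩ := minpoly.dvd M u h1
    have h2 : aeval u (X ^ p - C (⟨u ^ p, hM u⟩ : M)) = 0 := by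
      rw [hminu]
      exact minpoly.aeval M u
    show aeval u (derivative q) = 0
    have hpc : ((p : ℕ) : M[X]) = 0 := by
      have : CharP M p := inferInstance
      have h3 : ((p : ℕ) : M) = 0 := CharP.cast_eq_zero M p
      rw [← C_eq_natCast, h3, C_0]
    rw [hr, ← hminu, derivative_mul, derivative_sub, derivative_X_pow, derivative_C, sub_zero,
      C_eq_natCast, hpc, zero_mul, zero_mul, zero_add, map_mul, h2, zero_mul]
  have h1 := hD (Derivation.liftOfSurjective
    (d := (derivative' : Derivation M M[X] M[X]).restrictScalars ℤ) hsur hker)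
  have h2 := Derivation.liftOfSurjective_apply
    (d := (derivative' : Derivation M M[X] M[X]).restrictScalars ℤ) hsur hker X
  have h3 : (aeval u : M[X] →ₐ[M] L).restrictScalars ℤ X = u := aeval_X u
  have h4 : (aeval u : M[X] →ₐ[M] L).restrictScalars ℤ
      ((derivative' : Derivation M M[X] M[X]).restrictScalars ℤ X) = 1 := by
    show aeval u (derivative (X : M[X])) = 1
    rw [derivative_X, map_one]
  rw [h3, h1, h4] at h2
  exact zero_ne_one h2

end Pool.Agent.MP72V
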