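import Pool.Agent.Lib.MP_72e2e6_nt.WP.Fd.Spec

/-!
# MP_72e2e6_nt, block Fd: the logarithmic derivative of the functions
-/

namespace Pool.Agent.MP72V

open Polynomial WeierstrassCurve
open Pool.Agent.MP72W (pmap)
open Pool.Agent.MP72P (EqN)

open scoped Classical

private theorem dls1 (h1 : S_Pts) (h2 : S_Sl) (h3 : S_Om) {L : Type} [Field L]
    (h20 : (2 : L) ≠ 0) {W : WeierstrassCurve.Affine L} (hW : IsNf W) (D : Derivation ℤ L L)
    (d2 : D W.a₂ = 0) (d4 : D W.a₄ = 0) (d6 : D W.a₆ = 0) (P Q : W.Point) (w w' : L)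
    (hP : P ≠ 0) (hQ : Q ≠ 0) (hPQ : P + Q ≠ 0) (hw : IsOm D P w) (hw' : IsOm D Q w') :
    D (sl P Q) = w * (px P - px (P + Q)) + w' * (px Q - px (P + Q)) := by
  have Hp := h1 L h20 W hW
  obtain ⟨s1, s2, s3, s4⟩ := h2 L h20 W hW
  obtain ⟨-, om2, -, -⟩ := h3 L h20 W hW D d2 d4 d6
  obtain ⟨x, y, hx⟩ := (Hp.1 P).resolve_left hP
  obtain ⟨x', y', hx'⟩ := (Hp.1 Q).resolve_left hQ
  obtain ⟨-, pxP, pyP, eP⟩ := Hp.2.1 P x y hx
  obtain ⟨-, pxQ, pyQ, eQ⟩ := Hp.2.1 Q x' y' hx'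
  obtain ⟨t1, t2, t3, t4, -, -⟩ := s4 P Q hP hQ hPQ
  rw [pxP, pxQ, pyP, pyQ] at t4
  rw [pxP, pxQ] at t1
  rw [t1, pxP, pxQ]
  obtain ⟨a1, a2⟩ := hw.aff x y hx
  obtain ⟨b1, b2⟩ := hw'.aff x' y' hx'
  set l := sl P Q with hl
  by_cases hxx : x = x'
  · -- the tangent
    have hQP : Q = P := by
      rcases s3 P Q hP hQ (by rw [pxP, pxQ, hxx]) with h | h
      · exact h
      · exact absurd (by rw [h]; simp) hPQ
    have hww : w' = w := om2 P w' w (hQP ▸ hw') hw
    have hy : y ≠ 0 := by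
      intro hy
      rw [hy] at hx
      exact hPQ (by rw [hQP]; exact Hp.2.2.2.2.2.2.2.2.1 P x hx)
    have hs := s2 P x y hx hy
    have hl' : l * (2 * y) = 3 * x ^ 2 + 2 * W.a₂ * x + W.a₄ := by
      rw [hl, hQP, hs]
      field_simp
    have hD := congrArg D hl'
    have D2 : D (2 : L) = 0 := by
      have := D.map_natCast 2
      simpa using this
    have D3 : D (3 : L) = 0 := by
      have := D.map_natCast 3
      simpa using this
    simp only [Derivation.leibniz, Derivation.leibniz_pow, map_add, smul_eq_mul, D2, D3, d2, d4,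
      a1, a2, mul_zero, add_zero, nsmul_eq_mul] at hD
    have h2y : (2 * y) ≠ 0 := mul_ne_zero h20 hy
    apply mul_right_cancel₀ h2y
    subst hxx
    rw [hww]
    push_cast at hD
    linear_combination hD + 2 * w * l * hl'
  · have hne : x - x' ≠ 0 := sub_ne_zero.mpr hxx
    have hl' : l * (x - x') = y - y' := by linear_combination t4
    have E : x ^ 2 + x * x' + x' ^ 2 + W.a₂ * (x + x') + W.a₄ = l * (2 * y - l * (x - x')) := by
      apply mul_right_cancel₀ hne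
      linear_combination eQ - eP - (2 * y - l * (x - x')) * hl' +
        (y - y') * (t4 - 0 * hl')
    have hD := congrArg D hl'
    simp only [Derivation.leibniz, map_sub, smul_eq_mul, a1, a2, b1, b2] at hD
    apply mul_right_cancel₀ hne
    linear_combination hD + w * E - w' * (E - 2 * l * hl')

private theorem clm (h2 : S_Sl) (h4 : S_Slc) {L : Type} [Field L]
    (h20 : (2 : L) ≠ 0) {W : WeierstrassCurve.Affine L} (hW : IsNf W) (A B S : W.Point)
    (hA : A ≠ 0) (hB : B ≠ 0) (hS : S ≠ 0) (hAB : A + B ≠ 0) (hAS : A + S ≠ 0)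
    (hABS : A + B + S ≠ 0) :
    sl A B + sl (A + B) S = sl A S + sl (A + S) B ∧
    (sl A B + sl (A + B) S) * (sl A B - sl (A + S) B) = px A - px (A + B + S) := by
  obtain ⟨-, -, -, s4⟩ := h2 L h20 W hW
  have hBA : B + A ≠ 0 := by rwa [add_comm]
  have hBAS : B + A + S ≠ 0 := by rwa [add_comm B A]
  have hBAS' : B + (A + S) ≠ 0 := by rwa [← add_assoc]
  have hASB : A + S + B ≠ 0 := by rwa [add_comm]
  have e := h4 L h20 W hW B A S hB hA hS hBA hAS hBAS
  have c1 := (s4 B A hB hA hBA).2.2.1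
  have c2 := (s4 B (A + S) hB hAS hBAS').2.2.1
  rw [c1, c2, add_comm B A] at e
  refine ⟨e, ?_⟩
  have u1 := (s4 A B hA hB hAB).1
  have u2 := (s4 (A + B) S hAB hS hABS).1
  have u3 := (s4 A S hA hS hAS).1
  have u4 := (s4 (A + S) B hAS hB hASB).1
  have es : A + S + B = A + B + S := by abel
  rw [es] at u4
  apply mul_right_cancel₀ h20
  have e' : sl A S = sl A B + sl (A + B) S - sl (A + S) B := by linear_combination -e
  rw [e'] at u3
  linear_combination u2 - u1 - u3 + u4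

theorem tDls (h1 : S_Pts) (h2 : S_Sl) (h3 : S_Om) (h4 : S_Slc) (h5 : S_Exc) : S_Dls := by
  intro L _ h20 W hW D d2 d4 d6
  refine ⟨fun P Q w w' hP hQ hPQ hw hw' => dls1 h1 h2 h3 h20 hW D d2 d4 d6 P Q w w' hP hQ hPQ hw hw',
    ?_⟩
  intro A B S a b s hA hB hS hAB hAS hBS hABS hx ha hb hs
  have Om3 := (h3 L h20 W hW D d2 d4 d6).2.2.1 A B a b ha hb
  have hg := (h5 L h20 W hW).1 A B S hA hB hS hAB hx
  have k1 := dls1 h1 h2 h3 h20 hW D d2 d4 d6 A B a b hA hB hAB ha hb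
  have k2 := dls1 h1 h2 h3 h20 hW D d2 d4 d6 (A + B) S (a + b) s hAB hS hABS Om3 hs
  have hBA : B + A ≠ 0 := by rwa [add_comm]
  have hSA : S + A ≠ 0 := by rwa [add_comm]
  have hSB : S + B ≠ 0 := by rwa [add_comm]
  have hBAS : B + A + S ≠ 0 := by rwa [add_comm B A]
  have hSAB : S + A + B ≠ 0 := by
    have : S + A + B = A + B + S := by abel
    rwa [this]
  obtain ⟨-, p1⟩ := clm h2 h4 h20 hW A B S hA hB hS hAB hAS hABS
  obtain ⟨-, p2⟩ := clm h2 h4 h20 hW B A S hB hA hS hBA hBS hBAS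
  obtain ⟨-, p3⟩ := clm h2 h4 h20 hW S A B hS hA hB hSA hSB hSAB
  obtain ⟨q3, -⟩ := clm h2 h4 h20 hW A B S hA hB hS hAB hAS hABS
  have s4 := (h2 L h20 W hW).2.2.2
  have c1 := (s4 A B hA hB hAB).2.2.1
  have c3 := (s4 A S hA hS hAS).2.2.1
  have e1 : B + A + S = A + B + S := by abel
  have e2 : S + A + B = A + B + S := by abel
  have e3 : B + A = A + B := add_comm _ _
  have e4 : S + A = A + S := add_comm _ _
  rw [e1, e3] at p2
  rw [e2, e4] at p3
  have p2' : (sl A B + sl (A + B) S) * (sl B A - sl (B + S) A) = px B - px (A + B + S) := by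
    rw [← p2, ← c1]
  have p3' : (sl A B + sl (A + B) S) * (sl S A - sl (S + B) A) = px S - px (A + B + S) := by
    rw [← p3, q3, ← c3]
  rw [hg, map_neg, map_add, k1, k2]
  linear_combination a * p1 + b * p2' + s * p3'

end Pool.Agent.MP72V
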