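import Pool.Agent.Lib.MP_72e2e6_nt.WP.Fd.Spec

/-!
# MP_72e2e6_nt, theorem T3 for odd characteristic, block Fd/Ev: evaluation at a point over an extension
-/

namespace Pool.Agent.MP72V

open Polynomial WeierstrassCurve
open Pool.Agent.MP72W (pmap)
open Pool.Agent.MP72P (EqN)

open scoped Classical

section

variable {L M : Type} [Field L] [Field M] [Algebra L M]

private theorem Ev_eq {V : WeierstrassCurve.Affine L} {U : WeierstrassCurve.Affine M}
    (h1 : U.a₁ = algebraMap L M V.a₁) (h2 : U.a₂ = algebraMap L M V.a₂)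
    (h3 : U.a₃ = algebraMap L M V.a₃) (h4 : U.a₄ = algebraMap L M V.a₄)
    (h6 : U.a₆ = algebraMap L M V.a₆) {x y : M} (h : U.Equation x y) :
    V.polynomial.eval₂ (Polynomial.eval₂RingHom (algebraMap L M) x) y = 0 := by
  rw [Affine.equation_iff, h1, h2, h3, h4, h6] at h
  rw [Affine.polynomial]
  simp only [eval₂_sub, eval₂_add, eval₂_mul, eval₂_pow, eval₂_X, eval₂_C, coe_eval₂RingHom,
    map_add, map_mul, map_pow]
  linear_combination h

private noncomputable def evR {V : WeierstrassCurve.Affine L} {x y : M}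
    (h : V.polynomial.eval₂ (Polynomial.eval₂RingHom (algebraMap L M) x) y = 0) :
    V.CoordinateRing →+* M :=
  AdjoinRoot.lift (Polynomial.eval₂RingHom (algebraMap L M) x) y h

private theorem evR_mk {V : WeierstrassCurve.Affine L} {x y : M}
    (h : V.polynomial.eval₂ (Polynomial.eval₂RingHom (algebraMap L M) x) y = 0) (g : L[X][X]) :
    evR h (Affine.CoordinateRing.mk V g) =
      g.eval₂ (Polynomial.eval₂RingHom (algebraMap L M) x) y := by
  change AdjoinRoot.lift _ _ _ (AdjoinRoot.mk _ _) = _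
  rw [AdjoinRoot.lift_mk]

private theorem evR_el {V : WeierstrassCurve.Affine L} {x y : M}
    (h : V.polynomial.eval₂ (Polynomial.eval₂RingHom (algebraMap L M) x) y = 0) (a b : L[X]) :
    evR h (el V a b) = aeval x a + aeval x b * y := by
  rw [el, Affine.CoordinateRing.smul, Affine.CoordinateRing.smul, mul_one, map_add, map_mul,
    evR_mk, evR_mk, evR_mk, eval₂_C, eval₂_C, eval₂_X, aeval_def, aeval_def, coe_eval₂RingHom]

private theorem evR_X {V : WeierstrassCurve.Affine L} {x y : M}
    (h : V.polynomial.eval₂ (Polynomial.eval₂RingHom (algebraMap L M) x) y = 0) (a : L) :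
    evR h (Affine.CoordinateRing.XClass V a) = x - algebraMap L M a := by
  rw [Affine.CoordinateRing.XClass, evR_mk, eval₂_C, coe_eval₂RingHom, eval₂_sub, eval₂_X, eval₂_C]

private theorem evR_Y {V : WeierstrassCurve.Affine L} {x y : M}
    (h : V.polynomial.eval₂ (Polynomial.eval₂RingHom (algebraMap L M) x) y = 0) (a b l : L) :
    evR h (Affine.CoordinateRing.YClass V (Affine.linePolynomial a b l)) =
      y - algebraMap L M b - algebraMap L M l * (x - algebraMap L M a) := by
  rw [Affine.CoordinateRing.YClass, evR_mk, eval₂_sub, eval₂_X, eval₂_C, coe_eval₂RingHom,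
    Affine.linePolynomial, eval₂_add, eval₂_mul, eval₂_sub, eval₂_X, eval₂_C, eval₂_C, eval₂_C]
  ring

end

theorem tEv (_ : S_Pts) (h2 : S_Bas) : S_Ev := by
  intro K _ h20 W hW L M _ _ _ _ _ _ T hT
  obtain ⟨-, -, -, -, -, hB⟩ := h2.1 K h20 W hW L
  obtain ⟨-, hinj, hc, -⟩ := hB L M (Algebra.ofId L M)
  rcases T with _ | ⟨x, y, h⟩
  · exact absurd rfl hT
  have ha : ∀ a : K, algebraMap K M a = algebraMap L M (algebraMap K L a) := fun a =>
    IsScalarTower.algebraMap_apply K L M a
  have h3 : (W⁄L).toAffine.polynomial.eval₂ (Polynomial.eval₂RingHom (algebraMap L M) x) y = 0 :=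
    Ev_eq (V := (W⁄L).toAffine) (U := (W⁄M).toAffine) (ha _) (ha _) (ha _) (ha _) (ha _) h.left
  have hz : ∀ P : (W⁄L).toAffine.Point, pmap W (Algebra.ofId L M) P = 0 ↔ P = 0 := fun P =>
    map_eq_zero_iff _ hinj
  have hz2 : ∀ P Q : (W⁄L).toAffine.Point,
      pmap W (Algebra.ofId L M) P + pmap W (Algebra.ofId L M) Q = 0 ↔ P + Q = 0 := fun P Q => by
    rw [← map_add, hz]
  have hs : ∀ P Q : (W⁄L).toAffine.Point,
      sl (pmap W (Algebra.ofId L M) P) (pmap W (Algebra.ofId L M) Q) = algebraMap L M (sl P Q) := by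
    intro P Q
    unfold sl
    rw [(hc P).1, (hc P).2, (hc Q).1, (hc Q).2]
    exact Affine.baseChange_slope (Algebra.ofId L M) _ _ _ _
  have hx : ∀ P : (W⁄L).toAffine.Point,
      px (pmap W (Algebra.ofId L M) P) = algebraMap L M (px P) := fun P => (hc P).1
  have hy : ∀ P : (W⁄L).toAffine.Point,
      py (pmap W (Algebra.ofId L M) P) = algebraMap L M (py P) := fun P => (hc P).2
  have ha2 : ∀ P Q : (W⁄L).toAffine.Point,
      px (pmap W (Algebra.ofId L M) P + pmap W (Algebra.ofId L M) Q) =
        algebraMap L M (px (P + Q)) := fun P Q => by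
    rw [← map_add, hx]
  refine ⟨evR h3, fun a b => evR_el h3 a b, fun P Q => ⟨?_, ?_⟩⟩
  · unfold nR nv
    simp only [hz, hz2, hs, hx, hy]
    split_ifs
    · exact map_one _
    · exact evR_X h3 _
    · exact evR_Y h3 _ _ _
  · unfold dR dv
    simp only [hz, hz2, ha2]
    split_ifs
    · exact map_one _
    · exact evR_X h3 _

end Pool.Agent.MP72V
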