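import Pool.Agent.Lib.MP_72e2e6_nt.WP.Fd.Spec

/-!
# MP_72e2e6_nt, theorem T3 for odd characteristic, block Fd: the value at `-S` and the exchange formula
-/

namespace Pool.Agent.MP72V

open Polynomial WeierstrassCurve

open scoped Classical

private theorem exc_neg (h1 : S_Pts) {L : Type} [Field L] (h : (2 : L) ≠ 0)
    {W : WeierstrassCurve.Affine L} (hW : IsNf W) (P : W.Point) (hP : P ≠ 0) :
    px (-P) = px P ∧ py (-P) = -py P := by
  obtain ⟨p1, p2, -, -, p5, -⟩ := h1 L h W hW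
  obtain h0 | ⟨x, y, hxy⟩ := p1 P
  · exact absurd h0 hP
  · obtain ⟨-, h3, h4, -⟩ := p2 P x y hxy
    obtain ⟨-, h5, h6, -⟩ := p2 (-P) x (-y) (p5 P x y hxy)
    exact ⟨by rw [h5, h3], by rw [h6, h4]⟩

private theorem exc_xy (h1 : S_Pts) {L : Type} [Field L] (h : (2 : L) ≠ 0)
    {W : WeierstrassCurve.Affine L} (hW : IsNf W) (P : W.Point) (hP : P ≠ 0) :
    XY P (px P) (py P) := by
  obtain ⟨p1, p2, -⟩ := h1 L h W hW
  obtain h0 | ⟨x, y, hxy⟩ := p1 P
  · exact absurd h0 hP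
  · obtain ⟨-, h3, h4, -⟩ := p2 P x y hxy
    rw [h3, h4]
    exact hxy

private theorem exc_one (h1 : S_Pts) (h2 : S_Sl) {L : Type} [Field L] (h : (2 : L) ≠ 0)
    {W : WeierstrassCurve.Affine L} (hW : IsNf W) (P Q S : W.Point) (hP : P ≠ 0) (hQ : Q ≠ 0)
    (hS : S ≠ 0) (hPQ : P + Q ≠ 0) (hx : px S ≠ px (P + Q)) :
    fv P Q (-S) = -(sl P Q + sl (P + Q) S) := by
  obtain ⟨s1, -, -, s4⟩ := h2 L h W hW
  obtain ⟨n1, n2⟩ := exc_neg h1 h hW S hS
  obtain ⟨-, q2, -, -, -, -⟩ := s4 P Q hP hQ hPQ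
  have h3 := s1 (P + Q) S _ _ _ _ (exc_xy h1 h hW _ hPQ) (exc_xy h1 h hW _ hS) (Ne.symm hx)
  unfold fv nv dv
  rw [if_neg (not_or.2 ⟨hP, hQ⟩), if_neg hPQ, if_neg (not_or.2 ⟨hP, not_or.2 ⟨hQ, hPQ⟩⟩), n1, n2,
    h3, q2]
  have h4 : px S - px (P + Q) ≠ 0 := sub_ne_zero.2 hx
  have h5 : px (P + Q) - px S ≠ 0 := sub_ne_zero.2 (Ne.symm hx)
  field_simp
  ring

theorem tExc (h1 : S_Pts) (h2 : S_Sl) (h3 : S_Slc) : S_Exc := by
  intro L _ h W hW
  have hone := exc_one h1 h2 h hW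
  obtain ⟨-, -, -, s4⟩ := h2 L h W hW
  refine ⟨hone, ?_, ?_⟩
  · intro P Q S hP hQ hS hPQ hQS hx hx'
    have hs : P + Q + S ≠ 0 := by
      intro h0
      apply hx
      have h4 : P + Q = -S := eq_neg_of_add_eq_zero_left h0
      rw [h4, (exc_neg h1 h hW S hS).1]
    have hs' : P + (Q + S) ≠ 0 := by rw [← add_assoc]; exact hs
    rw [hone P Q S hP hQ hS hPQ hx, hone Q S P hQ hS hP hQS hx', h3 L h W hW P Q S hP hQ hS hPQ hQS hs,
      (s4 P (Q + S) hP hQS hs').2.2.1]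
  · intro P Q T
    by_cases h0 : P = 0 ∨ Q = 0
    · have h0' : Q = 0 ∨ P = 0 := h0.symm
      have h4 : P = 0 ∨ Q = 0 ∨ P + Q = 0 := by tauto
      have h5 : Q = 0 ∨ P = 0 ∨ Q + P = 0 := by tauto
      refine ⟨?_, ?_, ?_⟩
      · unfold fv nv dv
        rw [if_pos h0, if_pos h0', if_pos h4, if_pos h5]
      · unfold nv
        rw [if_pos h0, if_pos h0']
      · unfold dv
        rw [if_pos h4, if_pos h5]
    · have h0' : ¬ (Q = 0 ∨ P = 0) := fun h4 => h0 h4.symm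
      by_cases h4 : P + Q = 0
      · have h4' : Q + P = 0 := by rw [add_comm]; exact h4
        have hQ : Q = -P := eq_neg_of_add_eq_zero_right h4
        have hpx : px Q = px P := by rw [hQ, (exc_neg h1 h hW P (not_or.1 h0).1).1]
        have h5 : nv P Q T = nv Q P T := by
          unfold nv
          rw [if_neg h0, if_neg h0', if_pos h4, if_pos h4', hpx]
        have h6 : dv P Q T = dv Q P T := by
          unfold dv
          rw [if_pos (Or.inr (Or.inr h4)), if_pos (Or.inr (Or.inr h4'))]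
        exact ⟨by unfold fv; rw [h5, h6], h5, h6⟩
      · have h4' : ¬ Q + P = 0 := by rw [add_comm]; exact h4
        obtain ⟨-, -, q3, q4, -, -⟩ := s4 P Q (not_or.1 h0).1 (not_or.1 h0).2 h4
        have h5 : nv P Q T = nv Q P T := by
          unfold nv
          rw [if_neg h0, if_neg h0', if_neg h4, if_neg h4', ← q3, q4]
          ring
        have h6 : dv P Q T = dv Q P T := by
          unfold dv
          rw [if_neg (not_or.2 ⟨(not_or.1 h0).1, not_or.2 ⟨(not_or.1 h0).2, h4⟩⟩),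
            if_neg (not_or.2 ⟨(not_or.1 h0).2, not_or.2 ⟨(not_or.1 h0).1, h4'⟩⟩), add_comm Q P]
        exact ⟨by unfold fv; rw [h5, h6], h5, h6⟩

end Pool.Agent.MP72V
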