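import Pool.Agent.Lib.MP_72e2e6_nt.WP.Fd.Spec

/-!
# MP_72e2e6_nt, T3p, Fd/Ext: functions which are homomorphisms generically
-/

set_option autoImplicit false

namespace Pool.Agent.MP72V

open scoped Classical

private theorem Ext_pick {G : Type} [AddCommGroup G] [Infinite G] (H : AddSubgroup G)
    (hH : (H : Set G).Finite) (L : Finset G) : ∃ x : G, ∀ a ∈ L, x + a ∉ H := by
  have hfin : (⋃ a ∈ L, (fun x : G => x + a) ⁻¹' (H : Set G)).Finite := by
    refine Set.Finite.biUnion L.finite_toSet fun a _ => ?_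
    exact hH.preimage (fun x _ y _ h => add_right_cancel h)
  obtain ⟨x, hx⟩ := hfin.exists_notMem
  refine ⟨x, fun a ha h => hx ?_⟩
  simp only [Set.mem_iUnion]
  exact ⟨a, ha, h⟩

theorem tExt : S_Ext := by
  intro G _ _ A _ H hH w hw
  have c1 : ∀ p c c' : G, c ∉ H → c' ∉ H → p + c ∉ H → p + c' ∉ H → p + c + c' ∉ H →
      p + c - c' ∉ H → p + c' - c ∉ H → w (p + c) * (w c)⁻¹ = w (p + c') * (w c')⁻¹ := by
    intro p c c' h1 h2 h3 h4 h5 h6 h7
    have e1 := hw (p + c) c' h3 h2 h5 h6
    have e2 := hw (p + c') c h4 h1 (by rwa [add_right_comm]) h7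
    rw [add_right_comm p c' c, e1] at e2
    rw [mul_inv_eq_iff_eq_mul, mul_right_comm, ← e2, mul_inv_cancel_right]
  have neg : ∀ x : G, -x ∉ H → x ∉ H := fun x h h' => h (H.neg_mem h')
  have c2 : ∀ p c c' : G, c ∉ H → c' ∉ H → p + c ∉ H → p + c' ∉ H →
      w (p + c) * (w c)⁻¹ = w (p + c') * (w c')⁻¹ := by
    intro p c c' h1 h2 h3 h4
    obtain ⟨x, hx⟩ := Ext_pick H hH {0, p, p + c, -(p + c), p - c, p + c', -(p + c'), p - c'}
    have x0 : x ∉ H := by simpa using hx 0 (by simp)
    have x1 : p + x ∉ H := by simpa [add_comm] using hx p (by simp)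
    have x2 := hx (p + c) (by simp)
    have x3 := hx (-(p + c)) (by simp)
    have x4 := hx (p - c) (by simp)
    have x5 := hx (p + c') (by simp)
    have x6 := hx (-(p + c')) (by simp)
    have x7 := hx (p - c') (by simp)
    have e1 := c1 p c x h1 x0 h3 x1 (by rwa [add_comm (p + c)]) (neg _ (by
      have : -(p + c - x) = x + -(p + c) := by abel
      rwa [this])) (by
      have : p + x - c = x + (p - c) := by abel
      rwa [this])
    have e2 := c1 p c' x h2 x0 h4 x1 (by rwa [add_comm (p + c')]) (neg _ (by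
      have : -(p + c' - x) = x + -(p + c') := by abel
      rwa [this])) (by
      have : p + x - c' = x + (p - c') := by abel
      rwa [this])
    rw [e1, e2]
  have ex : ∀ p : G, ∃ c : G, c ∉ H ∧ p + c ∉ H := by
    intro p
    obtain ⟨x, hx⟩ := Ext_pick H hH {0, p}
    exact ⟨x, by simpa using hx 0 (by simp), by simpa [add_comm] using hx p (by simp)⟩
  choose f hf1 hf2 using ex
  have key : ∀ p c : G, c ∉ H → p + c ∉ H → w (p + f p) * (w (f p))⁻¹ = w (p + c) * (w c)⁻¹ :=
    fun p c h1 h2 => c2 p (f p) c (hf1 p) h1 (hf2 p) h2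
  refine ⟨fun p => w (p + f p) * (w (f p))⁻¹, fun p q => ?_, fun p hp => ?_⟩
  · obtain ⟨x, hx⟩ := Ext_pick H hH {0, q, p + q}
    have x0 : x ∉ H := by simpa using hx 0 (by simp)
    have x1 : q + x ∉ H := by simpa [add_comm] using hx q (by simp)
    have x2 : p + q + x ∉ H := by simpa [add_comm] using hx (p + q) (by simp)
    change w (p + q + f (p + q)) * (w (f (p + q)))⁻¹ = w (p + f p) * (w (f p))⁻¹ *
      (w (q + f q) * (w (f q))⁻¹)
    rw [key (p + q) x x0 x2, key p (q + x) x1 (by rwa [← add_assoc]), key q x x0 x1, ← add_assoc,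
      ← mul_assoc, inv_mul_cancel_right]
  · obtain ⟨x, hx⟩ := Ext_pick H hH {0, p, -p}
    have x0 : x ∉ H := by simpa using hx 0 (by simp)
    have x1 : p + x ∉ H := by simpa [add_comm] using hx p (by simp)
    have x2 : p - x ∉ H := neg _ (by
      have : -(p - x) = x + -p := by abel
      rw [this]; exact hx (-p) (by simp))
    change w (p + f p) * (w (f p))⁻¹ = w p
    rw [key p x x0 x1, hw p x hp x0 x1 x2, mul_inv_cancel_right]

end Pool.Agent.MP72V
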