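import Pool.Agent.Lib.MP_72e2e6_nt.WP.Fd.Spec

/-!
# MP_72e2e6_nt, theorem T3 for odd characteristic, block Fd/Fco: the values of the functions
-/

namespace Pool.Agent.MP72V

open Polynomial WeierstrassCurve
open Pool.Agent.MP72W (pmap)
open Pool.Agent.MP72P (EqN)

open scoped Classical

section

variable {L : Type} [Field L] {W : WeierstrassCurve.Affine L}

private noncomputable def fcoEv {x y : L} (h : W.Equation x y) : W.CoordinateRing →+* L :=
  AdjoinRoot.lift (Polynomial.evalRingHom x) y (by
    rw [Polynomial.eval₂_evalRingHom]; exact h)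

private theorem fcoEv_X {x y : L} (h : W.Equation x y) (a : L) :
    fcoEv h (Affine.CoordinateRing.XClass W a) = x - a := by
  change AdjoinRoot.lift _ _ _ (AdjoinRoot.mk _ _) = _
  rw [AdjoinRoot.lift_mk]
  simp

private theorem fcoEv_Y {x y : L} (h : W.Equation x y) (a b l : L) :
    fcoEv h (Affine.CoordinateRing.YClass W (Affine.linePolynomial a b l)) =
      y - b - l * (x - a) := by
  change AdjoinRoot.lift _ _ _ (AdjoinRoot.mk _ _) = _
  rw [AdjoinRoot.lift_mk]
  simp [Affine.linePolynomial]
  ring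

private theorem fcoEv_n {x y : L} (h : W.Nonsingular x y) (P Q : W.Point) :
    fcoEv h.left (nR P Q) = nv P Q (.some x y h) := by
  unfold nR nv
  split_ifs
  · exact map_one _
  · exact fcoEv_X _ _
  · exact fcoEv_Y _ _ _ _

private theorem fcoEv_d {x y : L} (h : W.Nonsingular x y) (P Q : W.Point) :
    fcoEv h.left (dR P Q) = dv P Q (.some x y h) := by
  unfold dR dv
  split_ifs
  · exact map_one _
  · exact fcoEv_X _ _

end

theorem tFco (_ : S_Pts) (h2 : S_Rid) : S_Fco := by
  intro L _ h20 W hW
  have key : ∀ P Q S T : W.Point, T ≠ 0 → nv P Q T * nv (P + Q) S T * (dv Q S T * dv P (Q + S) T) =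
      nv Q S T * nv P (Q + S) T * (dv P Q T * dv (P + Q) S T) := by
    intro P Q S T hT
    rcases T with _ | ⟨x, y, h⟩
    · exact absurd rfl hT
    have e := congrArg (fcoEv h.left) (h2 L h20 W hW P Q S)
    simp only [map_mul, fcoEv_n h, fcoEv_d h] at e
    exact e
  refine ⟨key, fun P Q S T hT h1 h2 h3 h4 => ?_⟩
  have e := key P Q S T hT
  unfold fv
  rw [div_mul_div_comm, div_mul_div_comm, div_eq_div_iff (mul_ne_zero h1 h2) (mul_ne_zero h3 h4)]
  exact e

end Pool.Agent.MP72V
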