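import Pool.Agent.Lib.MP_72e2e6_nt.WP.Fd.Spec

/-!
# MP_72e2e6_nt, block Fd: the main identity
-/

namespace Pool.Agent.MP72V

open Polynomial WeierstrassCurve
open Pool.Agent.MP72W (pmap)
open Pool.Agent.MP72P (EqN)

open scoped Classical

private theorem nzG {G : Type} [AddCommGroup G] {H : AddSubgroup G} {x y z : G} (hx : x ∉ H)
    (hy : y ∈ H) (e : z = x + y) : z ≠ 0 := by
  intro h0
  apply hx
  have : x = -y := by
    rw [h0] at e
    exact eq_neg_of_add_eq_zero_left e.symm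
  rw [this]
  exact H.neg_mem hy

private theorem nzG' {G : Type} [AddCommGroup G] {H : AddSubgroup G} {x y z : G} (hx : x ∉ H)
    (hy : y ∈ H) (e : z = -x + y) : z ≠ 0 := by
  have hx' : -x ∉ H := fun h => hx (by simpa using H.neg_mem h)
  exact nzG hx' hy e

private theorem pxn (h2 : S_Sl) {L : Type} [Field L] (h20 : (2 : L) ≠ 0)
    {W : WeierstrassCurve.Affine L} (hW : IsNf W) {P Q : W.Point} (hP : P ≠ 0) (hQ : Q ≠ 0)
    (ha : P - Q ≠ 0) (hb : P + Q ≠ 0) : px P ≠ px Q := by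
  intro h
  rcases (h2 L h20 W hW).2.2.1 P Q hP hQ h with h' | h'
  · exact ha (by rw [h']; simp)
  · exact hb (by rw [h']; simp)

private theorem pxneg (h1 : S_Pts) {L : Type} [Field L] (h20 : (2 : L) ≠ 0)
    {W : WeierstrassCurve.Affine L} (hW : IsNf W) (P : W.Point) : px (-P) = px P := by
  have H := h1 L h20 W hW
  rcases H.1 P with h | ⟨x, y, h⟩
  · rw [h, neg_zero]
  · have h' := H.2.2.2.2.1 P x y h
    rw [(H.2.1 _ _ _ h').2.1, (H.2.1 _ _ _ h).2.1]

private theorem fv_zl {L : Type} [Field L] {W : WeierstrassCurve.Affine L} (B T : W.Point) :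
    fv 0 B T = 1 := by
  unfold fv nv dv
  simp

private theorem fv_zr {L : Type} [Field L] {W : WeierstrassCurve.Affine L} (B T : W.Point) :
    fv B 0 T = 1 := by
  unfold fv nv dv
  simp

private theorem Av_z {L : Type} [Field L] {W : WeierstrassCurve.Affine L} (c d : W.Point) :
    Av c d 0 = 1 := by
  unfold Av
  simp

private theorem Av_nz {L : Type} [Field L] {W : WeierstrassCurve.Affine L} (c d : W.Point)
    {X : W.Point} (hX : X ≠ 0) : Av c d X = fv (-c) (-d) (-X) := by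
  unfold Av
  rw [if_neg hX]

private theorem dvn {L : Type} [Field L] {W : WeierstrassCurve.Affine L} (P Q T : W.Point)
    (h : px T ≠ px (P + Q)) : dv P Q T ≠ 0 := by
  unfold dv
  split_ifs with h'
  · exact one_ne_zero
  · exact sub_ne_zero.mpr h

theorem tGg (h1 : S_Pts) (h2 : S_Sl) (h3 : S_Fco) (h4 : S_Exc) (h5 : S_Nz) : S_Gg := by
  intro L _ h20 W hW H c d A B hg hA hB
  have Fco := (h3 L h20 W hW).2
  obtain ⟨-, Exc, Sym⟩ := h4 L h20 W hW
  have Nz := (h5 L h20 W hW).1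
  have z0 : (0 : W.Point) ∈ H := H.zero_mem
  have hc0 : c ≠ 0 := fun h => hg.hc (h ▸ z0)
  have hd0 : d ≠ 0 := fun h => hg.hd (h ▸ z0)
  have hs0 : c + d ≠ 0 := fun h => hg.hs (h ▸ z0)
  by_cases hA0 : A = 0
  · subst hA0
    simp only [fv_zl, Av_z, zero_add, one_mul]
  by_cases hB0 : B = 0
  · subst hB0
    simp only [fv_zr, Av_z, add_zero, one_mul, mul_one]
  by_cases hAB : A + B = 0
  · have hBA : B = -A := eq_neg_of_add_eq_zero_right hAB
    have hf : ∀ t : W.Point, fv A B t = px t - px A := by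
      intro t
      unfold fv nv dv
      rw [if_neg (by tauto), if_pos hAB, if_pos (by tauto), div_one]
    have nA0 : -A ≠ 0 := neg_ne_zero.mpr hA0
    have e1 := Nz (-c) (-d) A (neg_ne_zero.mpr hc0) (neg_ne_zero.mpr hd0)
      (by rw [← neg_add]; exact neg_ne_zero.mpr hs0) hA0
    have ecd : -c + -d = -(c + d) := by abel
    have hxd : px A - px (c + d) ≠ 0 := sub_ne_zero.mpr (pxn h2 h20 hW hA0 hs0
      (nzG' hg.hs hA (by abel)) (nzG hg.hs hA (by abel)))
    rw [hAB, Av_z, hf, hf, hf, hBA, Av_nz c d hA0, Av_nz c d nA0, neg_neg]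
    have hcd0 : ¬ (-c = 0 ∨ -d = 0) := by
      rw [neg_eq_zero, neg_eq_zero]; tauto
    have hcd1 : ¬ (-c = 0 ∨ -d = 0 ∨ -c + -d = 0) := by
      rw [neg_eq_zero, neg_eq_zero, ecd, neg_eq_zero]; tauto
    have f1 : fv (-c) (-d) (-A) = nv (-c) (-d) (-A) / (px A - px (c + d)) := by
      unfold fv
      congr 1
      unfold dv
      rw [if_neg hcd1, ecd, pxneg h1 h20 hW, pxneg h1 h20 hW]
    have f2 : fv (-c) (-d) A = nv (-c) (-d) A / (px A - px (c + d)) := by
      unfold fv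
      congr 1
      unfold dv
      rw [if_neg hcd1, ecd, pxneg h1 h20 hW]
    rw [f1, f2]
    rw [ecd, pxneg h1 h20 hW, pxneg h1 h20 hW, pxneg h1 h20 hW] at e1
    field_simp
    linear_combination (-(px (c + d) - px A)) * e1
  -- the main case
  have nA0 : -A ≠ 0 := neg_ne_zero.mpr hA0
  have nc0 : -c ≠ 0 := neg_ne_zero.mpr hc0
  have nd0 : -d ≠ 0 := neg_ne_zero.mpr hd0
  have hBc : B + -c ≠ 0 := nzG' hg.hc hB (by abel)
  have hAB' := H.add_mem hA hB
  have hABm := H.sub_mem hA hB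
  have hBAm := H.sub_mem hB hA
  have hnA := H.neg_mem hA
  have hnB := H.neg_mem hB
  have hnAB := H.neg_mem hAB'
  -- (i)
  have i1 := Fco B (-c) (-d) (-A) nA0
    (dvn _ _ _ (pxn h2 h20 hW nA0 hBc (nzG hg.hc hnAB (by abel)) (nzG' hg.hc hBAm (by abel))))
    (dvn _ _ _ (pxn h2 h20 hW nA0 (nzG' hg.hs hB (by abel)) (nzG hg.hs hnAB (by abel))
      (nzG' hg.hs hBAm (by abel))))
    (dvn _ _ _ (pxn h2 h20 hW nA0 (nzG' hg.hs z0 (by abel)) (nzG hg.hs hnA (by abel))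
      (nzG' hg.hs hnA (by abel))))
    (dvn _ _ _ (pxn h2 h20 hW nA0 (nzG' hg.hs hB (by abel)) (nzG hg.hs hnAB (by abel))
      (nzG' hg.hs hBAm (by abel))))
  -- (ii)
  have i2 : fv B (-c) (-A) = fv A B c := by
    rw [(Sym B (-c) (-A)).1, Exc (-c) B A nc0 hB0 hA0 (nzG' hg.hc hB (by abel))
      (by rw [add_comm]; exact hAB)
      (pxn h2 h20 hW hA0 (nzG' hg.hc hB (by abel)) (nzG hg.hc hABm (by abel))
        (nzG' hg.hc hAB' (by abel)))
      (pxn h2 h20 hW nc0 (by rw [add_comm]; exact hAB) (nzG' hg.hc hnAB (by abel))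
        (nzG' hg.hc hAB' (by abel))), neg_neg, (Sym B A c).1]
  have i3 : fv B (-c + -d) (-A) = fv A B (c + d) := by
    rw [(Sym B (-c + -d) (-A)).1, Exc (-c + -d) B A (nzG' hg.hs z0 (by abel)) hB0 hA0
      (nzG' hg.hs hB (by abel))
      (by rw [add_comm]; exact hAB)
      (pxn h2 h20 hW hA0 (nzG' hg.hs hB (by abel)) (nzG hg.hs hABm (by abel))
        (nzG' hg.hs hAB' (by abel)))
      (pxn h2 h20 hW (nzG' hg.hs z0 (by abel)) (by rw [add_comm]; exact hAB)
        (nzG' hg.hs hnAB (by abel)) (nzG' hg.hs hAB' (by abel))), (Sym B A _).1]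
    congr 1
    abel
  -- (iii)
  have i4 : fv (B + -c) (-d) (-A) = fv A (B + -c) d := by
    rw [(Sym (B + -c) (-d) (-A)).1, Exc (-d) (B + -c) A nd0 hBc hA0
      (nzG' hg.hs hB (by abel)) (nzG' hg.hc hAB' (by abel))
      (pxn h2 h20 hW hA0 (nzG' hg.hs hB (by abel)) (nzG hg.hs hABm (by abel))
        (nzG' hg.hs hAB' (by abel)))
      (pxn h2 h20 hW nd0 (nzG' hg.hc hAB' (by abel))
        (nzG hg.hm hnAB (by abel)) (nzG' hg.hs hAB' (by abel))), neg_neg, (Sym _ A d).1]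
  -- (iv)
  have i5 := Fco A B (-c) d hd0
    (dvn _ _ _ (pxn h2 h20 hW hd0 hAB (nzG hg.hd hnAB (by abel)) (nzG hg.hd hAB' (by abel))))
    (dvn _ _ _ (pxn h2 h20 hW hd0 (nzG' hg.hc hAB' (by abel)) (nzG hg.hs hnAB (by abel))
      (nzG' hg.hm hAB' (by abel))))
    (dvn _ _ _ (pxn h2 h20 hW hd0 hBc (nzG hg.hs hnB (by abel)) (nzG' hg.hm hB (by abel))))
    (dvn _ _ _ (pxn h2 h20 hW hd0 (nzG' hg.hc hAB' (by abel)) (nzG hg.hs hnAB (by abel))
      (nzG' hg.hm hAB' (by abel))))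
  -- (v)
  have i6 : ∀ X : W.Point, X ∈ H → X ≠ 0 → fv X (-c) d = Av c d X := by
    intro X hX hX0
    have hnX := H.neg_mem hX
    rw [Av_nz c d hX0, (Sym (-c) (-d) (-X)).1, Exc (-d) (-c) X nd0 nc0 hX0
      (nzG' hg.hs z0 (by abel)) (nzG' hg.hc hX (by abel))
      (pxn h2 h20 hW hX0 (nzG' hg.hs z0 (by abel)) (nzG hg.hs hX (by abel))
        (nzG' hg.hs hX (by abel)))
      (pxn h2 h20 hW nd0 (nzG' hg.hc hX (by abel))
        (nzG hg.hm hnX (by abel)) (nzG' hg.hs hX (by abel))), neg_neg, (Sym (-c) X d).1]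
  rw [i2, i3, i4, ← Av_nz c d hA0] at i1
  rw [i6 (A + B) hAB' hAB, i6 B hB hB0] at i5
  have hX : fv A (B + -c) d ≠ 0 := by
    have k1 : px d ≠ px A := pxn h2 h20 hW hd0 hA0 (nzG hg.hd hnA (by abel))
      (nzG hg.hd hA (by abel))
    have k2 : px d ≠ px (B + -c) := pxn h2 h20 hW hd0 hBc (nzG hg.hs hnB (by abel))
      (nzG' hg.hm hB (by abel))
    have k3 : px d ≠ px (A + (B + -c)) := pxn h2 h20 hW hd0 (nzG' hg.hc hAB' (by abel))
      (nzG hg.hs hnAB (by abel)) (nzG' hg.hm hAB' (by abel))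
    have k4 := Nz A (B + -c) d hA0 hBc (nzG' hg.hc hAB' (by abel)) hd0
    have k5 : nv A (B + -c) d ≠ 0 := by
      intro h
      rw [h, zero_mul] at k4
      have := neg_ne_zero.mpr (mul_ne_zero (mul_ne_zero (sub_ne_zero.mpr k1)
        (sub_ne_zero.mpr k2)) (sub_ne_zero.mpr k3))
      exact this k4.symm
    exact div_ne_zero k5 (dvn _ _ _ k3)
  apply mul_right_cancel₀ hX
  linear_combination (fv A B d * Av c d (A + B)) * i1 + (Av c d A * fv A B (c + d)) * i5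

end Pool.Agent.MP72V
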