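import Pool.Agent.Lib.MP_72e2e6_nt.WP.Fd.Spec

/-!
# MP_72e2e6_nt, theorem T3 for odd characteristic, block Fd: module Idl (the ideals of the points)
-/

set_option autoImplicit false

namespace Pool.Agent.MP72V

open Polynomial WeierstrassCurve

open scoped Classical Polynomial.Bivariate

section

variable {L : Type} [Field L] {W : WeierstrassCurve.Affine L}

private theorem idl_zero : Ip (0 : W.Point) = ⊤ := by rw [Ip, if_pos rfl]

private theorem idl_some {x y : L} (h : W.Nonsingular x y) :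
    Ip (Affine.Point.some x y h : W.Point) = Affine.CoordinateRing.XYIdeal W x (C y) := by
  rw [Ip, if_neg (Affine.Point.some_ne_zero h)]
  rfl

private theorem idl_neg (P : W.Point) (hP : P ≠ 0) :
    Ip P * Ip (-P) = Ideal.span {Affine.CoordinateRing.XClass W (px P)} := by
  rcases P with _ | ⟨x, y, h⟩
  · exact absurd rfl hP
  · rw [Affine.Point.neg_some, idl_some, idl_some, mul_comm]
    exact Affine.CoordinateRing.XYIdeal_neg_mul h

private theorem idl_mul (P Q : W.Point) :
    Ideal.span {dR P Q} * (Ip P * Ip Q) = Ideal.span {nR P Q} * Ip (P + Q) := by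
  by_cases hP : P = 0
  · subst hP
    rw [nR, dR, if_pos (Or.inl rfl), if_pos (Or.inl rfl), zero_add, idl_zero, Ideal.top_mul]
  by_cases hQ : Q = 0
  · subst hQ
    rw [nR, dR, if_pos (Or.inr rfl), if_pos (Or.inr (Or.inl rfl)), add_zero, idl_zero,
      Ideal.mul_top]
  rcases P with _ | ⟨x₁, y₁, h₁⟩
  · exact absurd rfl hP
  rcases Q with _ | ⟨x₂, y₂, h₂⟩
  · exact absurd rfl hQ
  by_cases hxy : x₁ = x₂ ∧ y₁ = W.negY x₂ y₂
  · have h0 : (Affine.Point.some x₁ y₁ h₁ : W.Point) + Affine.Point.some x₂ y₂ h₂ = 0 :=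
      Affine.Point.add_of_Y_eq hxy.1 hxy.2
    have hn : ¬ ((Affine.Point.some x₁ y₁ h₁ : W.Point) = 0 ∨
        (Affine.Point.some x₂ y₂ h₂ : W.Point) = 0) := by rintro (h | h); exacts [hP h, hQ h]
    rw [nR, dR, if_neg hn, if_pos h0,
      if_pos (Or.inr (Or.inr h0)), h0, idl_zero, Ideal.mul_top, Ideal.span_singleton_one,
      Ideal.top_mul]
    obtain ⟨rfl, rfl⟩ := hxy
    rw [idl_some, idl_some, Affine.CoordinateRing.XYIdeal_neg_mul h₂]
    rfl
  · have h1 : (Affine.Point.some x₁ y₁ h₁ : W.Point) + Affine.Point.some x₂ y₂ h₂ =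
      Affine.Point.some _ _ (Affine.nonsingular_add h₁ h₂ hxy) := Affine.Point.add_some hxy
    have h0 : (Affine.Point.some x₁ y₁ h₁ : W.Point) + Affine.Point.some x₂ y₂ h₂ ≠ 0 := by
      rw [h1]; exact Affine.Point.some_ne_zero _
    have hn : ¬ ((Affine.Point.some x₁ y₁ h₁ : W.Point) = 0 ∨
        (Affine.Point.some x₂ y₂ h₂ : W.Point) = 0) := by rintro (h | h); exacts [hP h, hQ h]
    have hn3 : ¬ ((Affine.Point.some x₁ y₁ h₁ : W.Point) = 0 ∨
        (Affine.Point.some x₂ y₂ h₂ : W.Point) = 0 ∨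
        (Affine.Point.some x₁ y₁ h₁ : W.Point) + Affine.Point.some x₂ y₂ h₂ = 0) := by
      rintro (h | h | h); exacts [hP h, hQ h, h0 h]
    rw [nR, dR, if_neg hn, if_neg h0, if_neg hn3, h1, idl_some, idl_some, idl_some]
    exact Affine.CoordinateRing.XYIdeal_mul_XYIdeal h₁.left h₂.left hxy

private theorem idl_unit (ε : W.CoordinateRing) (hε : IsUnit ε) :
    ∃ c : L, ε = (C c : L[X]) • (1 : W.CoordinateRing) := by
  obtain ⟨p, q, rfl⟩ := Affine.CoordinateRing.exists_smul_basis_eq ε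
  have h1 : IsUnit (Algebra.norm L[X] (p • (1 : W.CoordinateRing) +
      q • Affine.CoordinateRing.mk W Y)) := hε.map _
  have h2 := Polynomial.degree_eq_zero_of_isUnit h1
  rw [Affine.CoordinateRing.degree_norm_smul_basis] at h2
  have hq : q = 0 := by
    by_contra hq
    have h3 : 2 • q.degree + 3 ≤ 0 := by rw [← h2]; exact le_max_right _ _
    rw [Polynomial.degree_eq_natDegree hq] at h3
    have h4 : ((2 * q.natDegree + 3 : ℕ) : WithBot ℕ) ≤ ((0 : ℕ) : WithBot ℕ) := by
      refine le_trans (le_of_eq ?_) h3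
      push_cast
      rw [two_nsmul, two_mul]
    have := WithBot.coe_le_coe.1 h4
    simp at this
  subst hq
  have h3 : 2 • p.degree ≤ 0 := by rw [← h2]; exact le_max_left _ _
  have hp : p.degree ≤ 0 := by
    by_cases hp : p = 0
    · simp [hp]
    · rw [Polynomial.degree_eq_natDegree hp] at h3 ⊢
      have h4 : ((2 * p.natDegree : ℕ) : WithBot ℕ) ≤ ((0 : ℕ) : WithBot ℕ) := by
        refine le_trans (le_of_eq ?_) h3
        push_cast
        rw [two_nsmul, two_mul]
      have h5 : 2 * p.natDegree ≤ 0 := WithBot.coe_le_coe.1 h4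
      have h6 : p.natDegree = 0 := by omega
      rw [h6]; simp
  refine ⟨p.coeff 0, ?_⟩
  rw [zero_smul, add_zero, ← Polynomial.eq_C_of_degree_le_zero hp]

end

theorem tIdl (_h1 : S_Pts) (_h2 : S_Sl) : S_Idl := by
  intro L _ _ W _
  refine ⟨idl_mul, idl_neg, ?_, ?_⟩
  · intro P hbot
    by_cases hP : P = 0
    · subst hP
      rw [idl_zero] at hbot
      exact top_ne_bot hbot
    · have h1 := idl_neg P hP
      rw [hbot, Ideal.bot_mul] at h1
      have h2 := Ideal.span_singleton_eq_bot.1 h1.symm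
      exact Affine.CoordinateRing.XClass_ne_zero _ h2
  · intro z hz
    obtain ⟨c, hc⟩ := idl_unit z hz
    refine ⟨c, ?_, ?_⟩
    · rintro rfl
      rw [C_0, zero_smul] at hc
      exact hz.ne_zero hc
    · rw [hc, el, zero_smul, add_zero]

end Pool.Agent.MP72V
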