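import Pool.Agent.Lib.MP_72e2e6_nt.WP.Fd.Spec

/-!
# MP_72e2e6_nt, `WP/Fd`, module `Key`: the logarithmic derivative of `wn p A`
-/

namespace Pool.Agent.MP72V

open Polynomial WeierstrassCurve

open scoped Classical

private theorem key_prod {L : Type} [Field L] (D : Derivation ℤ L L) (F G : ℕ → L) (n : ℕ)
    (h : ∀ i, i < n → D (F i) = F i * G i) :
    D (∏ i ∈ Finset.range n, F i) = (∏ i ∈ Finset.range n, F i) * ∑ i ∈ Finset.range n, G i := by
  induction n with
  | zero => simp
  | succ n ih =>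
    rw [Finset.prod_range_succ, Finset.sum_range_succ, D.leibniz, ih fun i hi => h i (by omega),
      h n (by omega), smul_eq_mul, smul_eq_mul]
    ring

/-- The sum of the coefficients of the differential at `A`. -/
private theorem key_sum {L : Type} [Field L] (a μ l : ℕ → L) (N : ℕ)
    (hl : ∀ n, n < N → l (n + 1) = (∑ j ∈ Finset.range (n + 1), a (j + 1)) +
      ∑ j ∈ Finset.range n, μ (j + 1)) (n : ℕ) (hn : n ≤ N) :
    ∑ i ∈ Finset.range n, (((i : L) + 2) * μ (i + 1) + l (i + 1) + ((i : L) + 1) * a (i + 1)) =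
      ((n : L) + 1) * ((∑ j ∈ Finset.range n, a (j + 1)) + ∑ j ∈ Finset.range n, μ (j + 1)) := by
  induction n with
  | zero => simp
  | succ n ih =>
    rw [Finset.sum_range_succ, ih (by omega), hl n (by omega), Finset.sum_range_succ,
      Finset.sum_range_succ]
    push_cast
    ring

private theorem key_om_neg {L : Type} [Field L] {W : WeierstrassCurve.Affine L}
    (p5 : ∀ (P : W.Point) (x y : L), XY P x y → XY (-P) x (-y))
    (D : Derivation ℤ L L) (T : W.Point) (w : L) (h : IsOm D T w) : IsOm D (-T) (-w) := by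
  refine ⟨fun h0 => ?_, fun x y hxy => ?_⟩
  · rw [h.zero (neg_eq_zero.1 h0), neg_zero]
  · have h1 := p5 _ _ _ hxy
    rw [neg_neg] at h1
    obtain ⟨h2, h3⟩ := h.aff _ _ h1
    refine ⟨by rw [h2]; ring, ?_⟩
    rw [map_neg] at h3
    linear_combination -h3

private theorem key_fin {L : Type} [Field L] (P ωA w Sa Sm xT xA yT yA : L) (hd : xT - xA ≠ 0)
    (hlp : (yA - -yT) / (xA - xT) = Sa + (-yA - -yT) / (xA - xT) + Sm) :
    P * (ωA * ((-2 + 1) * (Sa + Sm)) + w * (-2 * ((yT - -yA) / (xT - xA)) - Sa) +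
      (2 * yT * w - 2 * yA * ωA) / (xT - xA)) =
    -((Sa + (-yA - -yT) / (xA - xT) + (yT - -yA) / (xT - xA)) * w * P) := by
  have e : xA - xT = -(xT - xA) := by ring
  have hS : Sm = (yA - -yT) / (xA - xT) - Sa - (-yA - -yT) / (xA - xT) := by
    linear_combination -hlp
  rw [hS, e, div_neg, div_neg]
  field_simp
  ring

theorem tKey (h1 : S_Pts) (h2 : S_Sl) (h3 : S_Om) (h4 : S_Slc) (h5 : S_Dls) (_h6 : S_Nz) :
    S_Key := by
  intro p hp hp2 L _ _ W hW A T hA hT
  have h20 : (2 : L) ≠ 0 := by
    intro h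
    have h' : ((2 : ℕ) : L) = 0 := by exact_mod_cast h
    rw [CharP.cast_eq_zero_iff L p] at h'
    rcases (Nat.dvd_prime Nat.prime_two).1 h' with h'' | h''
    · exact hp.out.one_lt.ne' h''
    · exact hp2 h''
  have hp3 : 3 ≤ p := by
    have := hp.out.two_le
    omega
  obtain ⟨p1, p2, p3, p4, p5, -⟩ := h1 L h20 W hW
  obtain ⟨s1, -, s3, s4⟩ := h2 L h20 W hW
  have hslc := h4 L h20 W hW
  have sneg : ∀ P Q : W.Point, P ≠ 0 → Q ≠ 0 → P + Q ≠ 0 → sl (-P) (-Q) = -sl P Q :=
    fun P Q hP hQ hPQ => (s4 P Q hP hQ hPQ).2.2.2.2.1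
  have scomm : ∀ P Q : W.Point, P ≠ 0 → Q ≠ 0 → P + Q ≠ 0 → sl P Q = sl Q P :=
    fun P Q hP hQ hPQ => (s4 P Q hP hQ hPQ).2.2.1
  have srot : ∀ P Q : W.Point, P ≠ 0 → Q ≠ 0 → P + Q ≠ 0 → sl P Q = sl Q (-(P + Q)) :=
    fun P Q hP hQ hPQ => (s4 P Q hP hQ hPQ).2.2.2.2.2
  -- the subgroup
  have hAH : A ∈ AddSubgroup.zmultiples A := AddSubgroup.mem_zmultiples A
  have hiH : ∀ i : ℕ, i • A ∈ AddSubgroup.zmultiples A := fun i => nsmul_mem hAH i
  have hne : ∀ B ∈ AddSubgroup.zmultiples A, T - B ≠ 0 := by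
    intro B hB h
    rw [sub_eq_zero] at h
    exact hT (h ▸ hB)
  have hT0 : T ≠ 0 := by
    have := hne 0 (zero_mem _)
    rwa [sub_zero] at this
  have hA0 : A ≠ 0 := by
    have := hA 1 one_pos (by omega)
    rwa [one_nsmul] at this
  have hpx : ∀ B ∈ AddSubgroup.zmultiples A, B ≠ 0 → px T ≠ px B := by
    intro B hB hB0 h
    rcases s3 B T hB0 hT0 h.symm with h' | h'
    · exact hT (h' ▸ hB)
    · exact hT (h' ▸ neg_mem hB)
  -- the recursion
  have hstep : ∀ i, 1 ≤ i → i + 1 < p → sl (T - A) (-((i + 1) • A)) =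
      sl (T - A) (-(i • A)) + sl (T - (i + 1) • A) (-A) + sl (i • A) A := by
    intro i hi hip
    have e1 : T - A + -(i • A) = T - (i + 1) • A := by rw [succ_nsmul]; abel
    have e2 : -(i • A) + -A = -((i + 1) • A) := by rw [succ_nsmul]; abel
    have e3 : T - (i + 1) • A + -A = T - (i + 2) • A := by
      rw [show i + 2 = (i + 1) + 1 from rfl, succ_nsmul A (i + 1)]
      abel
    have hiA : i • A ≠ 0 := hA i (by omega) (by omega)
    have hiA1 : (i + 1) • A ≠ 0 := hA (i + 1) (by omega) (by omega)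
    have h := hslc (T - A) (-(i • A)) (-A) (hne A hAH) (neg_ne_zero.2 hiA) (neg_ne_zero.2 hA0)
      (by rw [e1]; exact hne _ (hiH _)) (by rw [e2]; exact neg_ne_zero.2 hiA1)
      (by rw [e1, e3]; exact hne _ (hiH _))
    rw [e1, e2, sneg (i • A) A hiA hA0 (by rw [← succ_nsmul]; exact hiA1)] at h
    linear_combination -h
  have hstar : ∀ n, n < p - 1 → sl (T - A) (-((n + 1) • A)) =
      (∑ j ∈ Finset.range (n + 1), sl (T - (j + 1) • A) (-A)) +
        ∑ j ∈ Finset.range n, sl ((j + 1) • A) A := by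
    intro n
    induction n with
    | zero =>
      intro _
      rw [Finset.sum_range_one, Finset.sum_range_zero, add_zero, zero_add, one_nsmul]
    | succ n ih =>
      intro hn
      rw [hstep (n + 1) (by omega) (by omega), ih (by omega),
        Finset.sum_range_succ (fun j => sl (T - (j + 1) • A) (-A)) (n + 1),
        Finset.sum_range_succ (fun j => sl ((j + 1) • A) A) n]
      ring
  have hp1 : p - 1 + 1 = p := by omega
  have hp22 : p - 2 + 1 = p - 1 := by omega
  -- the sum of the slopes
  have hSA : SA p A T = (∑ j ∈ Finset.range (p - 1), sl (T - (j + 1) • A) (-A)) + sl T (-A) := by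
    rw [SA]
    conv_lhs => rw [← hp1]
    rw [Finset.sum_range_succ', zero_nsmul, sub_zero]
  have hcR : cR p A = ∑ j ∈ Finset.range (p - 2), sl ((j + 1) • A) A := by
    rw [cR, Finset.sum_Ico_eq_sum_range]
    have : p - 1 - 1 = p - 2 := by omega
    rw [this]
    refine Finset.sum_congr rfl fun j _ => ?_
    rw [add_comm 1 j]
  -- the case `p • A = 0`
  have hlast : p • A = 0 → sl (T - A) (-((p - 1) • A)) = sl A (-T) ∧
      sl (T - (p - 1) • A) (-A) = sl (-A) (-T) := by
    intro hpA
    have e1 : (p - 1) • A = -A := by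
      have h := hpA
      rw [← hp1, succ_nsmul] at h
      exact eq_neg_of_add_eq_zero_left h
    constructor
    · rw [e1, neg_neg, srot (T - A) A (hne A hAH) hA0 (by rw [sub_add_cancel]; exact hT0),
        sub_add_cancel]
    · have e2 : T - (-A) + -A = T := by abel
      rw [e1, srot (T - -A) (-A) (hne _ (neg_mem hAH)) (neg_ne_zero.2 hA0)
        (by rw [e2]; exact hT0), e2]
  constructor
  · intro D hD2 hD4 hD6 w hw
    obtain ⟨o1, o2, o3, o4⟩ := h3 L h20 W hW D hD2 hD4 hD6
    obtain ⟨-, d2⟩ := h5 L h20 W hW D hD2 hD4 hD6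
    obtain ⟨ωA, hωA⟩ := o1 A
    have hmT := key_om_neg p5 D T w hw
    -- the derivative of one factor
    have hG : ∀ i : ℕ, 1 ≤ i → i • A ≠ 0 → (i + 1) • A ≠ 0 → D (fv A (i • A) T) =
        fv A (i • A) T * (ωA * (((i : L) + 1) * sl (i • A) A + sl (T - A) (-(i • A)) +
          (i : L) * sl (T - i • A) (-A)) + w * (sl T (-A) - sl (T - i • A) (-A))) := by
      intro i hi hiA hiA1
      have e1 : A + i • A = (i + 1) • A := by rw [succ_nsmul]; abel
      have e2 : i • A + A = (i + 1) • A := by rw [succ_nsmul]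
      have e3 : A + -T = -(T - A) := by abel
      have e4 : i • A + -T = -(T - i • A) := by abel
      have e5 : -T + i • A = -(T - i • A) := by abel
      have e6 : (i + 1) • A + -T = -(T - (i + 1) • A) := by abel
      have e7 : -T + A = -(T - A) := by abel
      have e8 : T - A + -(i • A) = T - (i + 1) • A := by rw [succ_nsmul]; abel
      have e9 : T - i • A + -A = T - (i + 1) • A := by rw [succ_nsmul]; abel
      have h := d2 A (i • A) (-T) ωA (i * ωA) (-w) hA0 hiA (neg_ne_zero.2 hT0)
        (by rw [e1]; exact hiA1) (by rw [e3]; exact neg_ne_zero.2 (hne _ hAH))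
        (by rw [e4]; exact neg_ne_zero.2 (hne _ (hiH _)))
        (by rw [e1, e6]; exact neg_ne_zero.2 (hne _ (hiH _)))
        (by
          rw [e1]
          have hpn : px (-T) = px T := by
            rcases p1 T with h0 | ⟨x, y, hxy⟩
            · exact absurd h0 hT0
            · rw [(p2 _ _ _ hxy).2.1, (p2 _ _ _ (p5 _ _ _ hxy)).2.1]
          rw [hpn]
          exact hpx _ (hiH _) hiA1)
        hωA (o4 A ωA i hωA) hmT
      rw [neg_neg] at h
      have f1 : sl (A + -T) (i • A) = -sl (T - A) (-(i • A)) := by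
        have := sneg (T - A) (-(i • A)) (hne _ hAH) (neg_ne_zero.2 hiA)
          (by rw [e8]; exact hne _ (hiH _))
        rw [neg_neg] at this
        rw [e3, this]
      have f2 : sl (-(T - i • A)) A = -sl (T - i • A) (-A) := by
        have := sneg (T - i • A) (-A) (hne _ (hiH _)) (neg_ne_zero.2 hA0)
          (by rw [e9]; exact hne _ (hiH _))
        rw [neg_neg] at this
        exact this
      have f3 : sl (-T) A = -sl T (-A) := by
        have := sneg T (-A) hT0 (neg_ne_zero.2 hA0)
          (by rw [← sub_eq_add_neg]; exact hne _ hAH)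
        rw [neg_neg] at this
        exact this
      have f4 : sl A (i • A) = sl (i • A) A := scomm _ _ hA0 hiA (by rw [e1]; exact hiA1)
      rw [h, f1, e4, e5, f2, f3, f4]
      ring
    -- the product
    have hwn : wn p A T = ∏ i ∈ Finset.range (p - 1), fv A ((i + 1) • A) T := by
      rw [wn]
      conv_lhs => rw [← hp1]
      rw [Finset.prod_range_succ', zero_nsmul]
      have : fv A 0 T = 1 := by
        rw [fv, nv, dv, if_pos (Or.inr rfl), if_pos (Or.inr (Or.inl rfl)), div_one]
      rw [this, mul_one]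
    by_cases hpA : p • A = 0
    · -- `p • A = 0`
      obtain ⟨hl1, hl2⟩ := hlast hpA
      have hpxA : px T ≠ px A := hpx A hAH hA0
      have hd : px T - px A ≠ 0 := sub_ne_zero.2 hpxA
      -- coordinates
      obtain ⟨xT, yT, hTxy⟩ := (p1 T).resolve_left hT0
      obtain ⟨xA, yA, hAxy⟩ := (p1 A).resolve_left hA0
      obtain ⟨-, hxT, hyT, -⟩ := p2 _ _ _ hTxy
      obtain ⟨-, hxA, hyA, -⟩ := p2 _ _ _ hAxy
      rw [hxT, hxA] at hd hpxA
      have hd' : xA - xT ≠ 0 := sub_ne_zero.2 (fun h => hpxA h.symm)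
      have hmTxy := p5 _ _ _ hTxy
      have hmAxy := p5 _ _ _ hAxy
      have v1 : sl A (-T) = (yA - -yT) / (xA - xT) :=
        s1 _ _ _ _ _ _ hAxy hmTxy (fun h => hpxA h.symm)
      have v2 : sl (-A) (-T) = (-yA - -yT) / (xA - xT) :=
        s1 _ _ _ _ _ _ hmAxy hmTxy (fun h => hpxA h.symm)
      have v3 : sl T (-A) = (yT - -yA) / (xT - xA) := s1 _ _ _ _ _ _ hTxy hmAxy hpxA
      have hfl : fv A ((p - 1) • A) T = xT - xA := by
        have e1 : A + (p - 1) • A = 0 := by
          rw [add_comm, ← succ_nsmul, hp1, hpA]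
        have e2 : (p - 1) • A ≠ 0 := hA _ (by omega) (by omega)
        rw [fv, nv, dv, if_neg (by push Not; exact ⟨hA0, e2⟩), if_pos e1,
          if_pos (Or.inr (Or.inr e1)), div_one, hxT, hxA]
      have hDf : D (fv A ((p - 1) • A) T) = fv A ((p - 1) • A) T *
          ((2 * yT * w - 2 * yA * ωA) / (xT - xA)) := by
        rw [hfl, mul_div_cancel₀ _ hd, map_sub, (hw.aff _ _ hTxy).1, (hωA.aff _ _ hAxy).1]
      have hprod := key_prod D (fun i => fv A ((i + 1) • A) T)
        (fun i => if i = p - 2 then (2 * yT * w - 2 * yA * ωA) / (xT - xA) else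
          ωA * (((i : L) + 2) * sl ((i + 1) • A) A + sl (T - A) (-((i + 1) • A)) +
          ((i : L) + 1) * sl (T - (i + 1) • A) (-A)) +
          w * (sl T (-A) - sl (T - (i + 1) • A) (-A))) (p - 1) (by
          intro i hi
          by_cases hi2 : i = p - 2
          · rw [if_pos hi2, hi2, hp22]
            exact hDf
          · rw [if_neg hi2, hG (i + 1) (by omega) (hA _ (by omega) (by omega))
              (hA _ (by omega) (by omega))]
            push_cast
            ring)
      have hsum : ∑ i ∈ Finset.range (p - 1), (if i = p - 2 then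
          (2 * yT * w - 2 * yA * ωA) / (xT - xA) else
          ωA * (((i : L) + 2) * sl ((i + 1) • A) A + sl (T - A) (-((i + 1) • A)) +
          ((i : L) + 1) * sl (T - (i + 1) • A) (-A)) +
          w * (sl T (-A) - sl (T - (i + 1) • A) (-A))) =
          ωA * ∑ i ∈ Finset.range (p - 2), (((i : L) + 2) * sl ((i + 1) • A) A +
            sl (T - A) (-((i + 1) • A)) + ((i : L) + 1) * sl (T - (i + 1) • A) (-A)) +
          w * (((p - 2 : ℕ) : L) * sl T (-A) -
            ∑ i ∈ Finset.range (p - 2), sl (T - (i + 1) • A) (-A)) +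
          (2 * yT * w - 2 * yA * ωA) / (xT - xA) := by
        conv_lhs => rw [← hp22]
        rw [Finset.sum_range_succ, if_pos rfl]
        congr 1
        rw [Finset.sum_congr rfl (fun i hi => if_neg (by
          have := Finset.mem_range.1 hi
          omega)), Finset.sum_add_distrib, ← Finset.mul_sum, ← Finset.mul_sum,
          Finset.sum_sub_distrib, Finset.sum_const, Finset.card_range, nsmul_eq_mul]
      have hks := key_sum (fun j => sl (T - j • A) (-A)) (fun j => sl (j • A) A)
        (fun j => sl (T - A) (-(j • A))) (p - 1) hstar (p - 2) (by omega)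
      have hlp := hstar (p - 2) (by omega)
      rw [hp22, hl1, v1, ← hp22, Finset.sum_range_succ, hp22, hl2, v2] at hlp
      have hc1 : ((p - 2 : ℕ) : L) = -2 := by
        have h : ((p - 2 + 2 : ℕ) : L) = 0 := by
          rw [show p - 2 + 2 = p by omega]
          exact CharP.cast_eq_zero L p
        push_cast at h
        linear_combination h
      rw [hwn, hprod, hsum, hks, hSA, ← hp22, Finset.sum_range_succ, hp22, hl2, v2, v3, hc1]
      exact key_fin _ _ _ _ _ _ _ _ _ hd hlp
    · -- `p • A ≠ 0`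
      have hprod := key_prod D (fun i => fv A ((i + 1) • A) T)
        (fun i => ωA * (((i : L) + 2) * sl ((i + 1) • A) A + sl (T - A) (-((i + 1) • A)) +
          ((i : L) + 1) * sl (T - (i + 1) • A) (-A)) +
          w * (sl T (-A) - sl (T - (i + 1) • A) (-A))) (p - 1) (by
          intro i hi
          have hi1 : (i + 1 + 1) • A ≠ 0 := by
            rcases Nat.lt_or_ge (i + 1 + 1) p with h | h
            · exact hA _ (by omega) h
            · rw [show i + 1 + 1 = p by omega]
              exact hpA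
          rw [hG (i + 1) (by omega) (hA _ (by omega) (by omega)) hi1]
          push_cast
          ring)
      have hsum : ∑ i ∈ Finset.range (p - 1), (
          ωA * (((i : L) + 2) * sl ((i + 1) • A) A + sl (T - A) (-((i + 1) • A)) +
          ((i : L) + 1) * sl (T - (i + 1) • A) (-A)) +
          w * (sl T (-A) - sl (T - (i + 1) • A) (-A))) =
          ωA * ∑ i ∈ Finset.range (p - 1), (((i : L) + 2) * sl ((i + 1) • A) A +
            sl (T - A) (-((i + 1) • A)) + ((i : L) + 1) * sl (T - (i + 1) • A) (-A)) +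
          w * (((p - 1 : ℕ) : L) * sl T (-A) -
            ∑ i ∈ Finset.range (p - 1), sl (T - (i + 1) • A) (-A)) := by
        rw [Finset.sum_add_distrib, ← Finset.mul_sum, ← Finset.mul_sum,
          Finset.sum_sub_distrib, Finset.sum_const, Finset.card_range, nsmul_eq_mul]
      have hks := key_sum (fun j => sl (T - j • A) (-A)) (fun j => sl (j • A) A)
        (fun j => sl (T - A) (-(j • A))) (p - 1) hstar (p - 1) le_rfl
      have hc1 : ((p - 1 : ℕ) : L) = -1 := by
        have h : ((p - 1 + 1 : ℕ) : L) = 0 := by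
          rw [hp1]
          exact CharP.cast_eq_zero L p
        push_cast at h
        linear_combination h
      rw [hwn, hprod, hsum, hks, hSA, hc1]
      ring
  · intro hpA
    obtain ⟨hl1, -⟩ := hlast hpA
    have h := hstar (p - 2) (by omega)
    rw [hp22, hl1] at h
    have h' : sl A (-T) = -sl T (-A) := by
      have := sneg (-A) T (neg_ne_zero.2 hA0) hT0 (by
        rw [add_comm, ← sub_eq_add_neg]; exact hne _ hAH)
      rw [neg_neg] at this
      rw [this, scomm (-A) T (neg_ne_zero.2 hA0) hT0 (by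
        rw [add_comm, ← sub_eq_add_neg]; exact hne _ hAH)]
    rw [hSA, hcR]
    linear_combination h' - h

end Pool.Agent.MP72V
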