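import Pool.Agent.Lib.MP_72e2e6_nt.WP.Fd.Spec

/-!
# MP_72e2e6_nt, theorem T3 for odd characteristic, block Fd: module Mon (elements of the coordinate
ring which are monic at infinity)
-/

set_option autoImplicit false

namespace Pool.Agent.MP72V

open Polynomial WeierstrassCurve

open scoped Classical

private theorem mon_l1 (β β' : WithBot ℕ) (e e' : ℕ) (h : β + 1 < e) (h' : β' + 1 < e') :
    β + β' + 3 < ((e + e' : ℕ) : WithBot ℕ) := by
  induction β using WithBot.recBotCoe with
  | bot => simp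
  | coe β =>
    induction β' using WithBot.recBotCoe with
    | bot => simp
    | coe β' =>
      simp only [← Nat.cast_withBot] at h h' ⊢
      norm_cast at h h' ⊢
      omega

private theorem mon_l2 (β : WithBot ℕ) (e e' : ℕ) (h : β + 1 < e) :
    (e' : WithBot ℕ) + β + 1 < ((e + e' : ℕ) : WithBot ℕ) := by
  induction β using WithBot.recBotCoe with
  | bot => simp
  | coe β =>
    simp only [← Nat.cast_withBot] at h ⊢
    norm_cast at h ⊢
    omega

private theorem mon_l3 (β α' : WithBot ℕ) (e e' : ℕ) (h : β + 1 < e) (h' : α' < (e' : WithBot ℕ) + 2) :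
    β + α' < ((e + e' : ℕ) : WithBot ℕ) := by
  induction β using WithBot.recBotCoe with
  | bot => simp
  | coe β =>
    induction α' using WithBot.recBotCoe with
    | bot => simp
    | coe α' =>
      simp only [← Nat.cast_withBot] at h h' ⊢
      norm_cast at h h' ⊢
      omega

private theorem mon_l4 (α' : WithBot ℕ) (e e' : ℕ) (h' : α' < (e' : WithBot ℕ) + 2) :
    (e : WithBot ℕ) + α' < ((e + e' : ℕ) : WithBot ℕ) + 2 := by
  induction α' using WithBot.recBotCoe with
  | bot =>
    rw [WithBot.add_bot]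
    exact WithBot.bot_lt_coe (e + e' + 2)
  | coe α' =>
    simp only [← Nat.cast_withBot] at h' ⊢
    norm_cast at h' ⊢
    omega

private theorem mon_l5 (β : WithBot ℕ) (e e' : ℕ) (h : β + 1 < e) :
    β + (e' : WithBot ℕ) + 3 < ((e + e' : ℕ) : WithBot ℕ) + 2 := by
  induction β using WithBot.recBotCoe with
  | bot =>
    rw [WithBot.bot_add, WithBot.bot_add]
    exact WithBot.bot_lt_coe (e + e' + 2)
  | coe β =>
    simp only [← Nat.cast_withBot] at h ⊢
    norm_cast at h ⊢
    omega

private theorem mon_l6 (α α' : WithBot ℕ) (e e' : ℕ) (h : α < (e : WithBot ℕ) + 2)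
    (h' : α' < (e' : WithBot ℕ) + 2) : α + α' < ((e + e' + 3 : ℕ) : WithBot ℕ) := by
  induction α using WithBot.recBotCoe with
  | bot =>
    rw [WithBot.bot_add]
    exact WithBot.bot_lt_coe (e + e' + 3)
  | coe α =>
    induction α' using WithBot.recBotCoe with
    | bot =>
      rw [WithBot.add_bot]
      exact WithBot.bot_lt_coe (e + e' + 3)
    | coe α' =>
      simp only [← Nat.cast_withBot] at h h' ⊢
      norm_cast at h h' ⊢
      omega

private theorem mon_l7 (α : WithBot ℕ) (e e' : ℕ) (h : α < (e : WithBot ℕ) + 2) :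
    α + (e' : WithBot ℕ) + 1 < ((e + e' + 3 : ℕ) : WithBot ℕ) := by
  induction α using WithBot.recBotCoe with
  | bot =>
    rw [WithBot.bot_add, WithBot.bot_add]
    exact WithBot.bot_lt_coe (e + e' + 3)
  | coe α =>
    simp only [← Nat.cast_withBot] at h ⊢
    norm_cast at h ⊢
    omega

section

variable {L : Type} [Field L] {W : WeierstrassCurve.Affine L}

private theorem mon_el (a b : L[X]) : el W a b = Affine.CoordinateRing.mk W (C a + C b * X) := by
  rw [el, Affine.CoordinateRing.smul, Affine.CoordinateRing.smul, mul_one, map_add, map_mul]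

private theorem mon_cub : (cub W : L[X]).Monic ∧ (cub W : L[X]).degree = 3 := by
  have h : cub W = X ^ 3 + (C W.a₂ * X ^ 2 + C W.a₄ * X + C W.a₆) := by
    rw [cub]
    ring
  have hq : (C W.a₂ * X ^ 2 + C W.a₄ * X + C W.a₆ : L[X]).degree < ((3 : ℕ) : WithBot ℕ) :=
    lt_of_le_of_lt Polynomial.degree_quadratic_le (by norm_num)
  rw [h]
  refine ⟨Polynomial.monic_X_pow_add hq, ?_⟩
  rw [Polynomial.degree_add_eq_left_of_degree_lt]
  · rw [Polynomial.degree_X_pow]
    rfl
  · rw [Polynomial.degree_X_pow]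
    exact hq

private theorem mon_mul (hW : IsNf W) (a b a' b' : L[X]) : el W a b * el W a' b' =
    el W (a * a' + b * b' * cub W) (a * b' + b * a') := by
  rw [mon_el, mon_el, mon_el, ← map_mul]
  refine AdjoinRoot.mk_eq_mk.2 ⟨C (b * b'), ?_⟩
  rw [Affine.polynomial, hW.a1, hW.a3, cub]
  simp only [map_mul, map_add, map_zero]
  ring

private theorem mon_inj (a b a' b' : L[X]) (h : el W a b = el W a' b') : a = a' ∧ b = b' := by
  have h1 : (a - a') • (1 : W.CoordinateRing) + (b - b') • Affine.CoordinateRing.mk W X = 0 := by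
    rw [el, el] at h
    rw [sub_smul, sub_smul]
    linear_combination h
  obtain ⟨h2, h3⟩ := Affine.CoordinateRing.smul_basis_eq_zero h1
  exact ⟨sub_eq_zero.1 h2, sub_eq_zero.1 h3⟩

private theorem mon_ex (z : W.CoordinateRing) : ∃ a b : L[X], z = el W a b := by
  obtain ⟨p, q, h⟩ := Affine.CoordinateRing.exists_smul_basis_eq z
  exact ⟨p, q, h.symm⟩

/-- the sum of a monic polynomial of degree `n` and a polynomial of smaller degree -/
private theorem mon_add {A B : L[X]} {n : ℕ} (hA : A.Monic) (hn : A.natDegree = n)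
    (hB : B.degree < (n : WithBot ℕ)) : (A + B).Monic ∧ (A + B).natDegree = n := by
  have h1 : A.degree = (n : WithBot ℕ) := by
    rw [Polynomial.degree_eq_natDegree hA.ne_zero, hn]
  have h2 : B.degree < A.degree := by rw [h1]; exact hB
  refine ⟨hA.add_of_left h2, ?_⟩
  rw [Polynomial.natDegree_add_eq_left_of_degree_lt h2, hn]

private theorem mon_deg {A : L[X]} {n : ℕ} (hA : A.Monic) (hn : A.natDegree = n) :
    A.degree = (n : WithBot ℕ) := by
  rw [Polynomial.degree_eq_natDegree hA.ne_zero, hn]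

/-- even times even -/
private theorem mon_ee {a b a' b' : L[X]} {e e' : ℕ} (ha : a.Monic) (hae : a.natDegree = e)
    (hb : b.degree + 1 < (e : WithBot ℕ)) (ha' : a'.Monic) (hae' : a'.natDegree = e')
    (hb' : b'.degree + 1 < (e' : WithBot ℕ)) :
    (a * a' + b * b' * cub W).Monic ∧ (a * a' + b * b' * cub W).natDegree = e + e' ∧
      (a * b' + b * a').degree + 1 < ((e + e' : ℕ) : WithBot ℕ) := by
  have h1 : (b * b' * cub W).degree < ((e + e' : ℕ) : WithBot ℕ) := by
    rw [Polynomial.degree_mul, Polynomial.degree_mul, (mon_cub (W := W)).2]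
    exact mon_l1 _ _ _ _ hb hb'
  obtain ⟨h2, h3⟩ := mon_add (ha.mul ha') (by rw [ha.natDegree_mul ha', hae, hae']) h1
  refine ⟨h2, h3, ?_⟩
  have h4 : (a * b').degree + 1 < ((e + e' : ℕ) : WithBot ℕ) := by
    rw [Polynomial.degree_mul, mon_deg ha hae, add_comm e e']
    exact mon_l2 _ _ _ hb'
  have h5 : (b * a').degree + 1 < ((e + e' : ℕ) : WithBot ℕ) := by
    rw [Polynomial.degree_mul, mon_deg ha' hae', add_comm b.degree]
    exact mon_l2 _ _ _ hb
  rcases le_total (a * b').degree (b * a').degree with h | h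
  · refine lt_of_le_of_lt (add_le_add_left ((Polynomial.degree_add_le _ _).trans
      (max_le h le_rfl)) 1) h5
  · refine lt_of_le_of_lt (add_le_add_left ((Polynomial.degree_add_le _ _).trans
      (max_le le_rfl h)) 1) h4

/-- even times odd -/
private theorem mon_eo {a b a' b' : L[X]} {e e' : ℕ} (ha : a.Monic) (hae : a.natDegree = e)
    (hb : b.degree + 1 < (e : WithBot ℕ)) (hb' : b'.Monic) (hbe' : b'.natDegree = e')
    (ha' : a'.degree < (e' : WithBot ℕ) + 2) :
    (a * b' + b * a').Monic ∧ (a * b' + b * a').natDegree = e + e' ∧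
      (a * a' + b * b' * cub W).degree < ((e + e' : ℕ) : WithBot ℕ) + 2 := by
  have h1 : (b * a').degree < ((e + e' : ℕ) : WithBot ℕ) := by
    rw [Polynomial.degree_mul]
    exact mon_l3 _ _ _ _ hb ha'
  obtain ⟨h2, h3⟩ := mon_add (ha.mul hb') (by rw [ha.natDegree_mul hb', hae, hbe']) h1
  refine ⟨h2, h3, ?_⟩
  refine lt_of_le_of_lt (Polynomial.degree_add_le _ _) (max_lt ?_ ?_)
  · rw [Polynomial.degree_mul, mon_deg ha hae]
    exact mon_l4 _ _ _ ha'
  · rw [Polynomial.degree_mul, Polynomial.degree_mul, (mon_cub (W := W)).2, mon_deg hb' hbe']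
    exact mon_l5 _ _ _ hb

/-- odd times odd -/
private theorem mon_oo {a b a' b' : L[X]} {e e' : ℕ} (hb : b.Monic) (hbe : b.natDegree = e)
    (ha : a.degree < (e : WithBot ℕ) + 2) (hb' : b'.Monic) (hbe' : b'.natDegree = e')
    (ha' : a'.degree < (e' : WithBot ℕ) + 2) :
    (a * a' + b * b' * cub W).Monic ∧ (a * a' + b * b' * cub W).natDegree = e + e' + 3 ∧
      (a * b' + b * a').degree + 1 < ((e + e' + 3 : ℕ) : WithBot ℕ) := by
  have hc : (cub W : L[X]).natDegree = 3 := Polynomial.natDegree_eq_of_degree_eq_some mon_cub.2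
  have h1 : (a * a').degree < ((e + e' + 3 : ℕ) : WithBot ℕ) := by
    rw [Polynomial.degree_mul]
    exact mon_l6 _ _ _ _ ha ha'
  obtain ⟨h2, h3⟩ := mon_add ((hb.mul hb').mul (mon_cub (W := W)).1)
    (by rw [(hb.mul hb').natDegree_mul mon_cub.1, hb.natDegree_mul hb', hbe, hbe', hc]) h1
  rw [add_comm (a * a')]
  refine ⟨h2, h3, ?_⟩
  have h4 : (a * b').degree + 1 < ((e + e' + 3 : ℕ) : WithBot ℕ) := by
    rw [Polynomial.degree_mul, mon_deg hb' hbe']
    exact mon_l7 _ _ _ ha
  have h5 : (b * a').degree + 1 < ((e + e' + 3 : ℕ) : WithBot ℕ) := by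
    rw [Polynomial.degree_mul, mon_deg hb hbe, add_comm (e : WithBot ℕ), add_comm e e']
    exact mon_l7 _ _ _ ha'
  rcases le_total (a * b').degree (b * a').degree with h | h
  · refine lt_of_le_of_lt (add_le_add_left ((Polynomial.degree_add_le _ _).trans
      (max_le h le_rfl)) 1) h5
  · refine lt_of_le_of_lt (add_le_add_left ((Polynomial.degree_add_le _ _).trans
      (max_le le_rfl h)) 1) h4

end

private theorem mon_c1 (β : WithBot ℕ) (e e' : ℕ) (h1 : β = (e' : WithBot ℕ))
    (h2 : β + 1 < (e : WithBot ℕ)) (h3 : (e : WithBot ℕ) < (e' : WithBot ℕ) + 2) : False := by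
  subst h1
  norm_cast at h2 h3
  omega

private theorem mon_unit {L : Type} [Field L] {c : L} {a : L[X]} (ha : a.Monic)
    (h : (C c * a).Monic) : c = 1 := by
  have h1 := h.leadingCoeff
  rw [Polynomial.leadingCoeff_mul, Polynomial.leadingCoeff_C, ha.leadingCoeff, mul_one] at h1
  exact h1

theorem tMon : S_Mon := by
  intro L _ W hW
  have hne : ∀ (z : W.CoordinateRing) (d : ℕ), Mn W z d → z ≠ 0 := by
    rintro z d ⟨a, b, e, hz, h⟩ h0
    have h1 : el W a b = el W 0 0 := by
      rw [← hz, h0, el, zero_smul, zero_smul, add_zero]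
    obtain ⟨ha, hb⟩ := mon_inj _ _ _ _ h1
    rcases h with ⟨_, hm, _, _⟩ | ⟨_, hm, _, _⟩
    · rw [ha] at hm
      exact hm.ne_zero rfl
    · rw [hb] at hm
      exact hm.ne_zero rfl
  refine ⟨mon_inj, mon_ex, mon_mul hW, ?_, ?_, ?_, ?_, hne, ?_⟩
  · refine ⟨1, 0, 0, ?_, Or.inl ⟨rfl, Polynomial.monic_one, Polynomial.natDegree_one, ?_⟩⟩
    · rw [el, one_smul, zero_smul, add_zero]
    · rw [Polynomial.degree_zero, WithBot.bot_add]
      exact WithBot.bot_lt_coe 0
  · intro x
    refine ⟨X - C x, 0, 1, ?_, Or.inl ⟨rfl, Polynomial.monic_X_sub_C x,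
      Polynomial.natDegree_X_sub_C x, ?_⟩⟩
    · rw [el, zero_smul, add_zero, Affine.CoordinateRing.smul, mul_one]
      rfl
    · rw [Polynomial.degree_zero, WithBot.bot_add]
      exact WithBot.bot_lt_coe 1
  · intro x y l
    refine ⟨-Affine.linePolynomial x y l, 1, 0, ?_, Or.inr ⟨rfl, Polynomial.monic_one,
      Polynomial.natDegree_one, ?_⟩⟩
    · rw [el, one_smul, Affine.CoordinateRing.smul, mul_one, ← map_add]
      simp only [Affine.CoordinateRing.YClass, map_neg]
      congr 1
      ring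
    · rw [Polynomial.degree_neg]
      have h1 : Affine.linePolynomial x y l = C l * X + C (y - l * x) := by
        simp only [Affine.linePolynomial, map_sub, map_mul]
        ring
      rw [h1]
      refine lt_of_le_of_lt Polynomial.degree_linear_le ?_
      norm_num
  · rintro z z' d d' ⟨a, b, e, hz, h⟩ ⟨a', b', e', hz', h'⟩
    refine ⟨a * a' + b * b' * cub W, a * b' + b * a', ?_⟩
    have hp : z * z' = el W (a * a' + b * b' * cub W) (a * b' + b * a') := by
      rw [hz, hz']
      exact mon_mul hW _ _ _ _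
    rcases h with ⟨hd, hm, hn, hl⟩ | ⟨hd, hm, hn, hl⟩
    · rcases h' with ⟨hd', hm', hn', hl'⟩ | ⟨hd', hm', hn', hl'⟩
      · obtain ⟨r1, r2, r3⟩ := mon_ee (W := W) hm hn hl hm' hn' hl'
        exact ⟨e + e', hp, Or.inl ⟨by omega, r1, r2, r3⟩⟩
      · obtain ⟨r1, r2, r3⟩ := mon_eo (W := W) hm hn hl hm' hn' hl'
        exact ⟨e + e', hp, Or.inr ⟨by omega, r1, r2, r3⟩⟩
    · rcases h' with ⟨hd', hm', hn', hl'⟩ | ⟨hd', hm', hn', hl'⟩
      · obtain ⟨r1, r2, r3⟩ := mon_eo (W := W) hm' hn' hl' hm hn hl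
        refine ⟨e' + e, hp, Or.inr ⟨by omega, ?_, ?_, ?_⟩⟩
        · rw [add_comm, mul_comm b, mul_comm a]
          exact r1
        · rw [add_comm (a * b'), mul_comm b, mul_comm a]
          exact r2
        · rw [mul_comm a, mul_comm b]
          exact r3
      · obtain ⟨r1, r2, r3⟩ := mon_oo (W := W) hm hn hl hm' hn' hl'
        exact ⟨e + e' + 3, hp, Or.inl ⟨by omega, r1, r2, r3⟩⟩
  · rintro c z d d' ⟨a, b, e, hz, h⟩ hz'
    have hc : c ≠ 0 := by
      rintro rfl
      apply hne _ _ hz'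
      rw [el, C_0, zero_smul, zero_smul, add_zero, zero_mul]
    obtain ⟨a', b', e', hp, h'⟩ := hz'
    rw [hz, mon_mul hW, zero_mul, zero_mul, zero_mul, add_zero, add_zero] at hp
    obtain ⟨ea, eb⟩ := mon_inj _ _ _ _ hp
    rcases h with ⟨hd, hm, hn, hl⟩ | ⟨hd, hm, hn, hl⟩
    · rcases h' with ⟨hd', hm', hn', hl'⟩ | ⟨hd', hm', hn', hl'⟩
      · rw [← ea] at hm'
        exact mon_unit hm hm'
      · exfalso
        have h1 := mon_deg hm' hn'
        rw [← eb, Polynomial.degree_C_mul hc] at h1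
        rw [← ea, Polynomial.degree_C_mul hc, mon_deg hm hn] at hl'
        exact mon_c1 _ _ _ h1 hl hl'
    · rcases h' with ⟨hd', hm', hn', hl'⟩ | ⟨hd', hm', hn', hl'⟩
      · exfalso
        have h1 := mon_deg hm' hn'
        rw [← ea, Polynomial.degree_C_mul hc] at h1
        rw [← eb, Polynomial.degree_C_mul hc, mon_deg hm hn] at hl'
        rw [h1] at hl
        norm_cast at hl hl'
        omega
      · rw [← eb] at hm'
        exact mon_unit hm hm'

end Pool.Agent.MP72V
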