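import Pool.Agent.Lib.MP_72e2e6_nt.WP.Fd.Spec

/-!
# MP_72e2e6_nt, theorem T3 for odd characteristic, block Fd: module Rid (the cocycle identity in the
coordinate ring)
-/

set_option autoImplicit false

namespace Pool.Agent.MP72V

open Polynomial WeierstrassCurve

open scoped Classical

section

variable {L : Type} [Field L] {W : WeierstrassCurve.Affine L}

private theorem rid_zero : Ip (0 : W.Point) = ⊤ := by rw [Ip, if_pos rfl]

private theorem rid_neg (h2 : ∀ P : W.Point, P ≠ 0 →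
      Ip P * Ip (-P) = Ideal.span {Affine.CoordinateRing.XClass W (px P)}) (P : W.Point) :
    ∃ z : W.CoordinateRing, z ≠ 0 ∧ Ip (-P) * Ip P = Ideal.span {z} := by
  by_cases hP : P = 0
  · subst hP
    refine ⟨1, one_ne_zero, ?_⟩
    rw [neg_zero, rid_zero, Ideal.top_mul, Ideal.span_singleton_one]
  · refine ⟨_, Affine.CoordinateRing.XClass_ne_zero (px P), ?_⟩
    rw [mul_comm]
    exact h2 P hP

private theorem rid_assoc (h1 : ∀ P Q : W.Point,
      Ideal.span {dR P Q} * (Ip P * Ip Q) = Ideal.span {nR P Q} * Ip (P + Q))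
    (h2 : ∀ P : W.Point, P ≠ 0 →
      Ip P * Ip (-P) = Ideal.span {Affine.CoordinateRing.XClass W (px P)}) (P Q S : W.Point) :
    Associated (nR P Q * nR (P + Q) S * (dR Q S * dR P (Q + S)))
      (nR Q S * nR P (Q + S) * (dR P Q * dR (P + Q) S)) := by
  have e1 := h1 P Q
  have e2 := h1 (P + Q) S
  have e3 := h1 Q S
  have e4 := h1 P (Q + S)
  obtain ⟨z, hz, hz2⟩ := rid_neg h2 (P + Q + S)
  rw [← add_assoc] at e4
  have key : Ideal.span {nR P Q * nR (P + Q) S * (dR Q S * dR P (Q + S))} * Ideal.span {z} =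
      Ideal.span {nR Q S * nR P (Q + S) * (dR P Q * dR (P + Q) S)} * Ideal.span {z} := by
    rw [← hz2]
    simp only [← Ideal.span_singleton_mul_span_singleton]
    calc _ = Ip (-(P + Q + S)) * (Ideal.span {nR P Q} * (Ideal.span {nR (P + Q) S} *
          Ip (P + Q + S)) * (Ideal.span {dR Q S} * Ideal.span {dR P (Q + S)})) := by ring
      _ = Ip (-(P + Q + S)) * (Ideal.span {nR P Q} * (Ideal.span {dR (P + Q) S} *
          (Ip (P + Q) * Ip S)) * (Ideal.span {dR Q S} * Ideal.span {dR P (Q + S)})) := by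
          rw [← e2]
      _ = Ip (-(P + Q + S)) * ((Ideal.span {nR P Q} * Ip (P + Q)) * (Ideal.span {dR (P + Q) S} *
          Ip S) * (Ideal.span {dR Q S} * Ideal.span {dR P (Q + S)})) := by ring
      _ = Ip (-(P + Q + S)) * ((Ideal.span {dR P Q} * (Ip P * Ip Q)) *
          (Ideal.span {dR (P + Q) S} *
          Ip S) * (Ideal.span {dR Q S} * Ideal.span {dR P (Q + S)})) := by rw [← e1]
      _ = Ip (-(P + Q + S)) * ((Ideal.span {dR Q S} * (Ip Q * Ip S)) * Ip P *
          Ideal.span {dR P (Q + S)} * (Ideal.span {dR P Q} * Ideal.span {dR (P + Q) S})) := by ring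
      _ = Ip (-(P + Q + S)) * ((Ideal.span {nR Q S} * Ip (Q + S)) * Ip P *
          Ideal.span {dR P (Q + S)} * (Ideal.span {dR P Q} * Ideal.span {dR (P + Q) S})) := by
          rw [e3]
      _ = Ip (-(P + Q + S)) * (Ideal.span {nR Q S} * (Ideal.span {dR P (Q + S)} *
          (Ip P * Ip (Q + S))) * (Ideal.span {dR P Q} * Ideal.span {dR (P + Q) S})) := by ring
      _ = Ip (-(P + Q + S)) * (Ideal.span {nR Q S} * (Ideal.span {nR P (Q + S)} *
          Ip (P + Q + S)) * (Ideal.span {dR P Q} * Ideal.span {dR (P + Q) S})) := by rw [e4]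
      _ = _ := by ring
  rw [Ideal.span_singleton_mul_span_singleton, Ideal.span_singleton_mul_span_singleton,
    Ideal.span_singleton_eq_span_singleton] at key
  exact key.of_mul_right (Associated.refl z) hz

end

theorem tRid (h1 : S_Mon) (h2 : S_Idl) : S_Rid := by
  intro L _ hL W hW P Q S
  obtain ⟨_, _, _, m4, m5, m6, m7, _, m9⟩ := h1 L W hW
  obtain ⟨i1, i2, _, i4⟩ := h2 L hL W hW
  have hn : ∀ P Q : W.Point, ∃ d, Mn W (nR P Q) d := by
    intro P Q
    unfold nR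
    split_ifs
    · exact ⟨_, m4⟩
    · exact ⟨_, m5 _⟩
    · exact ⟨_, m6 _ _ _⟩
  have hd : ∀ P Q : W.Point, ∃ d, Mn W (dR P Q) d := by
    intro P Q
    unfold dR
    split_ifs
    · exact ⟨_, m4⟩
    · exact ⟨_, m5 _⟩
  have hm : ∀ z z' : W.CoordinateRing, (∃ d, Mn W z d) → (∃ d, Mn W z' d) →
      ∃ d, Mn W (z * z') d := by
    rintro z z' ⟨d, h⟩ ⟨d', h'⟩
    exact ⟨_, m7 z z' d d' h h'⟩
  obtain ⟨ε, hε⟩ := rid_assoc i1 i2 P Q S
  obtain ⟨c, _, hc⟩ := i4 (ε : W.CoordinateRing) ε.isUnit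
  obtain ⟨d1, g1⟩ := hm _ _ (hm _ _ (hn P Q) (hn (P + Q) S)) (hm _ _ (hd Q S) (hd P (Q + S)))
  obtain ⟨d2, g2⟩ := hm _ _ (hm _ _ (hn Q S) (hn P (Q + S))) (hm _ _ (hd P Q) (hd (P + Q) S))
  have hc1 : c = 1 := by
    refine m9 c _ d1 d2 g1 ?_
    rw [← hc, mul_comm, hε]
    exact g2
  have h1 : (ε : W.CoordinateRing) = 1 := by
    rw [hc, hc1, el, zero_smul, add_zero, C_1, one_smul]
  rw [← hε, h1, mul_one]

end Pool.Agent.MP72V
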