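import Pool.Agent.Lib.MP_72e2e6_nt.WP.Fd.Spec

/-!
# MP_72e2e6_nt, theorem T3 for odd characteristic, block Fd: module Sl (slopes)
-/

set_option autoImplicit false

namespace Pool.Agent.MP72V

open Polynomial WeierstrassCurve

open scoped Classical

theorem tSl (h1 : S_Pts) : S_Sl := by
  intro L _ h2 W hW
  obtain ⟨p1, p2, p3, p4, p5, p6, p7, p8, p9, p10⟩ := h1 L h2 W hW
  have ha1 : W.a₁ = 0 := hW.a1
  have ha3 : W.a₃ = 0 := hW.a3
  have s1 : ∀ (P Q : W.Point) (x y x' y' : L), XY P x y → XY Q x' y' → x ≠ x' →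
      sl P Q = (y - y') / (x - x') := by
    rintro P Q x y x' y' ⟨h, rfl⟩ ⟨h', rfl⟩ hx
    exact Affine.slope_of_X_ne hx
  have s2 : ∀ (P : W.Point) (x y : L), XY P x y → y ≠ 0 →
      sl P P = (3 * x ^ 2 + 2 * W.a₂ * x + W.a₄) / (2 * y) := by
    rintro P x y ⟨h, rfl⟩ hy
    have hn : W.negY x y = -y := by
      rw [Affine.negY, ha1, ha3]
      ring
    have hyne : y ≠ W.negY x y := by
      rw [hn]
      intro h3
      have h4 : 2 * y = 0 := by linear_combination h3
      rcases mul_eq_zero.1 h4 with h5 | h5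
      · exact h2 h5
      · exact hy h5
    change W.slope x x y y = _
    rw [Affine.slope_of_Y_ne rfl hyne, hn, ha1]
    refine congrArg₂ (· / ·) ?_ ?_
    · ring
    · ring
  have hxy : ∀ P : W.Point, P ≠ 0 → XY P (px P) (py P) := by
    intro P hP
    rcases p1 P with h | ⟨x, y, h⟩
    · exact absurd h hP
    · obtain ⟨_, e1, e2, _⟩ := p2 P x y h
      rw [e1, e2]
      exact h
  have hneg : ∀ P : W.Point, P ≠ 0 → px (-P) = px P ∧ py (-P) = -py P := by
    intro P hP
    obtain ⟨_, e1, e2, _⟩ := p2 _ _ _ (p5 P _ _ (hxy P hP))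
    exact ⟨e1, e2⟩
  have s3 : ∀ P Q : W.Point, P ≠ 0 → Q ≠ 0 → px P = px Q → Q = P ∨ Q = -P := by
    intro P Q hP hQ h
    have hQ' := hxy Q hQ
    rw [← h] at hQ'
    exact p6 P Q _ _ _ (hxy P hP) hQ'
  -- the addition formulas
  have A : ∀ P Q : W.Point, P ≠ 0 → Q ≠ 0 → P + Q ≠ 0 →
      px (P + Q) = sl P Q ^ 2 - W.a₂ - px P - px Q ∧
      py (P + Q) = sl P Q * (px P - px (P + Q)) - py P ∧ sl P Q = sl Q P ∧
      py Q = py P + sl P Q * (px Q - px P) ∧ sl (-P) (-Q) = -sl P Q := by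
    intro P Q hP hQ hPQ
    have eP := hxy P hP
    have eQ := hxy Q hQ
    have nP := p5 P _ _ eP
    have nQ := p5 Q _ _ eQ
    by_cases hx : px P = px Q
    · rcases s3 P Q hP hQ hx with h | h
      · subst h
        have hy : py Q ≠ 0 := by
          intro hy
          rw [hy] at eP
          exact hPQ (p9 Q _ eP)
        have e1 := s2 Q _ _ eP hy
        obtain ⟨_, e2, e3, _⟩ := p2 _ _ _ (p8 Q _ _ _ eP hy e1)
        refine ⟨e2, ?_, rfl, ?_, ?_⟩
        · rw [e3, e2]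
        · ring
        · rw [s2 _ _ _ nP (neg_ne_zero.2 hy), e1, mul_neg, div_neg]
      · exfalso
        apply hPQ
        rw [h, add_neg_cancel]
    · have e1 := s1 P Q _ _ _ _ eP eQ hx
      have hx' : px P - px Q ≠ 0 := sub_ne_zero.2 hx
      have hx'' : px Q - px P ≠ 0 := sub_ne_zero.2 (Ne.symm hx)
      obtain ⟨_, e2, e3, _⟩ := p2 _ _ _ (p7 P Q _ _ _ _ _ eP eQ hx e1)
      refine ⟨e2, ?_, ?_, ?_, ?_⟩
      · rw [e3, e2]
      · rw [e1, s1 Q P _ _ _ _ eQ eP (Ne.symm hx), div_eq_div_iff hx' hx'']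
        ring
      · rw [e1]
        field_simp
        ring
      · rw [s1 _ _ _ _ _ _ nP nQ hx, e1, ← neg_div]
        congr 1
        ring
  refine ⟨s1, s2, s3, fun P Q hP hQ hPQ => ?_⟩
  obtain ⟨a1, a2, a3, a4, a5⟩ := A P Q hP hQ hPQ
  refine ⟨a1, a2, a3, a4, a5, ?_⟩
  have hR : -(P + Q) ≠ 0 := neg_ne_zero.2 hPQ
  obtain ⟨n1, n2⟩ := hneg (P + Q) hPQ
  have key : py Q + py (P + Q) = sl P Q * (px Q - px (P + Q)) := by
    rw [a2, a4]
    ring
  by_cases hx : px Q = px (P + Q)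
  · rcases s3 Q (P + Q) hQ hPQ hx with h | h
    · exact absurd (add_eq_right.1 h) hP
    · have hRQ : -(P + Q) = Q := by rw [h, neg_neg]
      rw [hRQ]
      by_cases hPQe : P = Q
      · rw [hPQe]
      · have hx2 : px P ≠ px Q := by
          intro hx2
          rcases s3 P Q hP hQ hx2 with h3 | h3
          · exact hPQe h3.symm
          · exact hPQ (by rw [h3, add_neg_cancel])
        have hQQ : Q + Q = -P := by
          have h4 : P + Q + Q = 0 := by rw [h, neg_add_cancel]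
          rw [add_assoc] at h4
          exact (neg_eq_of_add_eq_zero_right h4).symm
        have hQQ0 : Q + Q ≠ 0 := by
          rw [hQQ]
          exact neg_ne_zero.2 hP
        obtain ⟨_, b2, _, _, _⟩ := A Q Q hQ hQ hQQ0
        rw [hQQ, (hneg P hP).1, (hneg P hP).2] at b2
        have hd : px Q - px P ≠ 0 := sub_ne_zero.2 (Ne.symm hx2)
        apply mul_right_cancel₀ hd
        linear_combination b2 - a4
  · have e1 := s1 Q (-(P + Q)) _ _ _ _ (hxy Q hQ) (hxy _ hR) (by rw [n1]; exact hx)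
    have hd : px Q - px (P + Q) ≠ 0 := sub_ne_zero.2 hx
    rw [e1, n1, n2, sub_neg_eq_add, key]
    field_simp

end Pool.Agent.MP72V
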