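import Pool.Agent.Lib.MP_72e2e6_nt.WP.Fd.Spec

/-!
# MP_72e2e6_nt, theorem T3 for odd characteristic, block Fd: the functions `wn p A` modulo `p`-th
powers (helper51)
-/

namespace Pool.Agent.MP72V

open Polynomial WeierstrassCurve
open Pool.Agent.MP72W (pmap)
open Pool.Agent.MP72P (EqN)

open scoped Classical

private theorem W1_two (p : ℕ) [hp : Fact p.Prime] (hp2 : p ≠ 2) (K : Type) [Field K]
    [CharP K p] : (2 : K) ≠ 0 := by
  intro h
  have h' : ((2 : ℕ) : K) = 0 := by exact_mod_cast h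
  have h1 : p ∣ 2 := (CharP.cast_eq_zero_iff K p 2).1 h'
  exact hp2 ((Nat.prime_dvd_prime_iff_eq hp.out Nat.prime_two).1 h1)

private theorem W1_pow (p : ℕ) (L : Type) [Field L] [CharP L p]
    (D : Derivation ℤ L L) (x : L) : D (x ^ p) = 0 := by
  rw [Derivation.leibniz_pow]
  have h : ((p : ℕ) : L) = 0 := CharP.cast_eq_zero L p
  rw [nsmul_eq_mul, h, zero_mul]

/-- The coefficients of `E_{j+1}` are killed by the derivations. -/
private theorem W1_coef (h2 : S_Bas) (p : ℕ) [Fact p.Prime] (hp2 : p ≠ 2) (K : Type) [Field K]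
    [CharP K p] (W : WeierstrassCurve K) (hW : IsNf W) (j : ℕ) (L : Type) [Field L]
    [Algebra K L] [CharP L p] (D : Derivation ℤ L L) :
    D ((fr p W (j + 1))⁄L).toAffine.a₂ = 0 ∧ D ((fr p W (j + 1))⁄L).toAffine.a₄ = 0 ∧
      D ((fr p W (j + 1))⁄L).toAffine.a₆ = 0 := by
  obtain ⟨-, -, e2, e4, e6, -⟩ := h2.1 K (W1_two p hp2 K) (fr p W (j + 1))
    ((h2.2 K p W hW).1 (j + 1)).1 L
  have key : ∀ a : K, D (algebraMap K L (a ^ p ^ (j + 1))) = 0 := by
    intro a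
    rw [pow_succ, pow_mul, map_pow]
    exact W1_pow p L D _
  rw [e2, e4, e6]
  exact ⟨key W.a₂, key W.a₄, key W.a₆⟩

private theorem W1_smul {G : Type} [AddGroup G] (p : ℕ) [hp : Fact p.Prime] (R : G) (hR : R ≠ 0)
    (hpR : p • R = 0) (i : ℕ) (hi : 0 < i) (hip : i < p) : i • R ≠ 0 := by
  intro h
  have h1 : addOrderOf R = p := addOrderOf_eq_prime hpR hR
  have h2 : p ∣ i := by
    rw [← h1]
    exact addOrderOf_dvd_of_nsmul_eq_zero h
  exact absurd (Nat.le_of_dvd hi h2) (not_le.2 hip)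

theorem tW1 (h1 : S_Pts) (h2 : S_Bas) (h3 : S_Om) (h4 : S_Fr) (h5 : S_WAd) (h6 : S_Der)
    (h7 : S_Key) (h8 : S_Cnz) : S_W1 := by
  intro p hpf hp2 K _ _ W hW j L _ _
  have hLp : CharP L p := charP_of_injective_algebraMap (algebraMap K L).injective p
  have h2K : (2 : K) ≠ 0 := W1_two p hp2 K
  have h2L : (2 : L) ≠ 0 := W1_two p hp2 L
  have hWk : IsNf (fr p W (j + 1)) := ((h2.2 K p W hW).1 (j + 1)).1
  obtain ⟨-, hWL, -⟩ := h2.1 K h2K (fr p W (j + 1)) hWk L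
  have hWL' : IsNf ((fr p W (j + 1))⁄L).toAffine := hWL
  obtain ⟨hpt1, hpt2, -⟩ := h1 L h2L _ hWL'
  obtain ⟨f1, f2, f3, f4, f5, f6⟩ := h4 p hp2 K W hW j L
  constructor
  · intro A q hA hq
    have hq0 : q ≠ 0 := by
      rintro rfl
      rw [f1] at hq
      exact hq (AddSubgroup.zero_mem _)
    obtain ⟨-, hWj, -⟩ := h2.1 K h2K (fr p W j) ((h2.2 K p W hW).1 j).1 L
    obtain hq1 | ⟨x, y, hxy⟩ := (h1 L h2L _ hWj).1 q
    · exact absurd hq1 hq0
    have hT := f2 q x y hxy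
    obtain ⟨z, hz⟩ := h6 p L (wn p A (Fi p W j q)) (by
      intro D
      obtain ⟨d2, d4, d6⟩ := W1_coef h2 p hp2 K W hW j L D
      have hOm : IsOm D (Fi p W j q) 0 := by
        refine ⟨fun _ => rfl, ?_⟩
        intro x' y' hx'
        obtain ⟨-, ex, ey, -⟩ := hpt2 _ _ _ hT
        obtain ⟨-, ex', ey', -⟩ := hpt2 _ _ _ hx'
        have e1 : x' = x ^ p := by rw [← ex', ex]
        have e2 : y' = y ^ p := by rw [← ey', ey]
        rw [e1, e2, mul_zero, mul_zero]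
        exact ⟨W1_pow p L D x, W1_pow p L D y⟩
      have h := (h7 p hp2 L _ hWL' A (Fi p W j q) hA hq).1 D d2 d4 d6 0 hOm
      rw [h, mul_zero, zero_mul, neg_zero])
    have hne : wn p A (Fi p W j q) ≠ 0 :=
      (h5 L h2L _ hWL' p (AddSubgroup.zmultiples A) (Fi p W j q) (Fi p W j q) A
        (AddSubgroup.mem_zmultiples A)).1 hq
    refine ⟨z, ?_, hz.symm⟩
    rintro rfl
    rw [zero_pow hpf.out.ne_zero] at hz
    exact hne hz.symm
  · intro R T hR hpR hT hz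
    obtain ⟨z, hz⟩ := hz
    have hT0 : T ≠ 0 := by
      rintro rfl
      exact hT (AddSubgroup.zero_mem _)
    obtain hT1 | ⟨x, y, hxy⟩ := hpt1 T
    · exact absurd hT1 hT0
    have hiR : ∀ i, 0 < i → i < p → i • R ≠ 0 := fun i hi hip => W1_smul p R hR hpR i hi hip
    have hne : wn p R T ≠ 0 :=
      (h5 L h2L _ hWL' p (AddSubgroup.zmultiples R) T T R
        (AddSubgroup.mem_zmultiples R)).1 hT
    have hcR : cR p R ≠ 0 := h8 p hp2 K (fr p W (j + 1)) hWk L R hR hpR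
    have hkey := h7 p hp2 L _ hWL' R T hiR hT
    have hD : ∀ D : Derivation ℤ L L, D x = 0 ∧ D y = 0 := by
      intro D
      obtain ⟨d2, d4, d6⟩ := W1_coef h2 p hp2 K W hW j L D
      obtain ⟨w, hw⟩ := (h3 L h2L _ hWL' D d2 d4 d6).1 T
      have e := hkey.1 D d2 d4 d6 w hw
      rw [hkey.2 hpR, hz, W1_pow p L D z, ← hz] at e
      have e' : cR p R * w * wn p R T = 0 := by
        have e2 : -(-cR p R * w * wn p R T) = cR p R * w * wn p R T := by ring
        rw [← e2, ← e]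
      have hw0 : w = 0 := by
        rcases mul_eq_zero.1 e' with h | h
        · rcases mul_eq_zero.1 h with h | h
          · exact absurd h hcR
          · exact h
        · exact absurd h hne
      obtain ⟨e3, e4⟩ := hw.aff x y hxy
      rw [hw0, mul_zero] at e3 e4
      exact ⟨e3, e4⟩
    obtain ⟨ξ, hξ⟩ := h6 p L x (fun D => (hD D).1)
    obtain ⟨η, hη⟩ := h6 p L y (fun D => (hD D).2)
    obtain ⟨P₁, -, hP₁⟩ := f6 T ξ η (by rw [hξ, hη]; exact hxy)
    exact ⟨P₁, hP₁.symm⟩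

end Pool.Agent.MP72V
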