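import Pool.Agent.Lib.MP_72e2e6_nt.WP.Fd.Spec

/-!
# MP_72e2e6_nt, theorem T3 for odd characteristic, block Fd/WAd: additivity of `wn n R` in the second
variable
-/

namespace Pool.Agent.MP72V

open Polynomial WeierstrassCurve
open Pool.Agent.MP72W (pmap)
open Pool.Agent.MP72P (EqN)

open scoped Classical

private theorem wad_succ {L : Type} [Field L] {W : WeierstrassCurve.Affine L} (n : ℕ)
    (R T : W.Point) : wn (n + 1) R T = wn n R T * fv R (n • R) T := by
  unfold wn
  rw [Finset.prod_range_succ]

theorem tWAd (h1 : S_Nz) (h2 : S_Gg) : S_WAd := by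
  intro L _ h20 W hW n H c d R hR
  refine ⟨fun hc => ?_, fun hG => ?_⟩
  · unfold wn
    refine Finset.prod_ne_zero_iff.2 fun i _ => ?_
    exact ((h1 L h20 W hW).2.1 H _ _ c hR (H.nsmul_mem hR _) hc).2.2
  · induction n with
    | zero =>
      have h3 : Av c d (0 • R) = 1 := if_pos (zero_nsmul R)
      rw [h3]
      simp [wn]
    | succ n ih =>
      have h3 := h2 L h20 W hW H c d R (n • R) hG hR (H.nsmul_mem hR _)
      have e1 : (n + 1) • R = R + n • R := by rw [succ_nsmul, add_comm]
      rw [wad_succ, wad_succ, wad_succ, e1]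
      calc wn n R c * fv R (n • R) c * (wn n R d * fv R (n • R) d) * Av c d (R + n • R)
          = wn n R c * wn n R d * (fv R (n • R) c * fv R (n • R) d * Av c d (R + n • R)) := by ring
        _ = (wn n R c * wn n R d * Av c d (n • R)) * (fv R (n • R) (c + d) * Av c d R) := by
            rw [h3]; ring
        _ = wn n R (c + d) * fv R (n • R) (c + d) * Av c d R ^ (n + 1) := by
            rw [ih]; ring

end Pool.Agent.MP72V
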