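import Pool.Agent.Lib.MP_72e2e6_nt.WP.Fd.Spec

/-!
# MP_72e2e6_nt, theorem T3 for odd characteristic, block Fd, WF: the step (helper66)
-/

set_option autoImplicit false

namespace Pool.Agent.MP72V

open Polynomial WeierstrassCurve
open Pool.Agent.MP72W (pmap)
open Pool.Agent.MP72P (EqN)

open scoped Classical

/-- **WF**. The step. -/
theorem tWF (h1 : S_Bas) (_h2 : S_Fr) (h3 : S_Vh) (h4 : S_It) (h5 : S_WAd) (h6 : S_WRa)
    (h7 : S_Wmp) (h8 : S_W1) : S_WF := by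
  intro p hp hp2 K _ _ W hW L _ _ k R hR
  have h2K : (2 : K) ≠ 0 := by
    intro h
    have h2 : ((2 : ℕ) : K) = 0 := by exact_mod_cast h
    rw [CharP.cast_eq_zero_iff K p] at h2
    have h3 := (Nat.prime_dvd_prime_iff_eq hp.out Nat.prime_two).1 h2
    exact hp2 h3
  have hN : IsNf (fr p W (k + 1)) := ((h1.2 K p W hW).1 (k + 1)).1
  obtain ⟨h2L, hNL, -⟩ := h1.1 K h2K (fr p W (k + 1)) hN L
  have hRm : R ∈ AddSubgroup.zmultiples R := AddSubgroup.mem_zmultiples R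
  have hord : addOrderOf R = p ^ (k + 1) := ((h4 p hp2 K W hW L).2.2.2.2.2.2.2.1 (k + 1) R hR).1
  constructor
  · intro P₁ hP
    have hi : ∀ i, 0 < i → i < p → i • R ≠ 0 := by
      intro i hi0 hip h
      have h9 := addOrderOf_dvd_of_nsmul_eq_zero h
      rw [hord] at h9
      have h10 := Nat.le_of_dvd hi0 h9
      have h11 : p ^ 1 ≤ p ^ (k + 1) := Nat.pow_le_pow_right hp.out.pos (by omega)
      rw [pow_one] at h11
      omega
    obtain ⟨z, hz, hz1⟩ := (h8 p hp2 K W hW k L).1 R P₁ hi hP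
    refine ⟨z, hz, ?_⟩
    have h9 := (h6 L h2L _ hNL (AddSubgroup.zmultiples R) (Fi p W k P₁) R hRm hP).2.1 p (p ^ k)
    have h10 : Fi p W k (Vi p W k R) = p • R := (h3 p hp2 K W hW k L).2.2.2.1 R
    rw [← h10, h7.2 p hp2 K W hW k L, hz1, ← pow_mul, ← pow_succ'] at h9
    exact h9
  · intro T hT
    refine ⟨wn (p ^ k) R T, (h5 L h2L _ hNL (p ^ k) (AddSubgroup.zmultiples R) T T R hRm).1 hT, ?_⟩
    have h9 := (h6 L h2L _ hNL (AddSubgroup.zmultiples R) T R hRm hT).2.1 (p ^ k) p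
    rw [← pow_succ] at h9
    rw [h9, mul_comm]

end Pool.Agent.MP72V
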