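import Pool.Agent.Lib.MP_72e2e6_nt.WP.Fd.Spec

/-!
# MP_72e2e6_nt, theorem T3 for odd characteristic, block Fd: dependence on the first variable
-/

namespace Pool.Agent.MP72V

open Polynomial WeierstrassCurve
open Pool.Agent.MP72P (EqN)

open scoped Classical

private theorem wra_fv_zero_left {L : Type} [Field L] {W : WeierstrassCurve.Affine L}
    (Q T : W.Point) : fv 0 Q T = 1 := by
  simp [fv, nv, dv]

private theorem wra_fv_zero_right {L : Type} [Field L] {W : WeierstrassCurve.Affine L}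
    (P T : W.Point) : fv P 0 T = 1 := by
  simp [fv, nv, dv]

private theorem wra_prod {L : Type} [Field L] {W : WeierstrassCurve.Affine L}
    (H : AddSubgroup W.Point) (s : W.Point) (n : ℕ) (R : H) :
    ∏ i ∈ Finset.range n, (fun A B : H => fv (A : W.Point) (B : W.Point) s) R (i • R) =
      wn n (R : W.Point) s := by
  unfold wn
  refine Finset.prod_congr rfl fun i _ => ?_
  simp only [AddSubgroup.coe_nsmul]

private theorem wra_prod' {L : Type} [Field L] {W : WeierstrassCurve.Affine L}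
    (H : AddSubgroup W.Point) (s : W.Point) (n m : ℕ) (R : H) :
    ∏ i ∈ Finset.range n, (fun A B : H => fv (A : W.Point) (B : W.Point) s) (m • R)
      (i • m • R) = wn n (m • (R : W.Point)) s := by
  unfold wn
  refine Finset.prod_congr rfl fun i _ => ?_
  simp only [AddSubgroup.coe_nsmul]

theorem tWRa (_h1 : S_Pts) (h2 : S_Fco) (h3 : S_Exc) (h4 : S_Nz) (h5 : S_Ccm) : S_WRa := by
  intro L _ hL W hW H s R hR hs
  have hs0 : s ≠ 0 := by
    rintro rfl
    exact hs H.zero_mem
  obtain ⟨-, hfco⟩ := h2 L hL W hW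
  obtain ⟨-, -, hexc⟩ := h3 L hL W hW
  obtain ⟨-, hnz, -⟩ := h4 L hL W hW
  obtain ⟨hc1, hc2⟩ := h5 H L (fun A B : H => fv (A : W.Point) (B : W.Point) s)
    (fun A B => (hnz H A B s A.2 B.2 hs).2.2)
    (fun A B => (hexc A B s).1)
    (fun A => wra_fv_zero_right (A : W.Point) s)
    (fun A B C => hfco A B C s hs0 (hnz H A B s A.2 B.2 hs).2.1
      (hnz H (A + B) C s (H.add_mem A.2 B.2) C.2 hs).2.1
      (hnz H B C s B.2 C.2 hs).2.1
      (hnz H A (B + C) s A.2 (H.add_mem B.2 C.2) hs).2.1)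
  have e1 : ∀ (n : ℕ) (R R' : W.Point), R ∈ H → R' ∈ H →
      wn n R s * wn n R' s * fv (n • R) (n • R') s = wn n (R + R') s * fv R R' s ^ n := by
    intro n R R' hR hR'
    have h := hc1 n ⟨R, hR⟩ ⟨R', hR'⟩
    rw [wra_prod, wra_prod, wra_prod] at h
    simpa using h
  have e2 : ∀ (m n : ℕ), wn (m * n) R s = wn m R s ^ n * wn n (m • R) s := by
    intro m n
    have h := hc2 m n ⟨R, hR⟩
    rw [wra_prod, wra_prod, wra_prod'] at h
    simpa using h
  refine ⟨fun n R' hR' => e1 n R R' hR hR', e2, ?_⟩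
  intro n m hn
  induction m with
  | zero =>
    refine ⟨1, one_ne_zero, ?_⟩
    have : wn n (0 : W.Point) s = 1 := by
      unfold wn
      exact Finset.prod_eq_one fun i _ => wra_fv_zero_left _ _
    simp [this]
  | succ m ih =>
    obtain ⟨t, ht, htt⟩ := ih
    have hmR : m • R ∈ H := H.nsmul_mem hR m
    have h := e1 n (m • R) R hmR hR
    have hz : n • m • R = 0 := by
      rw [← mul_smul, mul_comm, mul_smul, hn, smul_zero]
    rw [hz, wra_fv_zero_left, mul_one, htt] at h
    have hf : fv (m • R) R s ≠ 0 := (hnz H (m • R) R s hmR hR hs).2.2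
    refine ⟨t / fv (m • R) R s, div_ne_zero ht hf, ?_⟩
    rw [succ_nsmul, div_pow]
    have hfn : fv (m • R) R s ^ n ≠ 0 := pow_ne_zero _ hf
    field_simp
    rw [← h]
    ring

end Pool.Agent.MP72V
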