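import Pool.Agent.Lib.MP_72e2e6_nt.WP.Fd.Spec

/-!
# MP_72e2e6_nt, T3 for odd characteristic, block Fd: the kernel
-/

namespace Pool.Agent.MP72V

open Polynomial WeierstrassCurve
open Pool.Agent.MP72W (pmap)
open Pool.Agent.MP72P (EqN)

open scoped Classical

private theorem Wkr_zsm {G H : Type*} [AddGroup G] [AddGroup H] {f : G → H}
    (h : ∀ a b, f (a + b) = f a + f b) (m : ℤ) (a : G) : f (m • a) = m • f a :=
  (AddMonoidHom.mk' f h).map_zsmul m a

private theorem Wkr_pow {L : Type*} [Field L] {p k : ℕ} (a b : L) :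
    a ^ p ^ (k + 1) / b ^ p ^ (k + 1) = ((a / b) ^ p ^ k) ^ p := by
  rw [← pow_mul, ← pow_succ, div_pow]

theorem tWkr (h1 : S_Fr) (h2 : S_Vh) (h3 : S_It) (h4 : S_W1) (h5 : S_WF) : S_Wkr := by
  intro p _ hp2 K _ _ W hW L _ _ k
  have hc : CharP L p := charP_of_injective_algebraMap (algebraMap K L).injective p
  obtain ⟨-, -, -, -, -, -, -, f8, f9, -⟩ := h3 p hp2 K W hW L
  induction k with
  | zero =>
    intro R _ P _
    refine ⟨fun _ => ⟨P, rfl⟩, fun _ => ⟨1, one_ne_zero, ?_⟩⟩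
    simp [wn, fv, nv, dv]
  | succ k ih =>
    intro R hR P hP
    obtain ⟨-, -, a3, -, -, -⟩ := h1 p hp2 K W hW k L
    obtain ⟨-, -, -, v4, -⟩ := h2 p hp2 K W hW k L
    obtain ⟨-, b2⟩ := h4 p hp2 K W hW k L
    obtain ⟨w1, w2⟩ := h5 p hp2 K W hW L k R hR
    have hR1 := f9 k R hR
    have hord := (f8 (k + 1) R hR).1
    have hnot : ∀ P₁ : Pt p W k L, P = Fi p W k P₁ →
        P₁ ∉ AddSubgroup.zmultiples (Vi p W k R) := by
      rintro P₁ h ⟨m, hm⟩
      apply hP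
      have hm' : m • Vi p W k R = P₁ := hm
      rw [h, ← hm', Wkr_zsm a3, v4]
      exact AddSubgroup.zsmul_mem _ (AddSubgroup.nsmul_mem _ (AddSubgroup.mem_zmultiples R) p) m
    constructor
    · rintro ⟨s, hs, hsw⟩
      obtain ⟨t, ht, htw⟩ := w2 P hP
      rw [one_mul] at hsw
      have hx : wn p (p ^ k • R) P = (s ^ p ^ k / t) ^ p := by
        rw [div_pow, ← pow_mul, ← pow_succ, eq_div_iff (pow_ne_zero p ht), ← htw, hsw]
      obtain ⟨P₁, hp₁⟩ := b2 (p ^ k • R) P (hR.2 k (Nat.lt_succ_self k)) (by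
        rw [← mul_smul, ← pow_succ', ← hord]
        exact addOrderOf_nsmul_eq_zero R) (fun h => hP (by
        obtain ⟨m, hm⟩ := h
        have hm' : m • p ^ k • R = P := hm
        rw [← hm']
        exact AddSubgroup.zsmul_mem _
          (AddSubgroup.nsmul_mem _ (AddSubgroup.mem_zmultiples R) _) m)) ⟨_, hx⟩
      obtain ⟨s', hs', hw'⟩ := w1 P₁ (by rw [← hp₁]; exact hP)
      rw [← hp₁, hsw] at hw'
      have h6 : wn (p ^ k) (Vi p W k R) P₁ = (s / s') ^ p ^ k := by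
        apply frobenius_inj L p
        rw [frobenius_def, frobenius_def, ← Wkr_pow, eq_div_iff (pow_ne_zero _ hs'), hw', mul_comm]
      obtain ⟨q, hq⟩ := (ih (Vi p W k R) hR1 P₁ (hnot P₁ hp₁)).1
        ⟨s / s', div_ne_zero hs hs', by rw [h6, one_mul]⟩
      exact ⟨q, by rw [hp₁, hq]; rfl⟩
    · rintro ⟨q, hq⟩
      have hq' : P = Fi p W k (Fn p W k q) := hq
      obtain ⟨t, ht, htw⟩ := (ih (Vi p W k R) hR1 _ (hnot _ hq')).2 ⟨q, rfl⟩
      obtain ⟨s', hs', hw'⟩ := w1 (Fn p W k q) (by rw [← hq']; exact hP)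
      rw [← hq', htw] at hw'
      refine ⟨s' * t, mul_ne_zero hs' ht, ?_⟩
      rw [hw', one_mul, one_mul, ← pow_mul, ← pow_succ, mul_pow]

end Pool.Agent.MP72V
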