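import Pool.Agent.Lib.MP_72e2e6_nt.WP.Fd.Spec

/-!
# MP_72e2e6_nt, theorem T3 for odd characteristic, block Fd: the homomorphism modulo `p ^ k`-th
powers (helper51, adapted from `W2/D/Wt.lean` by helper71)
-/

namespace Pool.Agent.MP72V

open Polynomial WeierstrassCurve
open Pool.Agent.MP72W (pmap)
open Pool.Agent.MP72P (EqN)

open scoped Classical

/-- units modulo `N`-th powers -/
private abbrev WtA (L : Type) [Field L] (N : ℕ) : Type :=
  Lˣ ⧸ (powMonoidHom N : Lˣ →* Lˣ).range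

private theorem Wt_eq {L : Type} [Field L] {N : ℕ} (a b : Lˣ) :
    ((a : WtA L N) = (b : WtA L N)) ↔ EqN N (a : L) (b : L) := by
  rw [QuotientGroup.eq]
  constructor
  · rintro ⟨u, hu⟩
    have hu' : u ^ N = a⁻¹ * b := hu
    refine ⟨(u⁻¹ : Lˣ), Units.ne_zero _, ?_⟩
    rw [← Units.val_pow_eq_pow_val, ← Units.val_mul, Units.val_inj, inv_pow, hu', mul_inv_rev,
      inv_inv, mul_inv_cancel_left]
  · rintro ⟨s, hs, h⟩
    refine ⟨(Units.mk0 s hs)⁻¹, ?_⟩
    change ((Units.mk0 s hs)⁻¹) ^ N = a⁻¹ * b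
    have h1 : a = b * (Units.mk0 s hs) ^ N := by
      rw [← Units.val_inj, h]
      rfl
    rw [h1, inv_pow, mul_inv_rev, inv_mul_cancel_right]

private theorem Wt_sub {G H : Type*} [AddGroup G] [AddGroup H] {f : G → H}
    (h : ∀ a b, f (a + b) = f a + f b) (a b : G) : f (a - b) = f a - f b :=
  (AddMonoidHom.mk' f h).map_sub a b

private theorem Wt_two (p : ℕ) [hp : Fact p.Prime] (hp2 : p ≠ 2) (K : Type) [Field K] [CharP K p] :
    (2 : K) ≠ 0 := by
  intro h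
  have h' : ((2 : ℕ) : K) = 0 := by exact_mod_cast h
  have h1 : p ∣ 2 := (CharP.cast_eq_zero_iff K p 2).1 h'
  exact hp2 ((Nat.prime_dvd_prime_iff_eq hp.out Nat.prime_two).1 h1)

theorem tWt (h1 : S_Bas) (_h2 : S_Fr) (h3 : S_It) (h4 : S_Rk) (h5 : S_WAd) (h6 : S_Wkr)
    (h7 : S_Ext) : S_Wt := by
  intro p hpf hp2 K _ _ W hW L _ _ _ k R hR
  have hppos : p ^ k ≠ 0 := (pow_pos hpf.out.pos k).ne'
  have h2K : (2 : K) ≠ 0 := Wt_two p hp2 K
  have hWk : IsNf (fr p W k) := ((h1.2 K p W hW).1 k).1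
  obtain ⟨h2L, hWL, -⟩ := h1.1 K h2K (fr p W k) hWk L
  obtain ⟨f1, f2, f3, f4, f5, f6, f7, f8, f9, f10⟩ := h3 p hp2 K W hW L
  have i0 : Infinite (Pt p W 0 L) := (h4 p hp2 K W hW L).2 0
  have ik : Infinite (Pt p W k L) := (h4 p hp2 K W hW L).2 k
  obtain ⟨H, hH⟩ : ∃ H : AddSubgroup (Pt p W k L), H = AddSubgroup.zmultiples R := ⟨_, rfl⟩
  have hRH : R ∈ H := by rw [hH]; exact AddSubgroup.mem_zmultiples R
  have hord := (f8 k R hR).1
  have hfin : (H : Set (Pt p W k L)).Finite := by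
    rw [hH, finite_zmultiples, ← addOrderOf_pos_iff, hord]
    exact Nat.pos_of_ne_zero hppos
  have hR0 : p ^ k • R = 0 := by
    rw [← hord]
    exact addOrderOf_nsmul_eq_zero R
  have hW0 : ∀ c : Pt p W k L, c ∉ H → wn (p ^ k) R c ≠ 0 := fun c =>
    (h5 L h2L _ hWL (p ^ k) H c c R hRH).1
  have hadd : ∀ c d : Pt p W k L, c ∉ H → d ∉ H → c + d ∉ H → c - d ∉ H →
      wn (p ^ k) R c * wn (p ^ k) R d = wn (p ^ k) R (c + d) * Av c d R ^ (p ^ k) := by
    intro c d hc hd hs hm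
    have h := (h5 L h2L _ hWL (p ^ k) H c d R hRH).2 ⟨hc, hd, hs, hm⟩
    rw [hR0] at h
    have hAv : Av c d (0 : Pt p W k L) = 1 := if_pos rfl
    rw [hAv, mul_one] at h
    exact h
  obtain ⟨w, hw⟩ : ∃ w : Pt p W k L → WtA L (p ^ k), ∀ (c : Pt p W k L) (h : c ∉ H),
      w c = (Units.mk0 (wn (p ^ k) R c) (hW0 c h) : Lˣ) :=
    ⟨fun c => if h : c ∉ H then ((Units.mk0 (wn (p ^ k) R c) (hW0 c h) : Lˣ) : WtA L (p ^ k))
      else 1, fun c h => dif_pos h⟩
  obtain ⟨w', hadd', hgen⟩ := h7 (Pt p W k L) (WtA L (p ^ k)) H hfin w (by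
    intro c d e1 e2 e3 e4
    rw [hw _ e1, hw _ e2, hw _ e3]
    have e5 := hadd c d e1 e2 e3 e4
    rw [← QuotientGroup.mk_mul, eq_comm, Wt_eq]
    refine ⟨Av c d R, ?_, ?_⟩
    · intro e6
      rw [e6, zero_pow hppos, mul_zero] at e5
      exact mul_ne_zero (hW0 c e1) (hW0 d e2) e5
    · rw [Units.val_mul, Units.val_mk0, Units.val_mk0, Units.val_mk0, e5])
  have hout : ∀ q, (((w' q).out : Lˣ) : WtA L (p ^ k)) = w' q := fun q => QuotientGroup.out_eq' _
  -- the value is `1` on the image of `Fn`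
  have hFn1 : ∀ q : Pt p W 0 L, Fn p W k q ∉ H → w' (Fn p W k q) = 1 := by
    intro q hq
    rw [hgen _ hq, hw _ hq, ← QuotientGroup.mk_one, Wt_eq, Units.val_mk0, Units.val_one]
    exact (h6 p hp2 K W hW L k R hR _ (by rw [← hH]; exact hq)).2 ⟨q, rfl⟩
  have hfinpre : ∀ a : Pt p W k L, {q : Pt p W 0 L | a + Fn p W k q ∈ H}.Finite := by
    intro a
    refine Set.Finite.preimage (f := fun q => a + Fn p W k q) ?_ hfin
    intro q _ q' _ h
    exact f5 k _ _ (add_left_cancel h)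
  have hFn2 : ∀ q : Pt p W 0 L, w' (Fn p W k q) = 1 := by
    intro q
    obtain ⟨q', hq'⟩ := ((hfinpre 0).union (hfinpre (Fn p W k q))).exists_notMem
    have hq1 : Fn p W k q' ∉ H := fun h => hq' (Or.inl (by
      change 0 + Fn p W k q' ∈ H
      rwa [zero_add]))
    have hq2 : Fn p W k q + Fn p W k q' ∉ H := fun h => hq' (Or.inr h)
    have e1 := hFn1 q' hq1
    have e2 := hFn1 (q + q') (by rw [f1]; exact hq2)
    rw [f1, hadd', e1] at e2
    exact (mul_one _).symm.trans e2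
  refine ⟨fun q => ((w' q).out : Lˣ), ?_, ?_, ?_, ?_⟩
  · intro q
    exact Units.ne_zero _
  · intro q q'
    rw [← Units.val_mul, ← Wt_eq, QuotientGroup.mk_mul, hout, hout, hout, hadd']
  · intro q hq
    have hq' : q ∉ H := by rw [hH]; exact hq
    have := Wt_eq (N := p ^ k) ((w' q).out) (Units.mk0 (wn (p ^ k) R q) (hW0 q hq'))
    rw [Units.val_mk0] at this
    rw [← this, hout, hgen _ hq', hw _ hq']
  · intro P
    have e1 := Wt_eq (N := p ^ k) ((w' P).out) 1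
    rw [Units.val_one, hout, QuotientGroup.mk_one] at e1
    rw [← e1]
    constructor
    · intro hP
      obtain ⟨q, hq⟩ := (hfinpre P).exists_notMem
      have hq' : P + Fn p W k q ∉ H := hq
      have e2 : w' (P + Fn p W k q) = 1 := by
        rw [hadd', hP, hFn2]
        exact one_mul (1 : WtA L (p ^ k))
      rw [hgen _ hq', hw _ hq', ← QuotientGroup.mk_one, Wt_eq, Units.val_mk0, Units.val_one,
        h6 p hp2 K W hW L k R hR _ (by rw [← hH]; exact hq')] at e2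
      obtain ⟨q'', hq''⟩ := e2
      refine ⟨q'' - q, ?_⟩
      rw [Wt_sub (f1 k), ← hq'', add_sub_cancel_right]
    · rintro ⟨q, rfl⟩
      exact hFn2 q

end Pool.Agent.MP72V
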