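import Pool.Agent.Lib.MP_72e2e6_nt.WP.Fd.Spec

/-!
# MP_72e2e6_nt, theorem T3 for odd characteristic, block Fd: compatibility with homomorphisms of
fields (helper51, adapted from `W2/D/Wtc.lean` by helper71)
-/

namespace Pool.Agent.MP72V

open Polynomial WeierstrassCurve
open Pool.Agent.MP72W (pmap)
open Pool.Agent.MP72P (EqN)

open scoped Classical

section

variable {L M : Type} [Field L] [Field M] {N : ℕ} {a b c d : L}

private theorem Wtc_symm (h : EqN N a b) : EqN N b a := by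
  obtain ⟨s, hs, rfl⟩ := h
  exact ⟨s⁻¹, inv_ne_zero hs, by
    rw [mul_assoc, ← mul_pow, mul_inv_cancel₀ hs, one_pow, mul_one]⟩

private theorem Wtc_trans (h : EqN N a b) (h' : EqN N b c) : EqN N a c := by
  obtain ⟨s, hs, rfl⟩ := h
  obtain ⟨t, ht, rfl⟩ := h'
  exact ⟨t * s, mul_ne_zero ht hs, by rw [mul_pow, mul_assoc]⟩

private theorem Wtc_pow (h : EqN N a b) (m : ℕ) : EqN N (a ^ m) (b ^ m) := by
  obtain ⟨s, hs, rfl⟩ := h
  exact ⟨s ^ m, pow_ne_zero m hs, by rw [mul_pow, ← pow_mul, ← pow_mul, mul_comm N m]⟩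

private theorem Wtc_map (f : L →+* M) (h : EqN N a b) : EqN N (f a) (f b) := by
  obtain ⟨s, hs, rfl⟩ := h
  exact ⟨f s, by rwa [ne_eq, map_eq_zero], by rw [map_mul, map_pow]⟩

private theorem Wtc_cancel (h : EqN N (a * c) (b * d)) (h' : EqN N c d) (hd : d ≠ 0) :
    EqN N a b := by
  obtain ⟨s, hs, h⟩ := h
  obtain ⟨t, ht, rfl⟩ := h'
  refine ⟨s / t, div_ne_zero hs ht, ?_⟩
  have htN := pow_ne_zero N ht
  rw [div_pow, mul_div_assoc', eq_div_iff htN]
  apply mul_left_cancel₀ hd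
  calc d * (a * t ^ N) = a * (d * t ^ N) := by ring
    _ = b * d * s ^ N := h
    _ = d * (b * s ^ N) := by ring

end

private theorem Wtc_two (p : ℕ) [hp : Fact p.Prime] (hp2 : p ≠ 2) (K : Type) [Field K]
    [CharP K p] : (2 : K) ≠ 0 := by
  intro h
  have h' : ((2 : ℕ) : K) = 0 := by exact_mod_cast h
  have h1 : p ∣ 2 := (CharP.cast_eq_zero_iff K p 2).1 h'
  exact hp2 ((Nat.prime_dvd_prime_iff_eq hp.out Nat.prime_two).1 h1)

theorem tWtc (h1 : S_Bas) (h2 : S_It) (h3 : S_Rk) (h4 : S_WRa) (h5 : S_Wmp) : S_Wtc := by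
  intro p hpf hp2 K _ _ W hW L _ _ _ k R hR w hw S M _ _ _ _ _ _ _ _ f R' hR' w' hw' m hm
  have hppos : p ^ k ≠ 0 := (pow_pos hpf.out.pos k).ne'
  have h2K : (2 : K) ≠ 0 := Wtc_two p hp2 K
  have hWk : IsNf (fr p W k) := ((h1.2 K p W hW).1 k).1
  have ik : Infinite (Pt p W k L) := (h3 p hp2 K W hW L).2 k
  obtain ⟨h2M, hWM, -⟩ := h1.1 K h2K (fr p W k) hWk M
  obtain ⟨-, -, -, -, -, hL⟩ := h1.1 K h2K (fr p W k) hWk L
  have hinj : Function.Injective (pmap (fr p W k) f) := (hL S M f).2.1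
  have hfin : ((AddSubgroup.zmultiples R : AddSubgroup (Pt p W k L)) :
      Set (Pt p W k L)).Finite := by
    rw [finite_zmultiples, ← addOrderOf_pos_iff,
      ((h2 p hp2 K W hW L).2.2.2.2.2.2.2.1 k R hR).1]
    exact Nat.pos_of_ne_zero hppos
  have hord' := ((h2 p hp2 K W hW M).2.2.2.2.2.2.2.1 k R' hR').1
  have hfin' : ((AddSubgroup.zmultiples R' : AddSubgroup (Pt p W k M)) :
      Set (Pt p W k M)).Finite := by
    rw [finite_zmultiples, ← addOrderOf_pos_iff, hord']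
    exact Nat.pos_of_ne_zero hppos
  have hR0 : p ^ k • R' = 0 := by
    rw [← hord']
    exact addOrderOf_nsmul_eq_zero R'
  -- generic points
  have key : ∀ P : Pt p W k L, P ∉ AddSubgroup.zmultiples R →
      pmap (fr p W k) f P ∉ AddSubgroup.zmultiples R' →
      EqN (p ^ k) (f (w P)) (w' (pmap (fr p W k) f P) ^ m) := by
    intro P k1 k2
    have e1 : EqN (p ^ k) (f (w P)) (f (wn (p ^ k) R P)) := Wtc_map (f : L →+* M) (hw.gen P k1)
    rw [← ((h5.1 K h2K (fr p W k) hWk L S M f).2.2 (p ^ k) R P), hm] at e1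
    have e2 := (h4 M h2M _ hWM (AddSubgroup.zmultiples R') (pmap (fr p W k) f P) R'
      (AddSubgroup.mem_zmultiples R') k2).2.2 (p ^ k) m hR0
    have e3 := Wtc_pow (hw'.gen _ k2) m
    exact Wtc_trans (Wtc_trans e1 e2) (Wtc_symm e3)
  intro P
  have hpre : ∀ a : Pt p W k L, {q : Pt p W k L | a + q ∈ AddSubgroup.zmultiples R}.Finite ∧
      {q : Pt p W k L | pmap (fr p W k) f (a + q) ∈ AddSubgroup.zmultiples R'}.Finite := by
    intro a
    constructor
    · refine Set.Finite.preimage (f := fun q => a + q) ?_ hfin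
      intro q _ q' _ h
      exact add_left_cancel h
    · refine Set.Finite.preimage (f := fun q => pmap (fr p W k) f (a + q)) ?_ hfin'
      intro q _ q' _ h
      exact add_left_cancel (hinj h)
  obtain ⟨q, hq⟩ := (((hpre 0).1.union (hpre 0).2).union
    ((hpre P).1.union (hpre P).2)).exists_notMem
  have q1 : q ∉ AddSubgroup.zmultiples R := fun h => hq (Or.inl (Or.inl (by
    change 0 + q ∈ AddSubgroup.zmultiples R
    rwa [zero_add])))
  have q2 : pmap (fr p W k) f q ∉ AddSubgroup.zmultiples R' := fun h =>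
    hq (Or.inl (Or.inr (by
      change pmap (fr p W k) f (0 + q) ∈ AddSubgroup.zmultiples R'
      rwa [zero_add])))
  have q3 : P + q ∉ AddSubgroup.zmultiples R := fun h => hq (Or.inr (Or.inl h))
  have q4 : pmap (fr p W k) f (P + q) ∉ AddSubgroup.zmultiples R' := fun h =>
    hq (Or.inr (Or.inr h))
  have e1 := key q q1 q2
  have e2 := key (P + q) q3 q4
  have e3 : EqN (p ^ k) (f (w (P + q))) (f (w P) * f (w q)) := by
    have := Wtc_map (f : L →+* M) (hw.add P q)
    rw [map_mul] at this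
    exact this
  have e4 : EqN (p ^ k) (w' (pmap (fr p W k) f (P + q)) ^ m)
      (w' (pmap (fr p W k) f P) ^ m * w' (pmap (fr p W k) f q) ^ m) := by
    rw [map_add, ← mul_pow]
    exact Wtc_pow (hw'.add _ _) m
  exact Wtc_cancel (Wtc_trans (Wtc_trans (Wtc_symm e3) e2) e4) e1 (pow_ne_zero m (hw'.ne _))

end Pool.Agent.MP72V
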