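import Pool.Agent.Lib.MP_72e2e6_nt.WP.El.Defs
import Pool.Agent.Lib.MP_72e2e6_nt.P3.Defs

/-!
# MP_72e2e6_nt, theorem T3 for odd characteristic, block Fd (functions on the curves): definitions
-/

namespace Pool.Agent.MP72V

open Polynomial WeierstrassCurve
open Pool.Agent.MP72W (pmap)
open Pool.Agent.MP72P (EqN)

open scoped Classical

section

variable {L : Type} [Field L]

/-- The slope of the line through `P` and `Q` (tangent line if `P = Q`). -/
noncomputable def sl {W : WeierstrassCurve.Affine L} (P Q : W.Point) : L :=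
  W.slope (px P) (px Q) (py P) (py Q)

/-- The numerator of the function `f_(P, Q)` with divisor `[P] + [Q] - [P + Q] - [O]`. -/
noncomputable def nR {W : WeierstrassCurve.Affine L} (P Q : W.Point) : W.CoordinateRing :=
  if P = 0 ∨ Q = 0 then 1 else if P + Q = 0 then Affine.CoordinateRing.XClass W (px P)
    else Affine.CoordinateRing.YClass W (Affine.linePolynomial (px P) (py P) (sl P Q))

/-- The denominator. -/
noncomputable def dR {W : WeierstrassCurve.Affine L} (P Q : W.Point) : W.CoordinateRing :=
  if P = 0 ∨ Q = 0 ∨ P + Q = 0 then 1 else Affine.CoordinateRing.XClass W (px (P + Q))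

/-- The value of `nR P Q` at `T`. -/
noncomputable def nv {W : WeierstrassCurve.Affine L} (P Q T : W.Point) : L :=
  if P = 0 ∨ Q = 0 then 1 else if P + Q = 0 then px T - px P
    else py T - py P - sl P Q * (px T - px P)

/-- The value of `dR P Q` at `T`. -/
noncomputable def dv {W : WeierstrassCurve.Affine L} (P Q T : W.Point) : L :=
  if P = 0 ∨ Q = 0 ∨ P + Q = 0 then 1 else px T - px (P + Q)

/-- The value of `f_(P, Q)` at `T`. -/
noncomputable def fv {W : WeierstrassCurve.Affine L} (P Q T : W.Point) : L := nv P Q T / dv P Q T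

/-- The function of `X` occurring in the additivity of `wn`. -/
noncomputable def Av {W : WeierstrassCurve.Affine L} (c d X : W.Point) : L :=
  if X = 0 then 1 else fv (-c) (-d) (-X)

/-- The value at `T` of the function with divisor `n [R] - [n R] - (n - 1) [O]`. -/
noncomputable def wn {W : WeierstrassCurve.Affine L} (n : ℕ) (R T : W.Point) : L :=
  ∏ i ∈ Finset.range n, fv R (i • R) T

/-- `c`, `d` are generic with respect to the subgroup `H`. -/
structure Gen {W : WeierstrassCurve.Affine L} (H : AddSubgroup W.Point) (c d : W.Point) :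
    Prop where
  hc : c ∉ H
  hd : d ∉ H
  hs : c + d ∉ H
  hm : c - d ∉ H

/-- The ideal of the point `P` (the unit ideal for `O`). -/
noncomputable def Ip {W : WeierstrassCurve.Affine L} (P : W.Point) : Ideal W.CoordinateRing :=
  if P = 0 then ⊤ else Affine.CoordinateRing.XYIdeal W (px P) (C (py P))

/-- The element `a(X) + b(X) Y` of the coordinate ring. -/
noncomputable def el (W : WeierstrassCurve.Affine L) (a b : L[X]) : W.CoordinateRing :=
  a • (1 : W.CoordinateRing) + b • Affine.CoordinateRing.mk W X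

/-- `z = a(X) + b(X) Y` is monic of degree `d` at infinity (`X` has degree `2`, `Y` has
degree `3`). -/
def Mn (W : WeierstrassCurve.Affine L) (z : W.CoordinateRing) (d : ℕ) : Prop :=
  ∃ (a b : L[X]) (e : ℕ), z = el W a b ∧
    ((d = 2 * e ∧ a.Monic ∧ a.natDegree = e ∧ b.degree + 1 < e) ∨
      (d = 2 * e + 3 ∧ b.Monic ∧ b.natDegree = e ∧ a.degree < (e : WithBot ℕ) + 2))

/-- The sum of slopes which is the logarithmic derivative of `wn p A` (up to the sign). -/
noncomputable def SA {W : WeierstrassCurve.Affine L} (n : ℕ) (A T : W.Point) : L :=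
  ∑ i ∈ Finset.range n, sl (T - i • A) (-A)

/-- The sum of slopes `c(R)`. -/
noncomputable def cR {W : WeierstrassCurve.Affine L} (n : ℕ) (R : W.Point) : L :=
  ∑ j ∈ Finset.Ico 1 (n - 1), sl (j • R) R

/-- `(x, y)` with `x, y` in the set `s`. -/
def CIn {W : WeierstrassCurve.Affine L} (P : W.Point) (s : Set L) : Prop := px P ∈ s ∧ py P ∈ s

end

section

variable {K : Type} [Field K] (p : ℕ) (W : WeierstrassCurve K) {L : Type} [Field L] [Algebra K L]

/-- The properties of the homomorphism `E_k(L) → Lˣ / (Lˣ) ^ (p ^ k)` given by `wn (p ^ k) R`. -/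
structure IsWt (k : ℕ) (R : Pt p W k L) (w : Pt p W k L → L) : Prop where
  ne : ∀ P, w P ≠ 0
  add : ∀ P Q, EqN (p ^ k) (w (P + Q)) (w P * w Q)
  gen : ∀ P, P ∉ AddSubgroup.zmultiples R → EqN (p ^ k) (w P) (wn (p ^ k) R P)
  ker : ∀ P, EqN (p ^ k) (w P) 1 ↔ ∃ q, P = Fn p W k q

end

end Pool.Agent.MP72V
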