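import Pool.Agent.Lib.MP_72e2e6_nt.WP.Fd.Defs
import Pool.Agent.Lib.MP_72e2e6_nt.WP.El.Spec

/-!
# MP_72e2e6_nt, theorem T3 for odd characteristic, block Fd (functions on the curves)

The proofs are complete in the docstrings; every module is independent (used statements are
hypotheses): file `WP/Fd/<Name>.lean` (import this file only) with `theorem t<Name> : S_<Name>` or
`theorem t<Name> (h1 : S_X) (h2 : S_Y) .. : S_<Name>` (in the order of the docstring), namespace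
`Pool.Agent.MP72V`, other declarations `private`. Use `open scoped Classical`. `O = 0` is the point at
infinity, `f(x) = x ^ 3 + a₂ x ^ 2 + a₄ x + a₆`, `x_P = px P`, `y_P = py P`. Many modules have an analogue in
characteristic two, `W2/D/<Name>.lean` (statement in `W2/D/Spec.lean`), whose proof can be adapted.
-/

namespace Pool.Agent.MP72V

open Polynomial WeierstrassCurve
open Pool.Agent.MP72W (pmap)
open Pool.Agent.MP72P (EqN)

open scoped Classical

/-- **Sl** (200 lines, uses `S_Pts`). Slopes.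

Proof. (1), (2): `Affine.slope_of_X_ne`, `Affine.slope_of_Y_ne` with `a₁ = a₃ = 0`. (3) `px P = px Q` implies
`Q = P` or `Q = -P` (`S_Pts` (6)); `P + P ≠ 0` implies `py P ≠ 0` (`S_Pts` (9)). (4) If `px P ≠ px Q` use (1) and
`S_Pts` (7); otherwise `Q = P`, (2) and `S_Pts` (8). For `sl P Q = sl Q (-(P + Q))`: let `λ = sl P Q`; by the
first formulas `y_Q + y_{P+Q} = λ (x_Q - x_{P+Q})`. If `x_Q ≠ x_{P+Q}` this is the claim. Otherwise
`P + Q = Q` (no, `P ≠ O`) or `P + Q = - Q`, `P = - 2 Q`, and the claim is `sl P Q = sl Q Q`: if `P = Q` it is trivial;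
if `P ≠ Q` then `x_P ≠ x_Q` (`P = - Q` is excluded) and, with `μ = sl Q Q`, `y_{2Q} = μ (x_Q - x_{2Q}) - y_Q`, so
`y_Q - y_P = y_Q + y_{2Q} = μ (x_Q - x_P)`. -/
def S_Sl : Prop :=
  ∀ (L : Type) [Field L], (2 : L) ≠ 0 → ∀ W : WeierstrassCurve.Affine L, IsNf W →
    (∀ (P Q : W.Point) (x y x' y' : L), XY P x y → XY Q x' y' → x ≠ x' →
      sl P Q = (y - y') / (x - x')) ∧
    (∀ (P : W.Point) (x y : L), XY P x y → y ≠ 0 →
      sl P P = (3 * x ^ 2 + 2 * W.a₂ * x + W.a₄) / (2 * y)) ∧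
    (∀ P Q : W.Point, P ≠ 0 → Q ≠ 0 → px P = px Q → Q = P ∨ Q = -P) ∧
    ∀ P Q : W.Point, P ≠ 0 → Q ≠ 0 → P + Q ≠ 0 →
      px (P + Q) = sl P Q ^ 2 - W.a₂ - px P - px Q ∧
      py (P + Q) = sl P Q * (px P - px (P + Q)) - py P ∧ sl P Q = sl Q P ∧
      py Q = py P + sl P Q * (px Q - px P) ∧ sl (-P) (-Q) = -sl P Q ∧
      sl P Q = sl Q (-(P + Q))

/-- **Mon** (250 lines). Elements which are monic at infinity.

Proof. (1), (2): `W.CoordinateRing` is a free `L[X]`-module with the basis `1, Y`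
(`Affine.CoordinateRing.exists_smul_basis_eq`, `smul_basis_eq_zero`). (3): `Y ^ 2 = f(X)`. (4)-(6):
`(a, b, e) = (1, 0, 0)`, `(X - x, 0, 1)`, `(- line, 1, 0)` (`XClass W x = mk W (C (X - C x))`,
`YClass W q = mk W (Y - C q)`, the line polynomial has degree at most one). (7): by (3); the cases
even * even: `a a'` is monic of degree `e + e'`, `deg (b b' f) ≤ (e - 2) + (e' - 2) + 3`,
`deg (a b' + b a') ≤ e + e' - 2`; even * odd: `b = b₀` with `deg b₀ ≤ e - 2`, `b'` monic of degree `e'`,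
`deg a' ≤ e' + 1`: `a b'` is monic of degree `e + e'`, `deg (b a') ≤ e + e' - 1`, `deg (a a') ≤ e + e' + 1`,
`deg (b b' f) ≤ e + e' + 1`; odd * odd: `b b' f` is monic of degree `e + e' + 3`, `deg (a a') ≤ e + e' + 2`,
`deg (a b' + b a') ≤ e + e' + 1`. (8) clear by (1). (9) `c a + c b Y`; by (1) and the degrees the two
representations have the same parity (`c ≠ 0` by (8)), and the leading coefficient gives `c = 1`. -/
def S_Mon : Prop :=
  ∀ (L : Type) [Field L] (W : WeierstrassCurve.Affine L), IsNf W →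
    (∀ a b a' b' : L[X], el W a b = el W a' b' → a = a' ∧ b = b') ∧
    (∀ z : W.CoordinateRing, ∃ a b : L[X], z = el W a b) ∧
    (∀ a b a' b' : L[X], el W a b * el W a' b' =
      el W (a * a' + b * b' * cub W) (a * b' + b * a')) ∧
    Mn W 1 0 ∧ (∀ x : L, Mn W (Affine.CoordinateRing.XClass W x) 2) ∧
    (∀ x y l : L, Mn W (Affine.CoordinateRing.YClass W (Affine.linePolynomial x y l)) 3) ∧
    (∀ (z z' : W.CoordinateRing) (d d' : ℕ), Mn W z d → Mn W z' d' → Mn W (z * z') (d + d')) ∧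
    (∀ (z : W.CoordinateRing) (d : ℕ), Mn W z d → z ≠ 0) ∧
    ∀ (c : L) (z : W.CoordinateRing) (d d' : ℕ), Mn W z d → Mn W (el W (C c) 0 * z) d' → c = 1

/-- **Idl** (200 lines, uses `S_Pts`, `S_Sl`). The ideals of the points.

Proof. `Affine.CoordinateRing.XYIdeal_neg_mul`, `XYIdeal_mul_XYIdeal` (Mathlib, as in the construction of
`Affine.Point.toClass`): the cases `P = O`, `Q = O`, `P + Q = O`, and the general case. (4) the norm of a unit
is a unit of `L[X]`, of degree `0`; by `degree_norm_smul_basis` `z = a + b Y` has `b = 0` and `a` constant. (3)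
`Ip P ∋ X - x_P ≠ 0`. -/
def S_Idl : Prop :=
  ∀ (L : Type) [Field L], (2 : L) ≠ 0 → ∀ W : WeierstrassCurve.Affine L, IsNf W →
    (∀ P Q : W.Point, Ideal.span {dR P Q} * (Ip P * Ip Q) = Ideal.span {nR P Q} * Ip (P + Q)) ∧
    (∀ P : W.Point, P ≠ 0 →
      Ip P * Ip (-P) = Ideal.span {Affine.CoordinateRing.XClass W (px P)}) ∧
    (∀ P : W.Point, Ip P ≠ ⊥) ∧
    ∀ z : W.CoordinateRing, IsUnit z → ∃ c : L, c ≠ 0 ∧ z = el W (C c) 0

/-- **Rid** (200 lines, uses `S_Mon`, `S_Idl`). The cocycle identity in the coordinate ring.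

Proof. By `S_Idl` (1) both `span {u₁} * Ip (P + Q + S)` and `span {u₂} * Ip (P + Q + S)` (`u₁`, `u₂` the two sides)
are `span {product of the four d's} * (Ip P * Ip Q * Ip S)`. Multiply by `Ip (-(P + Q + S))`, which gives a principal
ideal `≠ 0` (or `⊤`); so `span {u₁} = span {u₂}` (domain) and `u₁ = ε * u₂` with a unit `ε`, a constant `c` by
`S_Idl` (4). All the factors `nR`, `dR` are `Mn` (`S_Mon` (4)-(6)), so `u₁`, `u₂` are (`S_Mon` (7)), and
`c = 1` by `S_Mon` (9). -/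
def S_Rid : Prop :=
  ∀ (L : Type) [Field L], (2 : L) ≠ 0 → ∀ W : WeierstrassCurve.Affine L, IsNf W →
    ∀ P Q S : W.Point, nR P Q * nR (P + Q) S * (dR Q S * dR P (Q + S)) =
      nR Q S * nR P (Q + S) * (dR P Q * dR (P + Q) S)

/-- **Dvs** (250 lines, uses `S_Pts`, `S_Sl`, `S_Mon`, `S_Idl`). The function with divisor
`n [R] - n [O]` is a polynomial, and its norm.

Proof. Let `n_i = nR R (i • R)`, `d_i = dR R (i • R)`. Multiply `S_Idl` (1) for `(R, i • R)`, `i < n`: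
`span {∏ d_i} * (Ip R ^ n * ∏_{i < n} Ip (i • R)) = span {∏ n_i} * ∏_{i < n} Ip ((i + 1) • R)`. The two products of
ideals differ by the factors `Ip 0 = ⊤`, `Ip (n • R) = ⊤`; cancel the common factors `Ip (i • R)`,
`1 ≤ i < n` (multiply by `Ip (-(i • R))` and use `S_Idl` (2): principal nonzero ideals can be cancelled). So
`span {∏ d_i} * Ip R ^ n = span {∏ n_i}` and `∏ n_i = ∏ d_i * w`, `w = a + b Y`. Take norms
(`N(a + b Y) = a ^ 2 - b ^ 2 f`, multiplicative by `S_Mon` (1), (3): the conjugation `a + b Y ↦ a - b Y`; or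
`Affine.CoordinateRing.norm_smul_basis`). For `1 ≤ i ≤ n - 2`: `N(n_i) = ℓ ^ 2 - f = - (X - x_R) (X - x_i) (X - x_{i+1})`
(`x_i = px (i • R)`, `ℓ` the line; Mathlib `addPolynomial_slope`; both sides are monic cubic polynomials with the
same roots, the coefficients are compared by `S_Sl` (4)), `N(d_i) = (X - x_{i+1}) ^ 2`; `n_0 = d_0 = 1`;
`n_{n-1} = X - x_R`, `d_{n-1} = 1`. The product telescopes:
`N(w) = (-1) ^ (n - 2) (X - x_R) ^ (n - 2) (X - x_1) / (X - x_{n-1}) * (X - x_R) ^ 2 = - (X - x_R) ^ n` since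
`x_1 = x_{n-1} = x_R` (`(n - 1) R = - R`) and `n` is odd. -/
def S_Dvs : Prop :=
  ∀ (L : Type) [Field L], (2 : L) ≠ 0 → ∀ W : WeierstrassCurve.Affine L, IsNf W →
    ∀ (n : ℕ) (R : W.Point), Odd n → 3 ≤ n → n • R = 0 → (∀ i, 0 < i → i < n → i • R ≠ 0) →
    ∃ a b : L[X], ∏ i ∈ Finset.range n, nR R (i • R) =
      (∏ i ∈ Finset.range n, dR R (i • R)) * el W a b ∧
      a ^ 2 - b ^ 2 * cub W = -(X - C (px R)) ^ n

/-- **Ev** (150 lines, uses `S_Pts`, `S_Bas`). Evaluation at a point over an extension.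

Proof. `ev` is `AdjoinRoot.lift` for `aeval x_T : L[X] → M` and the root `y_T` of the equation. The values of
`XClass`, `YClass (linePolynomial ..)`, and the slope of the images of `P`, `Q` is the image of the slope
(`Affine.map_slope` / `baseChange_slope`, `Algebra.ofId L M` is injective; `pmap` is an injective homomorphism). -/
def S_Ev : Prop :=
  ∀ (K : Type) [Field K], (2 : K) ≠ 0 → ∀ W : WeierstrassCurve K, IsNf W →
    ∀ (L M : Type) [Field L] [Field M] [Algebra K L] [Algebra K M] [Algebra L M]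
      [IsScalarTower K L M] (T : (W⁄M).toAffine.Point), T ≠ 0 →
    ∃ ev : (W⁄L).toAffine.CoordinateRing →+* M,
      (∀ a b : L[X], ev (el (W⁄L).toAffine a b) = aeval (px T) a + aeval (px T) b * py T) ∧
      ∀ P Q : (W⁄L).toAffine.Point,
        ev (nR P Q) = nv (pmap W (Algebra.ofId L M) P) (pmap W (Algebra.ofId L M) Q) T ∧
        ev (dR P Q) = dv (pmap W (Algebra.ofId L M) P) (pmap W (Algebra.ofId L M) Q) T

/-- **Fco** (120 lines, uses `S_Pts`, `S_Rid`). The values of the functions.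

Proof. Evaluation at `T = (x, y)` is a ring homomorphism `W.CoordinateRing → L` (`AdjoinRoot.lift`, or
`quotientXYIdealEquiv`), it maps `nR P Q` to `nv P Q T` and `dR P Q` to `dv P Q T`. -/
def S_Fco : Prop :=
  ∀ (L : Type) [Field L], (2 : L) ≠ 0 → ∀ W : WeierstrassCurve.Affine L, IsNf W →
    (∀ P Q S T : W.Point, T ≠ 0 → nv P Q T * nv (P + Q) S T * (dv Q S T * dv P (Q + S) T) =
      nv Q S T * nv P (Q + S) T * (dv P Q T * dv (P + Q) S T)) ∧
    ∀ P Q S T : W.Point, T ≠ 0 → dv P Q T ≠ 0 → dv (P + Q) S T ≠ 0 → dv Q S T ≠ 0 →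
      dv P (Q + S) T ≠ 0 → fv P Q T * fv (P + Q) S T = fv Q S T * fv P (Q + S) T

/-- **Slc** (120 lines, uses `S_Mon`, `S_Rid`). The cocycle identity of the slopes.

Proof. With `ℓ_{P, Q} = Y - (λ X + ν)` the identity `S_Rid` is
`ℓ_{P,Q} * ℓ_{P+Q,S} * (X - x_{Q+S}) * (X - x_{P+Q+S}) = ℓ_{Q,S} * ℓ_{P,Q+S} * (X - x_{P+Q}) * (X - x_{P+Q+S})`.
In the basis `1, Y` (`S_Mon` (1), (3)) the coefficient of `Y` of
`(Y - λ X - ν) (Y - λ' X - ν') (X - x₁) (X - x₂)` is `- ((λ + λ') X + ν + ν') (X - x₁) (X - x₂)`; compare the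
coefficients of `X ^ 3`. -/
def S_Slc : Prop :=
  ∀ (L : Type) [Field L], (2 : L) ≠ 0 → ∀ W : WeierstrassCurve.Affine L, IsNf W →
    ∀ P Q S : W.Point, P ≠ 0 → Q ≠ 0 → S ≠ 0 → P + Q ≠ 0 → Q + S ≠ 0 → P + Q + S ≠ 0 →
      sl P Q + sl (P + Q) S = sl Q S + sl P (Q + S)

/-- **Exc** (150 lines, uses `S_Pts`, `S_Sl`, `S_Slc`). The value at `-S`, and the exchange formula.

Proof. (1) With `λ = sl P Q`, `P + Q = (x₃, y₃)`, `y₃ = λ (x_P - x₃) - y_P`, `S = (x, y)`, `-S = (x, -y)`: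
`sl (P + Q) S = (y₃ - y) / (x₃ - x)`, and
`- (λ + (y₃ - y) / (x₃ - x)) = (- y - y_P - λ (x - x_P)) / (x - x₃)`. (2) `P + Q + S ≠ 0` (as
`px S ≠ px (P + Q)`), so by (1), `S_Slc` and the symmetry of `sl`:
`fv P Q (-S) = - (sl P Q + sl (P + Q) S) = - (sl Q S + sl (Q + S) P) = fv Q S (-P)`. (3) `sl P Q = sl Q P` and `Q` is
on the line (`S_Sl` (4)). -/
def S_Exc : Prop :=
  ∀ (L : Type) [Field L], (2 : L) ≠ 0 → ∀ W : WeierstrassCurve.Affine L, IsNf W →
    (∀ P Q S : W.Point, P ≠ 0 → Q ≠ 0 → S ≠ 0 → P + Q ≠ 0 → px S ≠ px (P + Q) →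
      fv P Q (-S) = -(sl P Q + sl (P + Q) S)) ∧
    (∀ P Q S : W.Point, P ≠ 0 → Q ≠ 0 → S ≠ 0 → P + Q ≠ 0 → Q + S ≠ 0 → px S ≠ px (P + Q) →
      px P ≠ px (Q + S) → fv P Q (-S) = fv Q S (-P)) ∧
    ∀ P Q T : W.Point, fv P Q T = fv Q P T ∧ nv P Q T = nv Q P T ∧ dv P Q T = dv Q P T

/-- **Nz** (150 lines, uses `S_Pts`, `S_Sl`). Norms and zeros of the functions.

Proof. (1) Let `T = (x, y)`, `ℓ = y_A + λ (x - x_A)`: the product is `(y - ℓ) (- y - ℓ) = ℓ ^ 2 - f(x)`, and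
`f(x) - ℓ ^ 2` is a monic polynomial in `x` of degree three with the roots `x_A`, `x_B`, `x_{A+B}` (compare
coefficients: the coefficient of `x ^ 2` by `S_Sl` (4), and `ℓ(x_A) = y_A`, `ℓ(x_B) = y_B`, or Mathlib
`addPolynomial_slope`). (2) if `nv A B s = 0` (general case) then by (1) `px s` is one of
`px A, px B, px (A + B)`, so `s = ± ..` is in `H`. If `dv A B s = 0`, then `s = ± (A + B) ∈ H`. The case
`A + B = 0`: `px s ≠ px A`. (3) similarly: if `nv (-c) (-d) (-X) = 0` then `X` is one of `± c`, `± d`,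
`± (c + d)`; none of them is in `H`. -/
def S_Nz : Prop :=
  ∀ (L : Type) [Field L], (2 : L) ≠ 0 → ∀ W : WeierstrassCurve.Affine L, IsNf W →
    (∀ A B T : W.Point, A ≠ 0 → B ≠ 0 → A + B ≠ 0 → T ≠ 0 → nv A B T * nv A B (-T) =
      -((px T - px A) * (px T - px B) * (px T - px (A + B)))) ∧
    (∀ (H : AddSubgroup W.Point) (A B s : W.Point), A ∈ H → B ∈ H → s ∉ H →
      nv A B s ≠ 0 ∧ dv A B s ≠ 0 ∧ fv A B s ≠ 0) ∧
    ∀ (H : AddSubgroup W.Point) (c d X : W.Point), Gen H c d → X ∈ H → Av c d X ≠ 0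

/-- **Gg** (300 lines, uses `S_Pts`, `S_Sl`, `S_Fco`, `S_Exc`, `S_Nz`). The main identity. Notation:
`f(A, B; T) = fv A B T`, `A(X) = Av c d X = f(-c, -d; -X)` for `X ≠ O`, `A(O) = 1`.

Proof. `A = O` or `B = O`: `f(A, B; ·) = 1`, both sides are equal. Case `A ≠ O`, `A + B = O`: `f(A, B; t) = x_t - x_A`;
by `S_Nz` (1) for `-c, -d` and `T = A`: `A(A) A(-A) (x_A - x_{c+d}) ^ 2 = - (x_A - x_c) (x_A - x_d) (x_A - x_{c+d})`,
i.e. `(x_{c+d} - x_A) A(A) A(-A) = (x_c - x_A) (x_d - x_A)`. Case `A, B, A + B ≠ O`. The points `A, B, A + B` are in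
`H`, the points `c, d, c ± d` and their translates by `H` are not in `H`; `px P ≠ px Q` if `P ± Q ≠ O`.
(i) `S_Fco` at `T = -A` for `(B, -c, -d)`:
`f(B, -c; -A) f(B - c, -d; -A) = f(-c, -d; -A) f(B, -c - d; -A)`.
(ii) `S_Exc` (2), (3): `f(B, -c; -A) = f(-c, B; -A) = f(B, A; c) = f(A, B; c)`, and
`f(B, -c - d; -A) = f(A, B; c + d)`.
(iii) `f(B - c, -d; -A) = f(-d, B - c; -A) = f(B - c, A; d)`.
(iv) `S_Fco` at `T = d` for `(A, B, -c)`:
`f(A, B; d) f(A + B, -c; d) = f(B, -c; d) f(A, B - c; d)`.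
(v) `S_Exc`: `f(-d, -c; -(A + B)) = f(-c, A + B; d)`, `f(-d, -c; -B) = f(-c, B; d)`, i.e. `f(A + B, -c; d) = A(A + B)`,
`f(B, -c; d) = A(B)`.
So (i): `f(A,B;c) X = A(A) f(A,B;c+d)` with `X = f(A, B - c; d)`, (iv): `f(A,B;d) A(A+B) = A(B) X`. Multiply
and cancel `X ≠ 0` (`X = 0`: `nv A (B - c) d = 0` would give `px d ∈ {px A, px (B - c), px (A + B - c)}` by
`S_Nz` (1)). The conditions of `S_Fco`, `S_Exc`: all the `px`'s compared are different, since a sum or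
difference of the two points is one of `c, d, c + d, c - d` (up to sign) plus an element of `H`. (The module
`W2/D/E2.lean` is the analogue for `A = B` in characteristic two.) -/
def S_Gg : Prop :=
  ∀ (L : Type) [Field L], (2 : L) ≠ 0 → ∀ W : WeierstrassCurve.Affine L, IsNf W →
    ∀ (H : AddSubgroup W.Point) (c d A B : W.Point), Gen H c d → A ∈ H → B ∈ H →
      fv A B c * fv A B d * Av c d (A + B) = fv A B (c + d) * (Av c d A * Av c d B)

/-- **WAd** (100 lines, uses `S_Nz`, `S_Gg`). Additivity of `wn n R` in the second variable.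

Proof. (2) Induction on `n` with `S_Gg` for `(R, n • R)`; cancel `Av c d (n • R) ≠ 0` (`S_Nz` (3)).
`Av c d 0 = 1`. -/
def S_WAd : Prop :=
  ∀ (L : Type) [Field L], (2 : L) ≠ 0 → ∀ W : WeierstrassCurve.Affine L, IsNf W →
    ∀ (n : ℕ) (H : AddSubgroup W.Point) (c d R : W.Point), R ∈ H →
      (c ∉ H → wn n R c ≠ 0) ∧
      (Gen H c d → wn n R c * wn n R d * Av c d (n • R) = wn n R (c + d) * Av c d R ^ n)

/-- **Ccm** (120 lines). Symmetric cocycles (abstract).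

Proof. (a) Four term identity
`f(A, B) f(A', B') f(A + B, A' + B') = f(A, A') f(B, B') f(A + A', B + B')`: the left side is (cocycle for
`(A, B, A' + B')`) `f(B, A' + B') f(A, A' + B + B') f(A', B')`, and `f(A', B') f(A' + B', B) =
f(B', B) f(A', B + B')`; the cocycle for `(A, A', B + B')` is
`f(A, A') f(A + A', B + B') = f(A', B + B') f(A, A' + B + B')`. (1) induction on `n` with (a) for `A = R`,
`B = n R`, `A' = R'`, `B' = n R'`. (b) `w_{m + n}(R) = w_m(R) w_n(R) f(m R, n R)` by induction on `n`: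
`f(m R, n R) f((m + n) R, R) = f(n R, R) f(m R, (n + 1) R)`. (2) induction on `n` with (b). -/
def S_Ccm : Prop :=
  ∀ (G : Type) [AddCommGroup G] (L : Type) [Field L] (f : G → G → L), (∀ A B, f A B ≠ 0) →
    (∀ A B, f A B = f B A) → (∀ A, f A 0 = 1) →
    (∀ A B C, f A B * f (A + B) C = f B C * f A (B + C)) →
    (∀ (n : ℕ) (R R' : G), (∏ i ∈ Finset.range n, f R (i • R)) *
      (∏ i ∈ Finset.range n, f R' (i • R')) * f (n • R) (n • R') =
        (∏ i ∈ Finset.range n, f (R + R') (i • (R + R'))) * f R R' ^ n) ∧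
    ∀ (m n : ℕ) (R : G), ∏ i ∈ Finset.range (m * n), f R (i • R) =
      (∏ i ∈ Finset.range m, f R (i • R)) ^ n * ∏ i ∈ Finset.range n, f (m • R) (i • m • R)

/-- **WRa** (150 lines, uses `S_Pts`, `S_Fco`, `S_Exc`, `S_Nz`, `S_Ccm`). Dependence on the first
variable.

Proof. `S_Ccm` for the group `H` and `f(A, B) = fv A B s`; all `dv`'s at `s` of elements of `H` are nonzero
(`S_Nz` (2)), so `S_Fco` (2) applies (`s ≠ O` as `O ∈ H`). (3) induction on `m` with (1) for `R' = m • R`: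
`fv 0 _ s = 1`. -/
def S_WRa : Prop :=
  ∀ (L : Type) [Field L], (2 : L) ≠ 0 → ∀ W : WeierstrassCurve.Affine L, IsNf W →
    ∀ (H : AddSubgroup W.Point) (s R : W.Point), R ∈ H → s ∉ H →
      (∀ (n : ℕ) (R' : W.Point), R' ∈ H → wn n R s * wn n R' s * fv (n • R) (n • R') s =
        wn n (R + R') s * fv R R' s ^ n) ∧
      (∀ m n : ℕ, wn (m * n) R s = wn m R s ^ n * wn n (m • R) s) ∧
      ∀ (n m : ℕ), n • R = 0 → EqN n (wn n (m • R) s) (wn n R s ^ m)

/-- **Wmp** (120 lines, uses `S_Pts`, `S_Bas`, `S_Fr`). Homomorphisms of fields, Frobenius.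

Proof. All the functions are rational expressions in the coordinates (`Affine.map_slope` /
`baseChange_slope`, `pmap` is an injective homomorphism). (2) the same for the Frobenius isogeny: it is an
injective homomorphism, and the slope of `Fi A`, `Fi B` is the `p`-th power of the slope of `A`, `B` (both
cases of the slope; the coefficients of `E_{j+1}` over `L` are the `p`-th powers of those of `E_j`). -/
def S_Wmp : Prop :=
  (∀ (K : Type) [Field K], (2 : K) ≠ 0 → ∀ W : WeierstrassCurve K, IsNf W →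
    ∀ (L : Type) [Field L] [Algebra K L] (S M : Type) [Field S] [Field M] [Algebra K S]
      [Algebra K M] [Algebra S L] [Algebra S M] [IsScalarTower K S L] [IsScalarTower K S M]
      (f : L →ₐ[S] M),
    (∀ P Q : (W⁄L).toAffine.Point, sl (pmap W f P) (pmap W f Q) = f (sl P Q)) ∧
    (∀ P Q T : (W⁄L).toAffine.Point, fv (pmap W f P) (pmap W f Q) (pmap W f T) = f (fv P Q T)) ∧
    ∀ (n : ℕ) (R T : (W⁄L).toAffine.Point), wn n (pmap W f R) (pmap W f T) = f (wn n R T)) ∧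
  ∀ (p : ℕ) [Fact p.Prime], p ≠ 2 → ∀ (K : Type) [Field K] [CharP K p]
    (W : WeierstrassCurve K), IsNf W → ∀ (j : ℕ) (L : Type) [Field L] [Algebra K L]
    (n : ℕ) (R T : Pt p W j L), wn n (Fi p W j R) (Fi p W j T) = wn n R T ^ p

/-- **Der** (200 lines). Elements killed by all derivations are `p`-th powers.

Proof. Suppose `u` is not a `p`-th power. Let `k₀ = {z ^ p}`, a subfield of `L` (`u ∉ k₀`). By Zorn's lemma there
is a maximal subfield `M ⊇ k₀` with `u ∉ M`. `T ^ p - u ^ p` is irreducible over `M`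
(`X_pow_sub_C_irreducible_of_prime` or the like: `u ^ p ∈ k₀ ⊆ M` is not a `p`-th power in `M`, as `u` is the
only `p`-th root in `L`), so `[M(u) : M] = p`. For every `z ∈ L` with `z ∉ M` the field `M(z)` contains `u` by
maximality, and `[M(z) : M] = p` (`z ^ p ∈ M`), so `M(z) = M(u)`; hence `L = M(u)`. The derivation
`d / dT` of `M[T]` kills `T ^ p - u ^ p`, so it induces an `M`-linear derivation `D` of
`L = M[T] / (T ^ p - u ^ p)` with `D u = 1 ≠ 0`. (If Mathlib knows `p`-bases or differentials of purely inseparable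
extensions use them.) -/
def S_Der : Prop :=
  ∀ (p : ℕ) [Fact p.Prime] (L : Type) [Field L] [CharP L p] (u : L),
    (∀ D : Derivation ℤ L L, D u = 0) → ∃ v : L, v ^ p = u

/-- **Dls** (250 lines, uses `S_Pts`, `S_Sl`, `S_Om`, `S_Slc`, `S_Exc`). The logarithmic derivative of
the functions.

Proof. (1) Let `l = sl P Q`, `x, y, w` for `P`, `x', y', w'` for `Q`, `x₃ = px (P + Q)`. The line `l (X - x) + y`
meets the curve in `x, x', x₃`: `f(X) - (l (X - x) + y) ^ 2 = (X - x) (X - x') (X - x₃)`; its derivative at `x`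
(resp. `x'`): `f'(x) - 2 l y = (x - x') (x - x₃)`, `f'(x') - 2 l y' = (x' - x) (x' - x₃)`. If `x ≠ x'`:
`D l = (D y - D y' - l (D x - D x')) / (x - x') = (w (f'(x) - 2 l y) - w' (f'(x') - 2 l y')) / (x - x')
= w (x - x₃) + w' (x' - x₃)`. If `Q = P`: `2 y l = f'(x)`, differentiate:
`2 y D l = (6 x + 2 a₂) 2 y w - 2 l f'(x) w`, `D l = (6 x + 2 a₂ - 2 l ^ 2) w = 2 (x - x₃) w`, and `w' = w` (uniqueness).
(2) Let `Σ = A + B + S`, `g = fv A B (-S) = - (sl A B + sl (A + B) S)` (`S_Exc` (1)). By (1) and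
`IsOm D (A + B) (a + b)`: `D g = - (a (x_A - x_Σ) + b (x_B - x_Σ) + s (x_S - x_Σ))`. Claim
`g (sl A B - sl (A + S) B) = - (x_A - x_Σ)`: let `u = sl A B`, `v = sl (A + B) S`, `u' = sl A S`, `v' = sl (A + S) B`;
by `S_Slc` and symmetry `u + v = u' + v' = - g`. By `S_Sl` (4) `u ^ 2 = x_A + x_B + x_{A+B} + a₂`,
`v ^ 2 = x_{A+B} + x_S + x_Σ + a₂`, `u' ^ 2 = x_A + x_S + x_{A+S} + a₂`, `v' ^ 2 = x_{A+S} + x_B + x_Σ + a₂`. So
`(u - v') (u + v') + (u' - v) (u' + v) = 2 (x_A - x_Σ)`, and `u - v' = u' - v`, so the left side is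
`(u - v') (u + v' + u' + v) = - 2 g (u - v')`. The other two terms by symmetry (`g = fv B A (-S)`, and
`g = - (sl S A + sl (S + A) B)`). -/
def S_Dls : Prop :=
  ∀ (L : Type) [Field L], (2 : L) ≠ 0 → ∀ W : WeierstrassCurve.Affine L, IsNf W →
    ∀ D : Derivation ℤ L L, D W.a₂ = 0 → D W.a₄ = 0 → D W.a₆ = 0 →
    (∀ (P Q : W.Point) (w w' : L), P ≠ 0 → Q ≠ 0 → P + Q ≠ 0 → IsOm D P w → IsOm D Q w' →
      D (sl P Q) = w * (px P - px (P + Q)) + w' * (px Q - px (P + Q))) ∧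
    ∀ (A B S : W.Point) (a b s : L), A ≠ 0 → B ≠ 0 → S ≠ 0 → A + B ≠ 0 → A + S ≠ 0 →
      B + S ≠ 0 → A + B + S ≠ 0 → px S ≠ px (A + B) → IsOm D A a → IsOm D B b → IsOm D S s →
      D (fv A B (-S)) = fv A B (-S) * (a * (sl A B - sl (A + S) B) +
        b * (sl B A - sl (B + S) A) + s * (sl S A - sl (S + B) A))

/-- **Key** (300 lines, uses `S_Pts`, `S_Sl`, `S_Om`, `S_Slc`, `S_Dls`, `S_Nz`). The logarithmic
derivative of `wn p A`.

Proof. Let `a_j = sl (T - j A) (- A)`, `l_i = sl (T - A) (- i A)`, `μ_i = sl (i A) A`, `ω_A`, `ω_T` the values of the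
differential (`IsOm D (i A) (i ω_A)`, `S_Om` (4)); `j A ≠ O` for `0 < j < p`, and `T ∉ ⟨A⟩`. `S_Slc` for
`(T - A, - i A, - A)`, `1 ≤ i ≤ p - 2`: `l_i + a_{i+1} = sl (- i A) (- A) + l_{i+1}`, i.e. `l_{i+1} = l_i + a_{i+1} + μ_i`,
and `l_1 = a_1`; so (*) `l_i = ∑_{j=1}^{i} a_j + ∑_{j=1}^{i-1} μ_j` for `1 ≤ i ≤ p - 1`. For `1 ≤ i ≤ p - 1` with
`(i + 1) A ≠ O`: `S_Dls` (2) for `(A, i A, - T)` and `sl (- P) (- Q) = - sl P Q`:
`D f_i = f_i ω_A ((1 + i) μ_i + l_i + i a_i) + f_i ω_T (a_0 - a_i)`, `f_i = fv A (i A) T`; `f_0 = 1`.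
Case `p A ≠ O`: sum over `1 ≤ i ≤ p - 1`: by (*) the coefficient of `ω_A` is
`∑_j a_j ((p - j) + j) + ∑_j μ_j ((1 + j) + (p - 1 - j)) = p (..) = 0`, the coefficient of `ω_T` is
`(p - 1) a_0 - ∑_{i ≥ 1} a_i = - SA p A T`. Case `p A = O`: sum over `1 ≤ i ≤ p - 2`: the coefficient of `ω_A` is
`(p - 1) (∑_{j ≤ p-2} a_j + ∑_{j ≤ p-2} μ_j) = - (l_{p-1} - a_{p-1})`, and `f_{p-1} = x_T - x_A`,
`D f_{p-1} = 2 y_T ω_T - 2 y_A ω_A`. Now `l_{p-1} = sl (T - A) A = sl A (- T) = (y_A + y_T) / (x_A - x_T)` (`S_Sl` (4)) and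
`a_{p-1} = sl (T + A) (- A) = sl (- A) (- T) = (- y_A + y_T) / (x_A - x_T)`, so `- (l_{p-1} - a_{p-1}) =
- 2 y_A / (x_A - x_T)` cancels with the contribution `- 2 y_A / (x_T - x_A)` of `f_{p-1}`. The coefficient of `ω_T`:
`a_0 = sl T (- A) = (y_T + y_A) / (x_T - x_A)`, so `2 y_T / (x_T - x_A) = a_0 - a_{p-1}`, and the sum is again
`(p - 1) a_0 - ∑_{i=1}^{p-1} a_i`. (2) By (*) `∑_{j=1}^{p-1} a_j + ∑_{j=1}^{p-2} μ_j = l_{p-1} = sl A (- T)
= - sl (- A) T = - a_0`. -/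
def S_Key : Prop :=
  ∀ (p : ℕ) [Fact p.Prime], p ≠ 2 → ∀ (L : Type) [Field L] [CharP L p]
    (W : WeierstrassCurve.Affine L), IsNf W → ∀ A T : W.Point,
    (∀ i, 0 < i → i < p → i • A ≠ 0) → T ∉ AddSubgroup.zmultiples A →
    (∀ D : Derivation ℤ L L, D W.a₂ = 0 → D W.a₄ = 0 → D W.a₆ = 0 → ∀ w : L, IsOm D T w →
      D (wn p A T) = -(SA p A T * w * wn p A T)) ∧
    (p • A = 0 → SA p A T = -cR p A)

/-- **Cnz** (300 lines, uses `S_Pts`, `S_Bas`, `S_Om`, `S_Dv`, `S_Mon`, `S_Dvs`, `S_Ev`, `S_Nz`, `S_Wmp`,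
`S_Key`). `c(R) ≠ 0`.

Proof. Let `c(R) = 0`. `S_Dvs` for `n = p`: `a, b ∈ L[X]` with `a ^ 2 - b ^ 2 f = - (X - x_R) ^ p`. By `S_Dv` (for the
field `L` and `f = cub (W⁄L)`) let `M ⊇ L` be a field with a derivation `D` killing `L`, `x, y ∈ M`, `D x = 1`,
`y ^ 2 = f(x)`, `x` transcendental over `L`; `M` is an algebra over `K` by composition. `T = (x, y) ∈ W(M)`, `R'` the
image of `R`; `T ∉ ⟨R'⟩` (the coordinates of the multiples of `R'` are in `L`). `D` kills the coefficients, so by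
`S_Key` (1), (2): `D (wn p R' T) = cR p R' * ω * wn p R' T = 0` (`cR p R'` is the image of `cR p R`, `S_Wmp`). By `S_Ev`:
`wn p R' T = ∏ nv / ∏ dv = a(x) + b(x) y` (the `dv`'s are nonzero, `S_Nz`). `2 y D y = f'(x)`, so
`0 = a'(x) + b'(x) y + b(x) f'(x) / (2 y)`, i.e. `2 a'(x) y = - (2 b'(x) f(x) + b(x) f'(x))`; square:
`4 a' ^ 2 f = (2 b' f + b f') ^ 2` in `L[X]`; comparing the parity of the degrees both sides are `0`, so `a' = 0`
(characteristic `≠ 2`). The degree of `b ^ 2 f` is odd and that of `a ^ 2` even, so from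
`b ^ 2 f - a ^ 2 = (X - x_R) ^ p`: `2 deg a < p`; with `a' = 0`, `a` is a constant `α`. Let `α ^ 2 = β ^ p` with `β` in
an algebraic closure; `b ^ 2 f = (X - x_R) ^ p + β ^ p = (X - x_R + β) ^ p`. So `f` has only one root in the algebraic
closure, contradicting that `f` is separable of degree `3` (`f`, `f'` have no common root, `S_Pts` (10) over the
algebraic closure). -/
def S_Cnz : Prop :=
  ∀ (p : ℕ) [Fact p.Prime], p ≠ 2 → ∀ (K : Type) [Field K] [CharP K p]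
    (W : WeierstrassCurve K), IsNf W → ∀ (L : Type) [Field L] [Algebra K L]
    (R : (W⁄L).toAffine.Point), R ≠ 0 → p • R = 0 → cR p R ≠ 0

/-- **W1** (200 lines, uses `S_Pts`, `S_Bas`, `S_Om`, `S_Fr`, `S_WAd`, `S_Der`, `S_Key`, `S_Cnz`). The
functions `wn p A` modulo `p`-th powers.

Proof. The coefficients of `E_{j+1}` over `L` are `p`-th powers (of elements of `L`), so every derivation `D`
of `L` kills them. (1) `T = Fi q = (x, y)`: `x, y` are `p`-th powers, `D x = D y = 0`; so `IsOm D T 0`, and by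
`S_Key` (1) `D (wn p A T) = 0` for all `D`; by `S_Der` it is a `p`-th power, nonzero by `S_WAd` (1). (2) Let
`wn p R T = z ^ p`, so `D (wn p R T) = 0` for all `D`. By `S_Key` (1), (2) `cR p R * w * wn p R T = 0` where
`IsOm D T w` (`S_Om` (1)), so `w = 0` (`S_Cnz`, with `W' = fr p W (j + 1)`), i.e. `D (px T) = D (py T) = 0` for all `D`;
by `S_Der` `px T = ξ ^ p`, `py T = η ^ p`, and `S_Fr` (6). (`i • R ≠ 0` for `0 < i < p` as `p` is prime.) -/
def S_W1 : Prop :=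
  ∀ (p : ℕ) [Fact p.Prime], p ≠ 2 → ∀ (K : Type) [Field K] [CharP K p]
    (W : WeierstrassCurve K), IsNf W → ∀ (j : ℕ) (L : Type) [Field L] [Algebra K L],
    (∀ (A : Pt p W (j + 1) L) (q : Pt p W j L), (∀ i, 0 < i → i < p → i • A ≠ 0) →
      Fi p W j q ∉ AddSubgroup.zmultiples A → ∃ z : L, z ≠ 0 ∧ wn p A (Fi p W j q) = z ^ p) ∧
    ∀ R T : Pt p W (j + 1) L, R ≠ 0 → p • R = 0 → T ∉ AddSubgroup.zmultiples R →
      (∃ z : L, wn p R T = z ^ p) → ∃ q : Pt p W j L, T = Fi p W j q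

/-- **WF** (120 lines, uses `S_Bas`, `S_Fr`, `S_Vh`, `S_It`, `S_WAd`, `S_WRa`, `S_Wmp`, `S_W1`). The step.

Proof. (1) `S_WRa` (2) with `m = p`, `n = p ^ k`: `wn (p ^ (k + 1)) R T = wn p R T ^ (p ^ k) * wn (p ^ k) (p • R) T`,
`T = Fi P₁`, and `p • R = Fi (Vi R)`; by `S_Wmp` (2) the second factor is `wn (p ^ k) (Vi R) P₁ ^ p`, by `S_W1` (1)
`wn p R T = z ^ p` (`i • R ≠ 0` for `0 < i < p`, as `R` has order `p ^ (k + 1)`). (2) `S_WRa` (2) with `m = p ^ k`,
`n = p`; `s = wn (p ^ k) R T`. -/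
def S_WF : Prop :=
  ∀ (p : ℕ) [Fact p.Prime], p ≠ 2 → ∀ (K : Type) [Field K] [CharP K p]
    (W : WeierstrassCurve K), IsNf W → ∀ (L : Type) [Field L] [Algebra K L]
    (k : ℕ) (R : Pt p W (k + 1) L), IsR p W (k + 1) R →
    (∀ P₁ : Pt p W k L, Fi p W k P₁ ∉ AddSubgroup.zmultiples R → ∃ s : L, s ≠ 0 ∧
      wn (p ^ (k + 1)) R (Fi p W k P₁) = s ^ p ^ (k + 1) * wn (p ^ k) (Vi p W k R) P₁ ^ p) ∧
    ∀ T : Pt p W (k + 1) L, T ∉ AddSubgroup.zmultiples R → ∃ s : L, s ≠ 0 ∧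
      wn (p ^ (k + 1)) R T = wn p (p ^ k • R) T * s ^ p

/-- **Wkr** (150 lines, uses `S_Fr`, `S_Vh`, `S_It`, `S_W1`, `S_WF`). The kernel.

Proof by induction on `k`; `k = 0`: `Fn 0 = id`, and everything is a first power (`wn 1 R P = fv R 0 P = 1`). Step: (→)
let `wn (p ^ (k + 1)) R P = s ^ (p ^ (k + 1))`. By `S_WF` (2) `wn p (p ^ k • R) P` is a `p`-th power, `p ^ k • R ≠ 0` is
killed by `p` and `P ∉ ⟨p ^ k • R⟩`; so `P = Fi P₁` (`S_W1` (2)). Let `R₁ = Vi R` (`IsR k R₁`). If `P₁ = m • R₁` then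
`P = m • Fi (Vi R) = m • p • R`, no. By `S_WF` (1) `wn (p ^ k) R₁ P₁ ^ p = s' ^ (p ^ (k + 1))`, so
`wn (p ^ k) R₁ P₁ = s' ^ (p ^ k)` (`p`-th roots are unique in characteristic `p`) and `P₁ = Fn k q` by induction. (←)
the converse in the same way: `Fn (k + 1) q = Fi (Fn k q)`. -/
def S_Wkr : Prop :=
  ∀ (p : ℕ) [Fact p.Prime], p ≠ 2 → ∀ (K : Type) [Field K] [CharP K p]
    (W : WeierstrassCurve K), IsNf W → ∀ (L : Type) [Field L] [Algebra K L]
    (k : ℕ) (R : Pt p W k L), IsR p W k R → ∀ P : Pt p W k L, P ∉ AddSubgroup.zmultiples R →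
      (EqN (p ^ k) (wn (p ^ k) R P) 1 ↔ ∃ q, P = Fn p W k q)

/-- **Ext** (150 lines). Functions which are homomorphisms generically (abstract; copy of
`W2/D/Ext.lean`).

Proof. For `p ∈ G` and `c, c' ∈ G` with `c, c', p + c, p + c' ∉ H` we have `w (p + c) / w c = w (p + c') / w c'`:
first if moreover `p + c + c'`, `p + c - c'`, `p + c' - c ∉ H`: both `w (p + c) * w c'` and
`w (p + c') * w c` are `w (p + c + c')`. In general choose `c''` such that the condition holds for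
`(c, c'')` and for `(c', c'')` (this excludes finitely many `c''`, `G` is infinite). Let `w' p` be the common
value. For `c` with `c, q + c, p + q + c ∉ H`: `w' (p + q) = w (p + q + c) / w c =
(w (p + (q + c)) / w (q + c)) * (w (q + c) / w c) = w' p * w' q`. For `p ∉ H` take `c` with `c`, `p + c`,
`p - c ∉ H`: `w' p = w (p + c) / w c = w p`. -/
def S_Ext : Prop :=
  ∀ (G : Type) [AddCommGroup G] [Infinite G] (A : Type) [CommGroup A] (H : AddSubgroup G),
    (H : Set G).Finite → ∀ w : G → A,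
    (∀ c d, c ∉ H → d ∉ H → c + d ∉ H → c - d ∉ H → w (c + d) = w c * w d) →
    ∃ w' : G → A, (∀ p q, w' (p + q) = w' p * w' q) ∧ ∀ c, c ∉ H → w' c = w c

/-- **Wt** (200 lines, uses `S_Bas`, `S_Fr`, `S_It`, `S_Rk`, `S_WAd`, `S_Wkr`, `S_Ext`). The homomorphism
`E_k(L) → Lˣ / (Lˣ) ^ (p ^ k)` (as in `W2/D/Wt.lean`).

Proof. Let `H = ⟨R⟩`, a finite group (`addOrderOf R = p ^ k`), `p ^ k • R = 0`. Let
`A = Lˣ ⧸ (powMonoidHom (p ^ k)).range` and `w c` the class of `wn (p ^ k) R c ≠ 0` for `c ∉ H` (`S_WAd` (1)), `1` for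
`c ∈ H`. By `S_WAd` (2) (`Av c d 0 = 1`) the hypothesis of `S_Ext` holds (the group is infinite by `S_Rk`); let `w'`
be the extension and `w P` a representative of `w' P`. `ne`, `add`, `gen` are clear. `ker`: (←) choose `q'` with
`Fn q'`, `Fn (q + q') ∉ H` (`Fn` is injective, `E_0(L)` is infinite): `w (Fn q) ≡ w (Fn (q + q')) / w (Fn q') ≡ 1`
by `S_Wkr`. (→) choose `q` with `P + Fn q ∉ H`: `w (P + Fn q) ≡ 1`, so `P + Fn q = Fn q''` by `S_Wkr`,
`P = Fn (q'' - q)`. -/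
def S_Wt : Prop :=
  ∀ (p : ℕ) [Fact p.Prime], p ≠ 2 → ∀ (K : Type) [Field K] [CharP K p]
    (W : WeierstrassCurve K), IsNf W → ∀ (L : Type) [Field L] [Algebra K L] [IsSepClosed L]
    (k : ℕ) (R : Pt p W k L), IsR p W k R → ∃ w, IsWt p W k R w

/-- **Wtc** (200 lines, uses `S_Bas`, `S_It`, `S_Rk`, `S_WRa`, `S_Wmp`). Compatibility with homomorphisms
of fields (as in `W2/D/Wtc.lean`).

Proof. Let `H = ⟨R⟩`, `H' = ⟨R'⟩`, both finite; `pmap f R ∈ H'`. For `P` with `P ∉ H`, `pmap f P ∉ H'`: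
`f (w P) ≡ f (wn (p ^ k) R P) = wn (p ^ k) (pmap f R) (pmap f P) = wn (p ^ k) (m • R') (pmap f P) ≡
wn (p ^ k) R' (pmap f P) ^ m ≡ w' (pmap f P) ^ m` (`S_Wmp`, `S_WRa` (3)). In general choose `P'` such that `P'` and
`P + P'` have this property (it excludes finitely many `P'` as `pmap f` is injective; the group is
infinite); both sides are additive modulo `p ^ k`-th powers. -/
def S_Wtc : Prop :=
  ∀ (p : ℕ) [Fact p.Prime], p ≠ 2 → ∀ (K : Type) [Field K] [CharP K p]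
    (W : WeierstrassCurve K), IsNf W → ∀ (L : Type) [Field L] [Algebra K L] [IsSepClosed L]
    (k : ℕ) (R : Pt p W k L), IsR p W k R → ∀ w, IsWt p W k R w →
    ∀ (S M : Type) [Field S] [Field M] [Algebra K S] [Algebra K M] [Algebra S L]
      [Algebra S M] [IsScalarTower K S L] [IsScalarTower K S M] (f : L →ₐ[S] M)
      (R' : Pt p W k M), IsR p W k R' → ∀ w', IsWt p W k R' w' → ∀ m : ℕ,
      pmap (fr p W k) f R = m • R' →
      ∀ P, EqN (p ^ k) (f (w P)) (w' (pmap (fr p W k) f P) ^ m)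

end Pool.Agent.MP72V
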