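import Pool.Agent.Lib.MP_72e2e6_nt.WP.Fd.Spec

/-!
# MP_72e2e6_nt, theorem T3 for odd characteristic, block Fd: the function with divisor `n [R] - n [O]`
-/

namespace Pool.Agent.MP72V

open Polynomial WeierstrassCurve

open scoped Classical

private def DNm {L : Type} [Field L] (W : WeierstrassCurve.Affine L) (z : W.CoordinateRing)
    (q : L[X]) : Prop :=
  ∃ a b : L[X], z = el W a b ∧ a ^ 2 - b ^ 2 * cub W = q

private lemma dvs_XClass {L : Type} [Field L] (W : WeierstrassCurve.Affine L) (x : L) :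
    Affine.CoordinateRing.XClass W x = el W (X - C x) 0 := by
  unfold el Affine.CoordinateRing.XClass
  rw [Affine.CoordinateRing.smul, Affine.CoordinateRing.smul]
  simp

private lemma dvs_YClass {L : Type} [Field L] (W : WeierstrassCurve.Affine L) (y : L[X]) :
    Affine.CoordinateRing.YClass W y = el W (-y) 1 := by
  unfold el Affine.CoordinateRing.YClass
  rw [Affine.CoordinateRing.smul, Affine.CoordinateRing.smul]
  simp only [map_sub, map_neg, map_one, mul_one, one_mul]
  ring

private lemma dvs_one {L : Type} [Field L] (W : WeierstrassCurve.Affine L) :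
    (1 : W.CoordinateRing) = el W 1 0 := by
  unfold el
  simp

private lemma dnm_one {L : Type} [Field L] (W : WeierstrassCurve.Affine L) : DNm W 1 1 :=
  ⟨1, 0, dvs_one W, by ring⟩

private lemma dnm_X {L : Type} [Field L] (W : WeierstrassCurve.Affine L) (x : L) :
    DNm W (Affine.CoordinateRing.XClass W x) ((X - C x) ^ 2) :=
  ⟨X - C x, 0, dvs_XClass W x, by ring⟩

private lemma dnm_mul {L : Type} [Field L] {W : WeierstrassCurve.Affine L}
    (hm : ∀ a b a' b' : L[X], el W a b * el W a' b' =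
      el W (a * a' + b * b' * cub W) (a * b' + b * a')) {z z' : W.CoordinateRing} {q q' : L[X]}
    (h : DNm W z q) (h' : DNm W z' q') : DNm W (z * z') (q * q') := by
  obtain ⟨a, b, rfl, rfl⟩ := h
  obtain ⟨a', b', rfl, rfl⟩ := h'
  exact ⟨_, _, hm a b a' b', by ring⟩

private lemma dnm_prod {L : Type} [Field L] {W : WeierstrassCurve.Affine L}
    (hm : ∀ a b a' b' : L[X], el W a b * el W a' b' =
      el W (a * a' + b * b' * cub W) (a * b' + b * a')) (z : ℕ → W.CoordinateRing)
    (q : ℕ → L[X]) (m : ℕ) (h : ∀ i < m, DNm W (z i) (q i)) :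
    DNm W (∏ i ∈ Finset.range m, z i) (∏ i ∈ Finset.range m, q i) := by
  induction m with
  | zero => simpa using dnm_one W
  | succ m ih =>
    rw [Finset.prod_range_succ, Finset.prod_range_succ]
    exact dnm_mul hm (ih fun i hi => h i (by omega)) (h m (by omega))

private lemma dnm_uniq {L : Type} [Field L] {W : WeierstrassCurve.Affine L}
    (hu : ∀ a b a' b' : L[X], el W a b = el W a' b' → a = a' ∧ b = b') {z : W.CoordinateRing}
    {q q' : L[X]} (h : DNm W z q) (h' : DNm W z q') : q = q' := by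
  obtain ⟨a, b, h1, rfl⟩ := h
  obtain ⟨a', b', h2, rfl⟩ := h'
  obtain ⟨rfl, rfl⟩ := hu _ _ _ _ (h1.symm.trans h2)
  rfl

private lemma dnm_line {L : Type} [Field L] (hS : S_Sl) (h2 : (2 : L) ≠ 0)
    {W : WeierstrassCurve.Affine L} (hW : IsNf W) (P Q : W.Point) (hP : P ≠ 0) (hQ : Q ≠ 0)
    (hPQ : P + Q ≠ 0) :
    DNm W (nR P Q) (-((X - C (px P)) * (X - C (px Q)) * (X - C (px (P + Q))))) := by
  have hx := ((hS L h2 W hW).2.2.2 P Q hP hQ hPQ).1
  have hn : nR P Q = Affine.CoordinateRing.YClass W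
      (Affine.linePolynomial (px P) (py P) (sl P Q)) := by
    unfold nR
    rw [if_neg (by tauto), if_neg hPQ]
  refine ⟨_, _, hn.trans (dvs_YClass W _), ?_⟩
  have key : W.addPolynomial (px P) (py P) (sl P Q) =
      -((X - C (px P)) * (X - C (px Q)) * (X - C (W.addX (px P) (px Q) (sl P Q)))) := by
    match P, Q, hP, hQ, hPQ with
    | .zero, _, hP, _, _ => exact absurd rfl hP
    | _, .zero, _, hQ, _ => exact absurd rfl hQ
    | .some x y h, .some x' y' h', _, _, hPQ =>
      refine Affine.addPolynomial_slope h.1 h'.1 ?_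
      rintro ⟨e1, e2⟩
      exact hPQ (Affine.Point.add_of_Y_eq e1 e2)
  have hadd : W.addX (px P) (px Q) (sl P Q) = px (P + Q) := by
    rw [hx, Affine.addX, hW.a1]
    ring
  rw [hadd] at key
  rw [← key, Affine.addPolynomial, Affine.polynomial]
  simp only [eval_add, eval_sub, eval_mul, eval_pow, eval_X, eval_C, hW.a1, hW.a3, cub]
  simp only [map_zero, zero_mul, add_zero]
  ring

private lemma dvs_abs {A : Type} [CommRing A] [IsDomain A] (x y c : A) (I : Ideal A) (hc : c ≠ 0)
    (h : Ideal.span {x * c} = Ideal.span {y * c} * I) : ∃ w, x = y * w := by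
  have h1 : x * c ∈ Ideal.span {y * c} := by
    have := Ideal.mem_span_singleton_self (x * c)
    rw [h] at this
    exact Ideal.mul_le_left this
  obtain ⟨w, hw⟩ := Ideal.mem_span_singleton'.1 h1
  refine ⟨w, mul_right_cancel₀ hc ?_⟩
  rw [← hw]
  ring

/-- Cancellation of the common factors. -/
private lemma dvs_dvd {L : Type} [Field L] (hI : S_Idl) (h2 : (2 : L) ≠ 0)
    {W : WeierstrassCurve.Affine L} (hW : IsNf W) (n : ℕ) (R : W.Point)
    (hR : n • R = 0) (h : ∀ i, 0 < i → i < n → i • R ≠ 0) :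
    ∃ w : W.CoordinateRing, ∏ i ∈ Finset.range n, nR R (i • R) =
      (∏ i ∈ Finset.range n, dR R (i • R)) * w := by
  obtain ⟨hI1, hI2, -, -⟩ := hI L h2 W hW
  have h0 : Ip (0 : W.Point) = ⊤ := by
    unfold Ip
    rw [if_pos rfl]
  -- the product of the relations
  have e1 : ∀ i, Ideal.span {dR R (i • R)} * (Ip R * Ip (i • R)) =
      Ideal.span {nR R (i • R)} * Ip ((i + 1) • R) := by
    intro i
    rw [succ_nsmul' R i]
    exact hI1 R (i • R)
  have e2 : ∀ m : ℕ, Ideal.span {∏ i ∈ Finset.range m, dR R (i • R)} *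
      (Ip R ^ m * ∏ i ∈ Finset.range m, Ip (i • R)) =
      Ideal.span {∏ i ∈ Finset.range m, nR R (i • R)} *
        ∏ i ∈ Finset.range m, Ip ((i + 1) • R) := by
    intro m
    induction m with
    | zero => simp
    | succ m ih =>
      rw [Finset.prod_range_succ, Finset.prod_range_succ, Finset.prod_range_succ,
        Finset.prod_range_succ, ← Ideal.span_singleton_mul_span_singleton,
        ← Ideal.span_singleton_mul_span_singleton]
      calc _ = (Ideal.span {∏ i ∈ Finset.range m, dR R (i • R)} *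
          (Ip R ^ m * ∏ i ∈ Finset.range m, Ip (i • R))) *
          (Ideal.span {dR R (m • R)} * (Ip R * Ip (m • R))) := by ring
        _ = _ := by rw [ih, e1 m]; ring
  have e3 : ∏ i ∈ Finset.range n, Ip ((i + 1) • R) = ∏ i ∈ Finset.range n, Ip (i • R) := by
    have a1 := Finset.prod_range_succ (fun i => Ip (i • R)) n
    have a2 := Finset.prod_range_succ' (fun i => Ip (i • R)) n
    rw [a1] at a2
    simp only [zero_smul, hR, h0, Ideal.mul_top] at a2
    exact a2.symm
  -- a principal multiple of the product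
  have e4 : ∀ m ≤ n, ∃ (J : Ideal W.CoordinateRing) (c : W.CoordinateRing), c ≠ 0 ∧
      (∏ i ∈ Finset.range m, Ip (i • R)) * J = Ideal.span {c} := by
    intro m
    induction m with
    | zero => exact fun _ => ⟨⊤, 1, one_ne_zero, by simp⟩
    | succ m ih =>
      intro hm
      obtain ⟨J, c, hc, hJ⟩ := ih (by omega)
      rcases Nat.eq_zero_or_pos m with rfl | hpos
      · exact ⟨J, c, hc, by rw [Finset.prod_range_succ]; simpa [h0] using hJ⟩
      · have hne := h m hpos (by omega)
        refine ⟨J * Ip (-(m • R)), c * Affine.CoordinateRing.XClass W (px (m • R)),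
          mul_ne_zero hc (Affine.CoordinateRing.XClass_ne_zero _), ?_⟩
        rw [Finset.prod_range_succ, ← Ideal.span_singleton_mul_span_singleton, ← hJ,
          ← hI2 _ hne]
        ring
  obtain ⟨J, c, hc, hJ⟩ := e4 n le_rfl
  have e5 : Ideal.span {(∏ i ∈ Finset.range n, nR R (i • R)) * c} =
      Ideal.span {(∏ i ∈ Finset.range n, dR R (i • R)) * c} * Ip R ^ n := by
    rw [← Ideal.span_singleton_mul_span_singleton, ← Ideal.span_singleton_mul_span_singleton,
      ← hJ, ← mul_assoc, ← e3, ← e2 n, e3]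
    ring
  exact dvs_abs _ _ c (Ip R ^ n) hc e5

theorem tDvs (h1 : S_Pts) (h2 : S_Sl) (h3 : S_Mon) (h4 : S_Idl) : S_Dvs := by
  intro L _ hL W hW n R hodd h3n hR hne
  obtain ⟨hu, hex, hm, -, -, -, -, -, -⟩ := h3 L W hW
  obtain ⟨w, hw⟩ := dvs_dvd h4 hL hW n R hR hne
  obtain ⟨a, b, rfl⟩ := hex w
  refine ⟨a, b, hw, ?_⟩
  obtain ⟨m, rfl⟩ : ∃ m, n = m + 2 := ⟨n - 2, by omega⟩
  have hmodd : Odd m := by
    rcases hodd with ⟨k, hk⟩
    exact ⟨k - 1, by omega⟩
  have hR0 : R ≠ 0 := by simpa using hne 1 (by omega) (by omega)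
  -- the last abscissa
  have hneg : (m + 1) • R = -R := by
    have : (m + 1) • R + R = 0 := by rw [← succ_nsmul]; exact hR
    exact eq_neg_of_add_eq_zero_left this
  have hlast : px ((m + 1) • R) = px R := by
    rw [hneg]
    obtain ⟨hp1, hp2, -, -, hp5, -⟩ := h1 L hL W hW
    rcases hp1 R with h | ⟨x, y, h⟩
    · exact absurd h hR0
    · rw [(hp2 _ _ _ (hp5 R x y h)).2.1, (hp2 _ _ _ h).2.1]
  -- norms
  have g0n : nR R ((0 : ℕ) • R) = 1 := by
    unfold nR
    rw [if_pos (by simp)]
  have g0d : dR R ((0 : ℕ) • R) = 1 := by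
    unfold dR
    rw [if_pos (by simp)]
  have hsum : R + (m + 1) • R = 0 := by rw [hneg]; simp
  have hm1 : (m + 1) • R ≠ 0 := hne (m + 1) (by omega) (by omega)
  have gln : nR R ((m + 1) • R) = Affine.CoordinateRing.XClass W (px R) := by
    unfold nR
    rw [if_neg (by tauto), if_pos hsum]
  have gld : dR R ((m + 1) • R) = 1 := by
    unfold dR
    rw [if_pos (by tauto)]
  have hmid : ∀ i < m, R + (i + 1) • R = (i + 2) • R := fun i _ => by
    rw [← succ_nsmul']
  have n1 : DNm W (∏ i ∈ Finset.range (m + 2), nR R (i • R))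
      ((∏ i ∈ Finset.range m, (-((X - C (px R)) * (X - C (px ((i + 1) • R))) *
        (X - C (px ((i + 2) • R)))))) * 1 * (X - C (px R)) ^ 2) := by
    rw [Finset.prod_range_succ, Finset.prod_range_succ', g0n, gln]
    refine dnm_mul hm (dnm_mul hm (dnm_prod hm _ _ m fun i hi => ?_) (dnm_one W)) (dnm_X W _)
    have := dnm_line h2 hL hW R ((i + 1) • R) hR0 (hne _ (by omega) (by omega))
      (by rw [hmid i hi]; exact hne _ (by omega) (by omega))
    rwa [hmid i hi] at this
  have n2 : DNm W (∏ i ∈ Finset.range (m + 2), dR R (i • R))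
      ((∏ i ∈ Finset.range m, (X - C (px ((i + 2) • R))) ^ 2) * 1 * 1) := by
    rw [Finset.prod_range_succ, Finset.prod_range_succ', g0d, gld]
    refine dnm_mul hm (dnm_mul hm (dnm_prod hm _ _ m fun i hi => ?_) (dnm_one W)) (dnm_one W)
    have e : dR R ((i + 1) • R) = Affine.CoordinateRing.XClass W (px ((i + 2) • R)) := by
      unfold dR
      rw [hmid i hi, if_neg]
      rintro (h | h | h)
      · exact hR0 h
      · exact hne _ (by omega) (by omega) h
      · exact hne _ (by omega) (by omega) h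
    rw [e]
    exact dnm_X W _
  have n3 : DNm W (∏ i ∈ Finset.range (m + 2), nR R (i • R))
      ((∏ i ∈ Finset.range m, (X - C (px ((i + 2) • R))) ^ 2) * 1 * 1 *
        (a ^ 2 - b ^ 2 * cub W)) := by
    rw [hw]
    exact dnm_mul hm n2 ⟨a, b, rfl, rfl⟩
  have n4 := dnm_uniq hu n1 n3
  -- telescoping
  have t1 : ∏ i ∈ Finset.range m, (X - C (px ((i + 1) • R))) =
      ∏ i ∈ Finset.range m, (X - C (px ((i + 2) • R))) := by
    have a1 := Finset.prod_range_succ (fun i => (X - C (px ((i + 1) • R)))) m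
    have a2 := Finset.prod_range_succ' (fun i => (X - C (px ((i + 1) • R)))) m
    rw [a1] at a2
    simp only [zero_add, one_smul, hlast] at a2
    exact mul_right_cancel₀ (X_sub_C_ne_zero _) a2
  have t2 : ∏ i ∈ Finset.range m, (-((X - C (px R)) * (X - C (px ((i + 1) • R))) *
        (X - C (px ((i + 2) • R))))) = (-(X - C (px R))) ^ m *
      (∏ i ∈ Finset.range m, (X - C (px ((i + 2) • R)))) ^ 2 := by
    have : ∀ i ∈ Finset.range m, (-((X - C (px R)) * (X - C (px ((i + 1) • R))) *
        (X - C (px ((i + 2) • R))))) = (-(X - C (px R))) * (X - C (px ((i + 1) • R))) *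
        (X - C (px ((i + 2) • R))) := fun i _ => by ring
    rw [Finset.prod_congr rfl this, Finset.prod_mul_distrib, Finset.prod_mul_distrib,
      Finset.prod_const, Finset.card_range, t1]
    ring
  rw [t2, Finset.prod_pow, hmodd.neg_pow] at n4
  have t3 : (∏ i ∈ Finset.range m, (X - C (px ((i + 2) • R)))) ^ 2 ≠ 0 :=
    pow_ne_zero _ (Finset.prod_ne_zero_iff.2 fun i _ => X_sub_C_ne_zero _)
  refine mul_left_cancel₀ t3 ?_
  rw [pow_add]
  linear_combination -n4

end Pool.Agent.MP72V
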