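import Pool.Agent.Lib.MP_72e2e6_nt.WP.Fd.Spec

/-!
# MP_72e2e6_nt, theorem T3 for odd characteristic, block Fd: norms and zeros of the functions
-/

namespace Pool.Agent.MP72V

open Polynomial WeierstrassCurve

open scoped Classical

private theorem nz_neg (h1 : S_Pts) {L : Type} [Field L] (h : (2 : L) ≠ 0)
    {W : WeierstrassCurve.Affine L} (hW : IsNf W) (P : W.Point) (hP : P ≠ 0) :
    px (-P) = px P ∧ py (-P) = -py P := by
  obtain ⟨p1, p2, -, -, p5, -⟩ := h1 L h W hW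
  obtain h0 | ⟨x, y, hxy⟩ := p1 P
  · exact absurd h0 hP
  · obtain ⟨-, h3, h4, -⟩ := p2 P x y hxy
    obtain ⟨-, h5, h6, -⟩ := p2 (-P) x (-y) (p5 P x y hxy)
    exact ⟨by rw [h5, h3], by rw [h6, h4]⟩

private theorem nz_kap (h1 : S_Pts) (h2 : S_Sl) {L : Type} [Field L] (h : (2 : L) ≠ 0)
    {W : WeierstrassCurve.Affine L} (hW : IsNf W) (A B : W.Point) (hA : A ≠ 0) (hB : B ≠ 0)
    (hAB : A + B ≠ 0) :
    px A ^ 2 + px A * px B + px B ^ 2 + W.a₂ * (px A + px B) + W.a₄ - 2 * sl A B * py A -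
      sl A B ^ 2 * (px B - px A) = 0 := by
  obtain ⟨p1, p2, -, p4, p5, -, -, -, p9, -⟩ := h1 L h W hW
  obtain ⟨-, s2, s3, s4⟩ := h2 L h W hW
  obtain h0 | ⟨xa, ya, hxa⟩ := p1 A
  · exact absurd h0 hA
  obtain h0 | ⟨xb, yb, hxb⟩ := p1 B
  · exact absurd h0 hB
  obtain ⟨-, h3, h4, h5⟩ := p2 A xa ya hxa
  obtain ⟨-, h6, h7, h8⟩ := p2 B xb yb hxb
  obtain ⟨-, -, -, q4, -, -⟩ := s4 A B hA hB hAB
  by_cases hx : xa = xb
  · have hBA : B = A := by
      rcases s3 A B hA hB (by rw [h3, h6, hx]) with h9 | h9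
      · exact h9
      · exact absurd (by rw [h9, add_neg_cancel]) hAB
    subst hBA
    have hya : ya ≠ 0 := by
      intro h0
      rw [h0] at hxa
      exact hAB (p9 B xa hxa)
    have h9 := s2 B xa ya hxa hya
    rw [h3, h4, h9]
    field_simp
    ring
  · rw [h3, h4, h6, h7] at *
    have hne : xb - xa ≠ 0 := sub_ne_zero.2 (Ne.symm hx)
    apply mul_left_cancel₀ hne
    rw [mul_zero]
    have h9 : yb ^ 2 - ya ^ 2 = (xb - xa) * (2 * sl A B * ya + sl A B ^ 2 * (xb - xa)) := by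
      rw [q4]; ring
    rw [h5, h8] at h9
    linear_combination h9

private theorem nz_one (h1 : S_Pts) (h2 : S_Sl) {L : Type} [Field L] (h : (2 : L) ≠ 0)
    {W : WeierstrassCurve.Affine L} (hW : IsNf W) (A B T : W.Point) (hA : A ≠ 0) (hB : B ≠ 0)
    (hAB : A + B ≠ 0) (hT : T ≠ 0) : nv A B T * nv A B (-T) =
      -((px T - px A) * (px T - px B) * (px T - px (A + B))) := by
  have hk := nz_kap h1 h2 h hW A B hA hB hAB
  obtain ⟨n1, n2⟩ := nz_neg h1 h hW T hT
  obtain ⟨p1, p2, -⟩ := h1 L h W hW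
  obtain ⟨-, -, -, s4⟩ := h2 L h W hW
  obtain h0 | ⟨xa, ya, hxa⟩ := p1 A
  · exact absurd h0 hA
  obtain h0 | ⟨x, y, hx⟩ := p1 T
  · exact absurd h0 hT
  obtain ⟨-, h3, h4, h5⟩ := p2 A xa ya hxa
  obtain ⟨-, h6, h7, h8⟩ := p2 T x y hx
  obtain ⟨q1, -, -, -, -, -⟩ := s4 A B hA hB hAB
  have hn : ∀ T' : W.Point, nv A B T' = py T' - py A - sl A B * (px T' - px A) := by
    intro T'
    unfold nv
    rw [if_neg (not_or.2 ⟨hA, hB⟩), if_neg hAB]
  rw [hn, hn, n1, n2, q1, h3, h4, h6, h7]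
  rw [h3, h4] at hk
  linear_combination (-1 : L) * h8 + h5 + (x - xa) * (-1 : L) * hk

private theorem nz_px (h2 : S_Sl) {L : Type} [Field L] (h : (2 : L) ≠ 0)
    {W : WeierstrassCurve.Affine L} (hW : IsNf W) (H : AddSubgroup W.Point) (X Y : W.Point)
    (hX : X ∈ H) (hX0 : X ≠ 0) (hY : Y ∉ H) : px X - px Y ≠ 0 := by
  obtain ⟨-, -, s3, -⟩ := h2 L h W hW
  intro h0
  have hY0 : Y ≠ 0 := fun h3 => hY (by rw [h3]; exact H.zero_mem)
  rcases s3 X Y hX0 hY0 (sub_eq_zero.1 h0) with h3 | h3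
  · exact hY (by rw [h3]; exact hX)
  · exact hY (by rw [h3]; exact H.neg_mem hX)

theorem tNz (h1 : S_Pts) (h2 : S_Sl) : S_Nz := by
  intro L _ h W hW
  have hone := nz_one h1 h2 h hW
  refine ⟨hone, ?_, ?_⟩
  · intro H A B s hA hB hs
    have hs0 : s ≠ 0 := fun h3 => hs (by rw [h3]; exact H.zero_mem)
    have hpx : ∀ X : W.Point, X ∈ H → X ≠ 0 → px s - px X ≠ 0 := by
      intro X hX hX0 h3
      exact nz_px h2 h hW H X s hX hX0 hs (by linear_combination (-1 : L) * h3)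
    have hn : nv A B s ≠ 0 := by
      by_cases h0 : A = 0 ∨ B = 0
      · unfold nv
        rw [if_pos h0]
        exact one_ne_zero
      · by_cases h3 : A + B = 0
        · unfold nv
          rw [if_neg h0, if_pos h3]
          exact hpx A hA (not_or.1 h0).1
        · intro h4
          have h5 := hone A B s (not_or.1 h0).1 (not_or.1 h0).2 h3 hs0
          rw [h4, zero_mul, eq_comm, neg_eq_zero] at h5
          exact mul_ne_zero (mul_ne_zero (hpx A hA (not_or.1 h0).1) (hpx B hB (not_or.1 h0).2))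
            (hpx (A + B) (H.add_mem hA hB) h3) h5
    have hd : dv A B s ≠ 0 := by
      by_cases h0 : A = 0 ∨ B = 0 ∨ A + B = 0
      · unfold dv
        rw [if_pos h0]
        exact one_ne_zero
      · unfold dv
        rw [if_neg h0]
        exact hpx _ (H.add_mem hA hB) (fun h3 => h0 (Or.inr (Or.inr h3)))
    exact ⟨hn, hd, div_ne_zero hn hd⟩
  · intro H c d X hG hX
    unfold Av
    by_cases h0 : X = 0
    · rw [if_pos h0]
      exact one_ne_zero
    rw [if_neg h0]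
    have hmem : ∀ Y : W.Point, Y ∉ H → -Y ∉ H := fun Y hY h3 => hY (by simpa using H.neg_mem h3)
    have hz : ∀ Y : W.Point, Y ∉ H → Y ≠ 0 := fun Y hY h3 => hY (by rw [h3]; exact H.zero_mem)
    have hX' : -X ∈ H := H.neg_mem hX
    have hX0 : -X ≠ 0 := neg_ne_zero.2 h0
    have hc := hmem c hG.hc
    have hd := hmem d hG.hd
    have hs : -c + -d ∉ H := by
      have h3 : -c + -d = -(c + d) := by rw [neg_add]
      rw [h3]
      exact hmem _ hG.hs
    have hpx := fun Y hY => nz_px h2 h hW H (-X) Y hX' hX0 hY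
    have hn : nv (-c) (-d) (-X) ≠ 0 := by
      intro h4
      have h5 := hone (-c) (-d) (-X) (hz _ hc) (hz _ hd) (hz _ hs) hX0
      rw [h4, zero_mul, eq_comm, neg_eq_zero] at h5
      exact mul_ne_zero (mul_ne_zero (hpx _ hc) (hpx _ hd)) (hpx _ hs) h5
    have hdv : dv (-c) (-d) (-X) ≠ 0 := by
      unfold dv
      rw [if_neg (not_or.2 ⟨hz _ hc, not_or.2 ⟨hz _ hd, hz _ hs⟩⟩)]
      exact hpx _ hs
    exact div_ne_zero hn hdv

end Pool.Agent.MP72V
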