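import Pool.Agent.Lib.MP_72e2e6_nt.WP.Fd.Spec

/-!
# MP_72e2e6_nt, theorem T3 for odd characteristic, block Fd: homomorphisms of fields, Frobenius
-/

namespace Pool.Agent.MP72V

open Polynomial WeierstrassCurve
open Pool.Agent.MP72W (pmap)
open Pool.Agent.MP72P (EqN)

open scoped Classical

/-- A homomorphism of groups of points which is given by a homomorphism of fields on the
coordinates is compatible with `sl`, `fv`, `wn`. -/
private lemma wmp_gen {L M : Type} [Field L] [Field M] (σ : L →+* M)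
    (W : WeierstrassCurve.Affine L) (W' : WeierstrassCurve.Affine M) (hW : W' = W.map σ)
    (Φ : W.Point → W'.Point) (h0 : Φ 0 = 0) (ha : ∀ P Q, Φ (P + Q) = Φ P + Φ Q)
    (hi : ∀ P Q, Φ P = Φ Q → P = Q) (hx : ∀ P, px (Φ P) = σ (px P))
    (hy : ∀ P, py (Φ P) = σ (py P)) :
    (∀ P Q, sl (Φ P) (Φ Q) = σ (sl P Q)) ∧
    (∀ P Q T, fv (Φ P) (Φ Q) (Φ T) = σ (fv P Q T)) ∧
    ∀ (n : ℕ) (R T : W.Point), wn n (Φ R) (Φ T) = σ (wn n R T) := by
  have hsl : ∀ P Q, sl (Φ P) (Φ Q) = σ (sl P Q) := by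
    intro P Q
    unfold sl
    rw [hx, hx, hy, hy]
    subst hW
    exact Affine.map_slope σ _ _ _ _
  have hz : ∀ P, Φ P = 0 ↔ P = 0 := by
    intro P
    refine ⟨fun h => hi _ _ (h.trans h0.symm), ?_⟩
    rintro rfl
    exact h0
  have hz2 : ∀ P Q, Φ P + Φ Q = 0 ↔ P + Q = 0 := by
    intro P Q
    rw [← ha]
    exact hz _
  have hnv : ∀ P Q T, nv (Φ P) (Φ Q) (Φ T) = σ (nv P Q T) := by
    intro P Q T
    unfold nv
    simp only [hz, hz2, hsl, hx, hy]
    split_ifs <;> simp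
  have hdv : ∀ P Q T, dv (Φ P) (Φ Q) (Φ T) = σ (dv P Q T) := by
    intro P Q T
    unfold dv
    simp only [hz, ← ha, hx]
    split_ifs <;> simp
  have hfv : ∀ P Q T, fv (Φ P) (Φ Q) (Φ T) = σ (fv P Q T) := by
    intro P Q T
    unfold fv
    rw [hnv, hdv, map_div₀]
  have hsm : ∀ (i : ℕ) (R : W.Point), i • Φ R = Φ (i • R) := by
    intro i R
    induction i with
    | zero => rw [zero_smul, zero_smul, h0]
    | succ i ih => rw [succ_nsmul, succ_nsmul, ih, ha]
  refine ⟨hsl, hfv, ?_⟩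
  intro n R T
  unfold wn
  rw [map_prod]
  refine Finset.prod_congr rfl fun i _ => ?_
  rw [hsm, hfv]

theorem tWmp (h1 : S_Pts) (h2 : S_Bas) (h3 : S_Fr) : S_Wmp := by
  obtain ⟨hb1, hb2⟩ := h2
  refine ⟨?_, ?_⟩
  · intro K _ h2K W hW L _ _ S M _ _ _ _ _ _ _ _ f
    obtain ⟨-, -, -, -, -, hpm⟩ := hb1 K h2K W hW L
    obtain ⟨-, hinj, hxy, -⟩ := hpm S M f
    have hWM : (W⁄M).toAffine = ((W⁄L).toAffine).map (f : L →+* M) := by
      rw [← Affine.baseChange, ← Affine.baseChange]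
      exact (WeierstrassCurve.map_baseChange W f).symm
    exact wmp_gen (f : L →+* M) (W⁄L).toAffine (W⁄M).toAffine hWM (pmap W f)
      (map_zero _) (map_add _) (fun P Q h => hinj h) (fun P => (hxy P).1) (fun P => (hxy P).2)
  · intro p _ hp K _ _ W hW j L _ _ n R T
    have h2K : (2 : K) ≠ 0 := by
      intro h
      have h3 : ((2 : ℕ) : K) = 0 := by exact_mod_cast h
      rw [CharP.cast_eq_zero_iff K p 2] at h3
      exact hp ((Nat.prime_dvd_prime_iff_eq (Fact.out : p.Prime) Nat.prime_two).1 h3)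
    obtain ⟨hb3, -⟩ := hb2 K p W hW
    have : CharP L p := charP_of_injective_algebraMap (algebraMap K L).injective p
    obtain ⟨h2L, hN, -⟩ := hb1 K h2K (fr p W j) (hb3 j).1 L
    obtain ⟨-, hN', -⟩ := hb1 K h2K (fr p W (j + 1)) (hb3 (j + 1)).1 L
    obtain ⟨q1, q2, -⟩ := h1 L h2L ((fr p W j)⁄L).toAffine hN
    obtain ⟨r1, r2, -⟩ := h1 L h2L ((fr p W (j + 1))⁄L).toAffine hN'
    obtain ⟨f1, f2, f3, f4, -⟩ := h3 p hp K W hW j L
    have hfr : ∀ z : L, frobenius L p z = z ^ p := fun z => rfl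
    have hWW : ((fr p W (j + 1))⁄L).toAffine =
        (((fr p W j)⁄L).toAffine).map (frobenius L p) := by
      have key : ∀ a : K, algebraMap K L (a ^ p ^ (j + 1)) =
          frobenius L p (algebraMap K L (a ^ p ^ j)) := by
        intro a
        rw [hfr, ← map_pow, ← pow_mul, pow_succ]
      ext
      · exact key _
      · exact key _
      · exact key _
      · exact key _
      · exact key _
    refine (wmp_gen (frobenius L p) _ _ hWW (Fi p W j) f1 f3 f4 ?_ ?_).2.2 n R T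
    · intro P
      rcases q1 P with rfl | ⟨x, y, hP⟩
      · rw [f1]
        exact (map_zero (frobenius L p)).symm
      · rw [(q2 P x y hP).2.1, (r2 _ _ _ (f2 P x y hP)).2.1, hfr]
    · intro P
      rcases q1 P with rfl | ⟨x, y, hP⟩
      · rw [f1]
        exact (map_zero (frobenius L p)).symm
      · rw [(q2 P x y hP).2.2.1, (r2 _ _ _ (f2 P x y hP)).2.2.1, hfr]

end Pool.Agent.MP72V
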